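import Pool.Agent.H92.V0F.Vsg
import Pool.Agent.H71.V0R.S

/-!
# The ladder with one follower, of a record

`grV M₀ cb w u j = w + chV M₀ cb j * u`: the windows of the grid of the unit `u` around the window
`w`. `rec_ladR`: the ladder of these windows, of a record; the last place but one is the follower.
-/

set_option autoImplicit false

namespace Pool.V0B19

open Finset Real MvPolynomial
open Pool.Agent.H49.Ent Pool.Agent.H32.Dense Pool.STK Pool.KA Pool.KSAT Pool.K2S Pool.PB Pool.GEN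
open Pool.S6C Pool.RCD Pool.LA91 Pool.OWN68 Pool.PKG
open Pool.CHT (chsys TmH)
open Pool.ISO (lvN)
open Pool.V0F
open Pool.V0R (LadR)

/-- The windows of the grid of the unit `u` around the window `w`. -/
noncomputable def grV (M₀ cb : ℕ) (w u : ℝ) (j : ℕ) : ℝ := w + chV M₀ cb j * u

/-- The set of the windows of the grid. -/
def grS (M₀ cb co : ℕ) (w u : ℝ) : Set ℝ := {v | ∃ j < (cb + co) * M₀ + 1, v = grV M₀ cb w u j}

theorem grV_zero (M₀ cb : ℕ) (w u : ℝ) : grV M₀ cb w u 0 = w - cb * u := by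
  unfold grV
  rw [chV_zero]
  ring

theorem grV_mid {M₀ cb : ℕ} (hM : 1 ≤ M₀) (w u : ℝ) : grV M₀ cb w u (cb * M₀) = w := by
  unfold grV
  rw [chV_mid hM]
  ring

theorem grV_top {M₀ cb co : ℕ} (hM : 1 ≤ M₀) (w u : ℝ) :
    grV M₀ cb w u ((cb + co) * M₀) = w + co * u := by
  unfold grV
  rw [chV_top hM]

theorem grV_nb {M₀ cb : ℕ} (hM : 1 ≤ M₀) (w u : ℝ) (j : ℕ) :
    grV M₀ cb w u (cb * M₀ + j) = w + j * (u / M₀) := by
  unfold grV
  rw [chV_nb hM]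
  ring

theorem grV_one {M₀ cb : ℕ} (hM : 1 ≤ M₀) (w u : ℝ) :
    grV M₀ cb w u (cb * M₀ + M₀) = w + u := by
  have h0 : (M₀ : ℝ) ≠ 0 := by
    have : 0 < M₀ := by omega
    exact_mod_cast this.ne'
  rw [grV_nb hM]
  field_simp

theorem grV_step {M₀ cb : ℕ} (w u : ℝ) (j : ℕ) :
    grV M₀ cb w u (j + 1) = grV M₀ cb w u j + u / M₀ := by
  unfold grV
  rw [chV_succ]
  ring

theorem grV_mono {M₀ cb : ℕ} {w u : ℝ} (hu : 0 ≤ u) {i j : ℕ} (h : i ≤ j) :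
    grV M₀ cb w u i ≤ grV M₀ cb w u j := by
  unfold grV
  have := mul_le_mul_of_nonneg_right (chV_mono (M₀ := M₀) (cb := cb) h) hu
  linarith

/-- The windows of the grid are near. -/
theorem grV_lo {M₀ cb : ℕ} {w u : ℝ} (hu : 0 ≤ u) (j : ℕ) : w - cb * u ≤ grV M₀ cb w u j := by
  rw [← grV_zero M₀ cb w u]
  exact grV_mono hu (Nat.zero_le j)

theorem grV_hi {M₀ cb co : ℕ} (hM : 1 ≤ M₀) {w u : ℝ} (hu : 0 ≤ u) {j : ℕ}
    (hj : j < (cb + co) * M₀ + 1) : grV M₀ cb w u j ≤ w + co * u := by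
  rw [← grV_top (cb := cb) (co := co) hM w u]
  exact grV_mono hu (by omega)

/-- The window at `w + u / s`. -/
theorem grV_ks {M₀ cb : ℕ} (hM : 1 ≤ M₀) {w u φ s : ℝ} (hs : 1 < s) (hu : 0 < u)
    (hφM : u / M₀ ≤ φ) : ⌊(M₀ : ℝ) / s⌋₊ ≤ M₀ ∧
      |grV M₀ cb w u (cb * M₀ + ⌊(M₀ : ℝ) / s⌋₊) - (w + u / s)| ≤ φ :=
  chw_ks (cb := cb) (t := w) hM hs hu hφM

section

variable {k : ℕ} {S : PCl (k + 2)} {al : ℝ} {g₀ : ℝ → ℝ}
  {P : List (Fin (k + 2)) × Fin (k + 2) → ℝ → ℝ → ℝ}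
  {θ : ℝ} {P₂ : ℕ → List (Fin (k + 2)) × Fin (k + 2) → ℝ → ℝ → ℝ} {θ₂ Eb e₂ : ℕ → ℝ}
  {c : ℕ → Fin (k + 2)} {Pt : ℝ → ℝ → ℝ} {rt : ℝ → ℝ} {h K₀ g : ℝ} {L T : ℕ → ℝ → ℝ → ℝ}
  {Sl : ℕ → ℝ} {κ : ℕ → Kg} {G : Set ℝ} {S₀ N : ℕ} {A V : ℕ → ℝ} {S₂ N' : ℕ} {V' : ℕ → ℝ}
  {K ε q t : ℝ}
  (R : RecG S al g₀ P θ P₂ θ₂ Eb e₂ c Pt rt h K₀ g L T Sl κ G S₀ N A V S₂ N' V' K ε q t)
include R

/-- The levels between two windows. -/
theorem rec_sl {l : ℕ} (hl : l < k + 2) {x y : ℝ} (hx : |x - t| ≤ K * q) (hy : |y - t| ≤ K * q) :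
    |L l y y - L l x x - Sl l * (y - x)| ≤ 2 * (ε * q) := by
  have h1 := abs_le.1 (R.dL l hl x hx)
  have h2 := abs_le.1 (R.dL l hl y hy)
  have e1 : Sl l * (y - x) = Sl l * (y - t) - Sl l * (x - t) := by ring
  rw [abs_le, e1]
  constructor <;> linarith [h1.1, h1.2, h2.1, h2.2]

/-- **The ladder with one follower** of the windows of the grid. -/
theorem rec_ladR {M₀ cb co : ℕ} {w u φ : ℝ} (hM : 1 ≤ M₀) (hu : 0 < u)
    (hG : ∀ j < (cb + co) * M₀ + 1, grV M₀ cb w u j ∈ G)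
    (hK : |w - t| + (cb + co + 1) * u ≤ K * q) (hε : 0 < ε) (hSl : ∀ l < k, Sl l = 1)
    (hs1 : 1 ≤ Sl k) (hs2 : 1 ≤ Sl (k + 1)) (hφ : 4 * (ε * q) ≤ φ)
    (hφM : 3 * ((1 + Sl k + Sl (k + 1)) * (u / M₀)) ≤ φ)
    (hch : ChG S c (k + 1) (fun l w => L l w w) G)
    (hatt : ∀ j < (cb + co) * M₀ + 1, ∃ rk E : ℝ, 0 ≤ rk ∧ rk < 1 ∧ 0 ≤ E ∧
      E + L (k + 1) (grV M₀ cb w u j) (grV M₀ cb w u j) < 1 ∧
      LbU S ((range (k + 1)).image c) (c (k + 1)) (grV M₀ cb w u j)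
        (L (k + 1) (grV M₀ cb w u j) (grV M₀ cb w u j)) rk E) :
    LadR S c k 1 (fun l w => L l w w) (grS M₀ cb co w u) (w - cb * u) (w + co * u) φ := by
  have hq := R.q0
  have hM0 : (0 : ℝ) < M₀ := by exact_mod_cast hM
  have hcb : (0 : ℝ) ≤ cb := Nat.cast_nonneg _
  have hco : (0 : ℝ) ≤ co := Nat.cast_nonneg _
  have hcbu : 0 ≤ cb * u := by positivity
  have hcou : 0 ≤ co * u := by positivity
  have ht0 := R.t0
  have ht1 := R.t1
  have hεq : 0 < ε * q := mul_pos hε hq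
  have huM : 0 < u / M₀ := by positivity
  have hwt := abs_le.1 (le_refl |w - t|)
  have hKe : (cb + co + 1) * u = cb * u + co * u + u := by ring
  rw [hKe] at hK
  have hnear : ∀ x, w - cb * u ≤ x → x ≤ w + co * u → |x - t| ≤ K * q := fun x h1 h2 => by
    rw [abs_le]
    constructor <;> linarith [hwt.1, hwt.2]
  have hGn : ∀ v ∈ grS M₀ cb co w u, |v - t| ≤ K * q := by
    rintro v ⟨j, hj, rfl⟩
    exact hnear _ (grV_lo hu.le j) (grV_hi hM hu.le hj)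
  have hGG : grS M₀ cb co w u ⊆ G := by
    rintro v ⟨j, hj, rfl⟩
    exact hG j hj
  have hsum : (1 + Sl k + Sl (k + 1)) * (u / M₀) = u / M₀ + Sl k * (u / M₀) +
      Sl (k + 1) * (u / M₀) := by ring
  rw [hsum] at hφM
  have hs1M : 0 < Sl k * (u / M₀) := by
    have : 0 < Sl k := by linarith
    positivity
  have hs2M : 0 < Sl (k + 1) * (u / M₀) := by
    have : 0 < Sl (k + 1) := by linarith
    positivity
  have hsl : ∀ l, k ≤ l → l ≤ k + 1 → 1 ≤ Sl l ∧ 3 * (Sl l * (u / M₀)) ≤ φ := by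
    intro l h1 h2
    obtain rfl | rfl : l = k ∨ l = k + 1 := by omega
    · exact ⟨hs1, by linarith⟩
    · exact ⟨hs2, by linarith⟩
  refine ⟨⟨6, R.tmc⟩, R.pos, R.inj, hch.mono hGG, ?_, ⟨0, by omega, (grV_zero _ _ _ _).symm⟩, ?_, ?_,
    ?_, ?_, ?_, ?_, ?_, ?_, ?_⟩
  · rintro v ⟨j, hj, rfl⟩
    obtain ⟨rk, E, h1, h2, h3, h4, h5⟩ := hatt j hj
    exact ⟨rk, E, h1, h2, h3, h4, h5⟩
  · exact ⟨(cb + co) * M₀, by omega, (grV_top hM _ _).symm⟩
  · linarith [hwt.1]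
  · linarith
  · linarith [hwt.2]
  · linarith
  · refine ⟨u / M₀, huM, by linarith, fun x hx1 hx2 => ?_, ?_⟩
    · obtain ⟨j, hj, k1, k2⟩ := grid_near (M₀ := M₀) (cb := cb) (co := co) (x := x) hM hu hx1 hx2
      refine ⟨_, ⟨j, hj, rfl⟩, ?_⟩
      show |w + chV M₀ cb j * u - x| ≤ u / M₀
      rw [abs_le]
      constructor <;> linarith
    · intro l h1 h2 v hv v' hv' _ hvv _ h5
      obtain ⟨h6, h7⟩ := hsl l h1 h2
      have h8 := abs_le.1 (rec_sl R (l := l) (by omega) (hGn v hv) (hGn v' hv'))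
      have h9 : Sl l * (v' - v) ≤ Sl l * (3 * (u / M₀)) :=
        mul_le_mul_of_nonneg_left (by linarith) (by linarith)
      show L l v' v' ≤ L l v v + 2 * φ
      have h10 : Sl l * (3 * (u / M₀)) = 3 * (Sl l * (u / M₀)) := by ring
      rw [h10] at h9
      linarith [h8.1, h8.2]
  · intro i hi v hv _ _
    have h1 := abs_le.1 (rec_sl R (l := i) (by omega) (hnear (w + co * u) (by linarith) le_rfl)
      (hGn v hv))
    rw [hSl i hi, one_mul] at h1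
    show |(L i v v - v) - (L i (w + co * u) (w + co * u) - (w + co * u))| ≤ φ
    rw [abs_le]
    constructor <;> linarith [h1.1, h1.2]
  · intro l h1 h2 v hv v' hv' _ hvv _
    obtain ⟨h6, -⟩ := hsl l h1 h2
    have h8 := abs_le.1 (rec_sl R (l := l) (by omega) (hGn v hv) (hGn v' hv'))
    have h9 : v' - v ≤ Sl l * (v' - v) := le_mul_of_one_le_left (by linarith) h6
    show L l v v + (v' - v) ≤ L l v' v' + φ
    linarith [h8.1, h8.2]
  · intro l h1 h2 v hv v' hv' _ _ _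
    obtain rfl : l = k := by omega
    rw [sub_self, abs_zero]
    linarith

end

end Pool.V0B19
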