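import Pool.Agent.H19.V0B.Out
import Pool.Agent.H19.V0B.Rl
import Pool.Agent.H60.V0B.Alr
import Pool.Agent.H92.V0F.Vse
import Pool.Agent.H92.D2.Cel

/-!
# The class theorem of a counted target for a record

`v0b_rec`: the output of the class theorem for a record, a grid of windows of the unit `u` around the
window `w`, and a family of closed labels of `w`. `v0b_alm`: for the natural labels of a list of
windows of the family `Ψ` of `AlM`.
-/

set_option autoImplicit false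

namespace Pool.V0B19

open Finset Real MvPolynomial
open Pool.Agent.H49.Ent Pool.Agent.H32.Dense
open Pool.STK hiding pr2
open Pool.KA Pool.KSAT Pool.K2S Pool.PB Pool.S6C
open Pool.GEN Pool.CHT Pool.CHX Pool.ISO Pool.LA91 Pool.AVG71 Pool.AVG5 Pool.D2F2 Pool.AVG57
open Pool.RCD Pool.AVG96 Pool.OWN68 Pool.V0F Pool.PKG
open Pool.V0R (LadR)
open Pool.D2R (WinB)
open Pool.ALT (Fml NzF)
open Pool.V0N (RowN LowN AlM)

/-- With a smaller side condition. -/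
theorem V0E.tie {m J : ℕ} {F : Fam m J} {c : ℕ → Fin m} {k D' : ℕ} {s κ₂ ι φ w u : ℝ}
    {tie tie' : Prop} {b₀ f₀ fn : ℕ} {g₀ : ℕ → ℕ → ℕ}
    {Gc : ℕ → PtT F → ℕ → MvPolynomial (Option (Fin m)) ℝ}
    {GN : PtT F → MvPolynomial (Option (Fin m)) ℝ} {B : F.Ω → Prop}
    (h : V0E F c k D' s κ₂ ι φ w u tie b₀ f₀ fn g₀ Gc GN B) (ht : tie' → tie) :
    V0E F c k D' s κ₂ ι φ w u tie' b₀ f₀ fn g₀ Gc GN B where
  near := h.near
  bd := h.bd
  bk := fun h' => h.bk (ht h')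
  sm := h.sm
  cl := h.cl

/-- The rows with a larger error. -/
theorem RowN.mono {m : ℕ} {S : PCl m} {Φ : Fml m} {c : ℕ → Fin m} {r₀ : ℕ} {κ : Fin m}
    {v lo hi ρ d d' : ℝ} (h : RowN S Φ c r₀ κ v lo hi ρ d) (hd : d ≤ d') :
    RowN S Φ c r₀ κ v lo hi ρ d' := fun ϖ hϖ => by
  refine Bas.mono 0 (h ϖ hϖ) ?_
  intro J _ F A h1 V z z' G hG B hB hP N₁ N₂ a1 a2 a3
  have h2 := h1 V z z' G hG B hB hP N₁ N₂ a1 a2 a3
  have h3 := mul_le_mul_of_nonneg_right hd (Nat.cast_nonneg (α := ℝ) J)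
  linarith

/-- The number with other first digits. -/
theorem LowN.shift {m : ℕ} {S : PCl m} {Φ : Fml m} {c : ℕ → Fin m} {r₀ : ℕ} {κ : Fin m}
    {v j lo hi s s' ρ d d' : ℝ} (h : LowN S Φ c r₀ κ v j lo hi s ρ d)
    (hd : ρ * (s - s') + d ≤ d') :
    LowN S Φ c r₀ κ v j lo hi s' ρ d' := by
  refine Bas.mono 0 h ?_
  intro J _ F A h1 V z z' G hG N₂ a1 a2
  have h2 := h1 V z z' G hG N₂ a1 a2
  have h3 := mul_le_mul_of_nonneg_right hd (Nat.cast_nonneg (α := ℝ) J)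
  have e1 : ρ * ((N₂ : ℝ) - s * J) = ρ * N₂ - ρ * s * J := by ring
  have e2 : ρ * ((N₂ : ℝ) - s' * J) = ρ * N₂ - ρ * s' * J := by ring
  have e3 : (ρ * (s - s') + d) * J = ρ * s * J - ρ * s' * J + d * J := by ring
  rw [e1] at h2
  rw [e2]
  rw [e3] at h3
  linarith

theorem grS_mem {M₀ cb co : ℕ} {w u : ℝ} {j : ℕ} (hj : j < (cb + co) * M₀ + 1) :
    grV M₀ cb w u j ∈ grS M₀ cb co w u := ⟨j, hj, rfl⟩

/-- The indices of the grid. -/
theorem ix_lt {M₀ cb co j : ℕ} (hco : 1 ≤ co) (hj : j ≤ cb * M₀ + M₀) :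
    j < (cb + co) * M₀ + 1 := by
  have h1 : M₀ ≤ co * M₀ := Nat.le_mul_of_pos_left _ (by omega)
  rw [add_mul]
  omega

/-- **The class theorem of a counted target for a record**: the unit `u`, the windows of the grid
`grV M₀ cb w u`, the family `Θ` of closed labels of the window `w`. `ix`: the indices of the windows of
the grid in the list of the windows of the charts. -/
theorem v0b_rec (D D' k : ℕ) (s h κ₂ : ℝ) (hD : 1 ≤ D) (hDD : D ≤ D') (hk : 1 ≤ k) (hs : 1 < s)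
    (hh : 0 < h) (hh1 : h ≤ 1) (hκ₂ : 0 < κ₂) (hκh : κ₂ < (s - 1) / s * h) :
    ∃ δ₀ T₀ : ℝ, 0 < δ₀ ∧ ∀ T : ℝ, T₀ ≤ T → ∃ Λ : ℝ, 1 ≤ Λ ∧ ∀ ι : ℝ, 0 < ι →
    ∃ φ₀ : ℝ, 0 < φ₀ ∧ φ₀ ≤ 1 / 400 ∧ 2 * φ₀ ≤ δ₀ ∧
    ∀ {S : PCl (k + 2)} {al : ℝ} {g₀ : ℝ → ℝ}
      {P : List (Fin (k + 2)) × Fin (k + 2) → ℝ → ℝ → ℝ}
      {θ : ℝ} {P₂ : ℕ → List (Fin (k + 2)) × Fin (k + 2) → ℝ → ℝ → ℝ} {θ₂ Eb e₂ : ℕ → ℝ}
      {c : ℕ → Fin (k + 2)} {Pt : ℝ → ℝ → ℝ} {rt : ℝ → ℝ} {hr K₀ g : ℝ} {L Tt : ℕ → ℝ → ℝ → ℝ}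
      {Sl : ℕ → ℝ} {κ : ℕ → Kg} {G : Set ℝ} {S₀ N : ℕ} {A V : ℕ → ℝ} {S₂ N' : ℕ} {V' : ℕ → ℝ}
      {K ε q t : ℝ}
      (_ : RecG S al g₀ P θ P₂ θ₂ Eb e₂ c Pt rt hr K₀ g L Tt Sl κ G S₀ N A V S₂ N' V' K ε q t)
      (_ : 0 < ε) (_ : ∀ l < k, Sl l = 1) (_ : ∀ l < k, κ l = .one) (_ : Sl (k + 1) = s)
      (_ : s ≤ Sl k)
      -- the windows of the grid
      {M₀ cb co Cf : ℕ} {w u φ : ℝ} (_ : 1 ≤ M₀) (_ : 0 < u) (_ : φ ≤ φ₀ * u)
      (_ : ∀ j < (cb + co) * M₀ + 1, grV M₀ cb w u j ∈ G)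
      (_ : |w - t| + (cb + co + Λ + 1) * u ≤ K * q) (_ : 4 * (ε * q) ≤ φ)
      (_ : 3 * ((1 + Sl k + Sl (k + 1)) * (u / M₀)) ≤ φ)
      (_ : 2 * Λ + 7 * k + 15 ≤ Cf) (_ : cb = Cf + 7 * k + 13) (_ : Λ + 1 ≤ co)
      -- the free velocities
      {κ' : ℚ} {k₀ : ℕ} {x₀ : ℝ} (_ : (0 : ℝ) < κ') (_ : (κ' : ℝ) ≤ φ₀)
      (_ : FaQ (k, Cf, 1 / 8, κ') k₀ S P θ c Pt rt L Tt κ G x₀) (_ : u < (1 / 2) ^ k₀)
      (_ : w - (Cf + (7 * k + 12) / 2 - Λ) * u ≤ x₀) (_ : x₀ ≤ w - (Cf / 2 + 7 * k + 13) * u)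
      -- the labels of the windows
      (_ : ∀ j < (cb + co) * M₀ + 1, ∃ rk E : ℝ, 0 ≤ rk ∧ rk < 1 ∧ 0 ≤ E ∧
        E + L (k + 1) (grV M₀ cb w u j) (grV M₀ cb w u j) < 1 ∧
        LbU S ((range (k + 1)).image c) (c (k + 1)) (grV M₀ cb w u j)
          (L (k + 1) (grV M₀ cb w u j) (grV M₀ cb w u j)) rk E)
      -- the family of labels
      {Θ : Fml (k + 2)} {p ρ : ℝ} (_ : 0 ≤ ρ) (_ : ρ ≤ (1 - h) * Real.log 2)
      (_ : ∀ (J : ℕ) (F : Fam (k + 2) J) (A B : F.Ω → Prop) (V : Type) (z : PtT F → V)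
        (z' : LnT F → V) (g : V → MvPolynomial (Option (Fin (k + 2))) ℝ), Sub B A →
        Θ J F A V z z' g → Θ J F B V z z' g)
      (_ : ∀ (J : ℕ) (F : Fam (k + 2) J) (A : F.Ω → Prop) (V : Type) (z : PtT F → V)
        (z' : LnT F → V) (g : V → MvPolynomial (Option (Fin (k + 2))) ℝ), Θ J F A V z z' g →
        Pool.GRD.LbP F ((range (k + 1)).image c) (c (k + 1)) D' J ⌊w * J⌋₊ ⌊p * J⌋₊ A z z' g)
      (_ : L (k + 1) w w - φ / 4 ≤ p)
      (_ : RowN S Θ c k (c (k + 1)) w (L (k + 1) w w + u) (L (k + 1) w w + 3 * u) ρ (δ₀ * u))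
      (_ : LowN S Θ c k (c (k + 1)) w (grV M₀ cb w u (cb * M₀ + ⌊(M₀ : ℝ) / s⌋₊))
        (L (k + 1) w w + u) (L (k + 1) w w + 3 * u) (L (k + 1) w w + u) ρ (δ₀ * u))
      -- the windows of the charts
      {Dr Nw M : ℕ} {C₀ a Ew ηm : ℝ} {ow η σ : ℕ → ℝ} {lv : ℕ → ℕ → ℝ} {ix : ℕ → ℕ}
      (_ : D' ≤ Dr) (_ : ∀ j ≤ cb * M₀ + M₀, ix j ≤ Nw ∧ ow (ix j) = grV M₀ cb w u j)
      (_ : ∀ i ≤ Nw, ∀ l ≤ k + 1, lv i l = L l (ow i) (ow i)) (_ : 4 * (C₀ * ηm) ≤ φ)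
      (_ : Ew ≤ Eb (k + 1))
      -- the codes of the target
      (_ : CodU S c k D D' Dr Nw M C₀ a Ew ηm ow η σ lv (ix 0) (ix (cb * M₀)) (w - cb * u) w 1 Θ 1
        (fun l' j' => L l' w w + T * u - (j' : ℝ) * w) w
        (L (k + 1) w w + (1 + (s - 1) / s) * u) (δ₀ * u))
      (_ : CodU S c k D D' Dr Nw M C₀ a Ew ηm ow η σ lv (ix 0) (ix (cb * M₀)) (w - cb * u) w 1 Θ 0
        (fun l' j' => L l' w w + u + 400 * ((k : ℝ) + 2) * φ - (j' : ℝ) * w) (w + u)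
        (L (k + 1) w w + u) (δ₀ * u)),
      Bas S (fun J F A => ∀ {bb : ℕ → ℕ → ℝ} {κ : ℝ} {z : ℕ → ℕ → ℕ}
        {g₀ : ℕ → ℕ → ℕ} {Gc : ℕ → PtT F → ℕ → MvPolynomial (Option (Fin (k + 2))) ℝ}
        {H : ℕ → LnT F → ℕ → MvPolynomial (Option (Fin (k + 2))) ℝ}, κ ≤ 1 →
        WinB F c (k + 1) D Dr Nw M C₀ a Ew ηm ow η σ lv bb κ z A g₀ Gc H →
        V0Z J M u ow ix (fun j => ix (cb * M₀ + j)) (cb * M₀) M₀ z →
        ∀ (V : Type) (y : PtT F → V) (y' : LnT F → V)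
        (g : V → MvPolynomial (Option (Fin (k + 2))) ℝ),
        Θ J F A V y y' g → ∃ B : F.Ω → Prop, Sub B A ∧ Pe F.p A ≤ 8 * Pe F.p B ∧
          V0E F c k D' s κ₂ ι φ w u (Sl k = s) (ix 0) (ix (cb * M₀)) (ix (cb * M₀ + M₀)) g₀ Gc
            (fun x => g (y x)) B) := by
  obtain ⟨δ₀, T₀, hδ₀, hV⟩ := v0b_out (k + 2) D D' k s h κ₂ hD hDD hk hs hh hh1 hκ₂ hκh
  refine ⟨δ₀, T₀, hδ₀, fun T hT => ?_⟩
  obtain ⟨Λ, hΛ, hV⟩ := hV T hT
  refine ⟨Λ, hΛ, fun ι hι => ?_⟩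
  obtain ⟨φ₁, hφ₁, hV⟩ := hV ι hι
  obtain ⟨φ₀, hφ₀⟩ : ∃ φ₀ : ℝ, φ₀ = min φ₁ (min (1 / 400) (δ₀ / 2)) := ⟨_, rfl⟩
  have hφ0 : 0 < φ₀ := by
    rw [hφ₀]
    exact lt_min hφ₁ (lt_min (by norm_num) (by linarith))
  have hφa : φ₀ ≤ φ₁ := by rw [hφ₀]; exact min_le_left _ _
  have hφb : φ₀ ≤ 1 / 400 := by
    rw [hφ₀]
    exact (min_le_right _ _).trans (min_le_left _ _)
  have hφc : φ₀ ≤ δ₀ / 2 := by
    rw [hφ₀]
    exact (min_le_right _ _).trans (min_le_right _ _)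
  refine ⟨φ₀, hφ0, hφb, by linarith, ?_⟩
  intro S al g₀ P θ P₂ θ₂ Eb e₂ c Pt rt hr K₀ g L Tt Sl κ G S₀ N A V S₂ N' V' K ε q t R hε hSl hκ
    hSs hsk M₀ cb co Cf w u φ hM hu hφ hG hK hεφ hMφ hCf hcb hco κ' k₀ x₀ hκ0 hκφ hFa huk hx1 hx2
    hlab Θ p ρ hρ0 hρ hΘs hΘl hp hrow hlow Dr Nw M C₀ a Ew ηm ow η σ lv ix hDr hix hlv hCη hEw
    hdj hjt
  have hq := R.q0
  have hM0 : (0 : ℝ) < M₀ := by exact_mod_cast hM
  have hΛ0 : 0 < Λ := by linarith
  have hcbR : (cb : ℝ) = Cf + 7 * k + 13 := by rw [hcb]; push_cast; ring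
  have hk0 : (0 : ℝ) ≤ k := Nat.cast_nonneg _
  have hCf0 : (0 : ℝ) ≤ Cf := Nat.cast_nonneg _
  have hcb0 : (0 : ℝ) ≤ cb := Nat.cast_nonneg _
  have hco0 : (0 : ℝ) ≤ co := Nat.cast_nonneg _
  have hco1 : 1 ≤ co := by
    have h1 : (1 : ℝ) ≤ co := by linarith
    exact_mod_cast h1
  have ht0 := R.t0
  have ht1 := R.t1
  have hcbu : 0 ≤ cb * u := by positivity
  have hcou : 0 ≤ co * u := by positivity
  have hku : 0 ≤ k * u := by positivity
  have hΛu : 0 < Λ * u := by positivity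
  have hΛu1 : u ≤ Λ * u := le_mul_of_one_le_left hu.le hΛ
  have hΛcb : Λ * u ≤ cb * u := mul_le_mul_of_nonneg_right (by linarith) hu.le
  have hΛco : Λ * u ≤ co * u := mul_le_mul_of_nonneg_right (by linarith) hu.le
  have hKe : (cb + co + Λ + 1) * u = cb * u + co * u + Λ * u + u := by ring
  rw [hKe] at hK
  have hwt := abs_le.1 (le_refl |w - t|)
  have hnear : ∀ x, w - cb * u - Λ * u ≤ x → x ≤ w + co * u + Λ * u → |x - t| ≤ K * q :=
    fun x h1 h2 => by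
      rw [abs_le]
      constructor <;> linarith [hwt.1, hwt.2]
  have hφu0 : φ ≤ 1 / 400 * u := hφ.trans (mul_le_mul_of_nonneg_right hφb hu.le)
  have hεq : 0 < ε * q := by positivity
  have hφp : 0 < φ := by linarith
  -- the ladder
  have hlad := rec_ladR R (M₀ := M₀) (cb := cb) (co := co) (w := w) (u := u) (φ := φ) hM hu hG (by
      have e1 : (cb + co + 1) * u = cb * u + co * u + u := by ring
      rw [e1]
      linarith) hε hSl (by linarith) (by linarith) hεφ hMφ (hFa.ch (k + 1) (by omega)) hlab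
  have hGn : ∀ v ∈ grS M₀ cb co w u, |v - t| ≤ K * q := by
    rintro v ⟨j, hj, rfl⟩
    exact hnear _ (by linarith [grV_lo (M₀ := M₀) (cb := cb) (w := w) hu.le j])
      (by linarith [grV_hi (cb := cb) (w := w) hM hu.le hj])
  have hwn : |w - t| ≤ K * q := hnear w (by linarith) (by linarith)
  have W := R.tg (k + 1) (by omega) (by omega)
  have hEb := W.Eb0
  have hroom : ∀ y : ℝ, |y - t| ≤ K * q → ∀ l ≤ k + 1, L l y y + Eb (k + 1) + 3 * K * q < 1 :=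
    fun y h1 l hl => W.room l hl y h1
  have hlow' : ∀ y : ℝ, |y - t| ≤ K * q → ∀ l ≤ k + 1, y ≤ L l y y := fun y h1 l hl => by
    have h2 := abs_le.1 h1
    exact rec_low (r := k + 1) R hl (by linarith) (by linarith)
  have hKq0 : 0 ≤ K * q := (abs_nonneg _).trans hwn
  have hKq3 : 3 * K * q = 3 * (K * q) := by ring
  rw [hKq3] at hroom
  have hmid : grV M₀ cb w u (cb * M₀) = w := grV_mid hM w u
  have hwG : w ∈ grS M₀ cb co w u := by
    have := grS_mem (M₀ := M₀) (cb := cb) (co := co) (w := w) (u := u)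
      (ix_lt hco1 (show cb * M₀ ≤ cb * M₀ + M₀ by omega))
    rwa [hmid] at this
  have hx0n : |x₀ - t| ≤ K * q := by
    refine hnear x₀ ?_ ?_
    · have e1 : (Cf + (7 * k + 12) / 2 - Λ) * u = Cf * u + 7 / 2 * (k * u) + 6 * u - Λ * u := by
        ring
      have e2 : cb * u = Cf * u + 7 * (k * u) + 13 * u := by rw [hcbR]; ring
      rw [e1] at hx1
      linarith
    · have e1 : ((Cf : ℝ) / 2 + 7 * k + 13) * u = Cf * u / 2 + 7 * (k * u) + 13 * u := by ring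
      rw [e1] at hx2
      have : 0 ≤ (Cf : ℝ) * u := by positivity
      linarith
  obtain ⟨kk, hkk0, hkk1, hkk2⟩ := pow_near hu huk
  have hpk : (0 : ℝ) < (1 / 2) ^ kk := by positivity
  have hx0l : ∀ l < k, |(L l x₀ x₀ - x₀) - (L l w w - w)| ≤ 2 * (ε * q) := fun l hl => by
    have h1 := rec_sl R (l := l) (by omega) hwn hx0n
    rw [hSl l hl, one_mul] at h1
    have e1 : L l x₀ x₀ - L l w w - (x₀ - w) = (L l x₀ x₀ - x₀) - (L l w w - w) := by ring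
    rwa [e1] at h1
  have hCk : (Cf : ℝ) * (u / 2) ≤ Cf * (1 / 2) ^ kk :=
    mul_le_mul_of_nonneg_left (by linarith) hCf0
  have hCk2 : (Cf : ℝ) * (1 / 2) ^ kk ≤ Cf * u := mul_le_mul_of_nonneg_left hkk2 hCf0
  have hkk : (k : ℝ) * (1 / 2) ^ kk ≤ k * u := mul_le_mul_of_nonneg_left hkk2 hk0
  have hkk' : (k : ℝ) * (u / 2) ≤ k * (1 / 2) ^ kk :=
    mul_le_mul_of_nonneg_left (by linarith) hk0
  have hcbe : cb * u = Cf * u + 7 * (k * u) + 13 * u := by rw [hcbR]; ring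
  have hCfu : (2 * Λ + 7 * k + 15) * u ≤ Cf * u := mul_le_mul_of_nonneg_right hCf hu.le
  have hCfe : (2 * Λ + 7 * k + 15) * u = 2 * (Λ * u) + 7 * (k * u) + 15 * u := by ring
  rw [hCfe] at hCfu
  have hx1' : w - (Cf * u + 7 / 2 * (k * u) + 6 * u - Λ * u) ≤ x₀ := by
    have e1 : (Cf + (7 * k + 12) / 2 - Λ) * u = Cf * u + 7 / 2 * (k * u) + 6 * u - Λ * u := by
      ring
    rwa [e1] at hx1
  have hx2' : x₀ ≤ w - (Cf * u / 2 + 7 * (k * u) + 13 * u) := by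
    have e1 : ((Cf : ℝ) / 2 + 7 * k + 13) * u = Cf * u / 2 + 7 * (k * u) + 13 * u := by ring
    rwa [e1] at hx2
  have hgr0 : grV M₀ cb w u 0 = w - cb * u := grV_zero _ _ _ _
  have hgr1 : grV M₀ cb w u (cb * M₀ + M₀) = w + u := grV_one hM _ _
  have huM : 0 < u / M₀ := by positivity
  have hsk0 : 0 < Sl k := by linarith
  have hsum : 3 * (u / M₀ + Sl k * (u / M₀) + s * (u / M₀)) ≤ φ := by
    have e1 : (1 + Sl k + Sl (k + 1)) * (u / M₀) = u / M₀ + Sl k * (u / M₀) +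
        s * (u / M₀) := by rw [hSs]; ring
    rwa [e1] at hMφ
  have hskM : 0 < Sl k * (u / M₀) := by positivity
  have hsM : 0 < s * (u / M₀) := by
    have : 0 < s := by linarith
    positivity
  have hks := grV_ks (cb := cb) (w := w) (φ := φ) hM hs hu (by linarith)
  have hstep : ∀ j, grV M₀ cb w u j ≤ grV M₀ cb w u (j + 1) ∧
      grV M₀ cb w u (j + 1) ≤ grV M₀ cb w u j + φ := fun j => by
    rw [grV_step]
    constructor <;> linarith
  -- the class theorem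
  have hout := hV hlad (w := w) (u := u) (ρ := ρ)
    (sp := fun i x => L i x x - 1 / 8 / 20 * (1 / 2) ^ kk) hu hwG
    (hφ.trans (mul_le_mul_of_nonneg_right hφa hu.le)) hρ0 hρ (by linarith) (by linarith)
    (by linarith) (by linarith) (fun l hl => ⟨by
      have h1 := hlow' (w - cb * u) (hnear _ (by linarith) (by linarith)) l hl
      show Λ * u ≤ L l (w - cb * u) (w - cb * u)
      linarith, by
      have h1 := hroom (w + co * u) (hnear _ (by linarith) (by linarith)) l hl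
      show L l (w + co * u) (w + co * u) + Λ * u ≤ 1
      linarith [abs_nonneg (w - t)]⟩)
    (fun v hv _ _ => by
      have h1 := rec_sl R (l := k + 1) (by omega) hwn (hGn v hv)
      rw [hSs] at h1
      show |L (k + 1) v v - L (k + 1) w w - s * (v - w)| ≤ φ
      linarith)
    (fun v hv v' hv' _ hvv _ => by
      have h1 := abs_le.1 (rec_sl R (l := k) (by omega) (hGn v hv) (hGn v' hv'))
      have h2 : s * (v' - v) ≤ Sl k * (v' - v) := mul_le_mul_of_nonneg_right hsk (by linarith)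
      show s * (v' - v) ≤ L k v' v' - L k v v + φ
      linarith [h1.1])
    (fun i _ => by
      show L i (w - cb * u) (w - cb * u) - 1 / 8 / 20 * (1 / 2) ^ kk ≤
        L i (w - cb * u) (w - cb * u) - φ
      linarith)
    (fun Pd w₁ x' h1 h2 _ h3 h4 h5 h6 => by
      refine fri_of (σ := 1 / 8) (κ := κ') (g := x₀) (G := G) (C := Cf) (k := kk) (q := u)
        (by push_cast; norm_num) rfl (hFa.free (by
          show k < k + 2
          omega) (fun l hl => hκ l hl) (by norm_num)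
          (by norm_num) (by exact_mod_cast hκ0) kk hkk0) ⟨fun i => ?_, fun i => ?_, fun l i hli => ?_⟩
        ?_ ?_ ?_ h3 ?_ ?_
      · have a1 := (h5 i).1
        have a2 := abs_le.1 (hx0l i i.2)
        show L i x₀ x₀ - x₀ ≤ Pd i
        change L i w w - w + u ≤ Pd i at a1
        linarith [a2.1, a2.2]
      · have a1 := (h5 i).2
        have a2 := abs_le.1 (hx0l i i.2)
        show (Pd i : ℝ) ≤ L i x₀ x₀ - x₀ + Cf * (1 / 2) ^ kk
        change (Pd i : ℝ) ≤ L i w w - w + Λ * u at a1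
        linarith [a2.1, a2.2]
      · have a1 := h6 l i hli
        have a2 := abs_le.1 (hx0l i i.2)
        have a3 := abs_le.1 (hx0l l l.2)
        show (Pd i : ℝ) - (L i x₀ x₀ - x₀) + 2 * ((1 / 8 : ℚ) : ℝ) * (1 / 2) ^ kk ≤
          Pd l - (L l x₀ x₀ - x₀)
        change (Pd i : ℝ) - (L i w w - w) + u / 2 ≤ Pd l - (L l w w - w) at a1
        push_cast
        linarith [a2.1, a2.2, a3.1, a3.2]
      · have := hG 0 (by omega)
        rwa [hgr0] at this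
      · linarith
      · unfold lagG
        have a1 : ((Cf : ℝ) + 7 * k + 13) * (1 / 2) ^ kk ≤ cb * u := by
          rw [hcbR]
          exact mul_le_mul_of_nonneg_left hkk2 (by positivity)
        linarith
      · unfold lstG
        have a2 : (2 * (Cf : ℝ) + 7 * k + 12) * (1 / 2) ^ kk = 2 * (Cf * (1 / 2) ^ kk) +
          7 * (k * (1 / 2) ^ kk) + 12 * (1 / 2) ^ kk := by ring
        rw [a2]
        linarith
      · exact mul_le_mul (hκφ.trans hφa) hkk2 (by positivity) hφ₁.le)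
    (fun w₁ _ _ => by
      obtain ⟨η, hη⟩ := hFa.rn
      exact ⟨η w₁, hη w₁⟩)
    (Dr := Dr) (N := Nw) (M := M) (C₀ := C₀) (a := a) (Eb := Ew) (ηm := ηm) (ow := ow) (η := η)
    (σ := σ) (lv := lv) (fb := ix) (f := fun j => ix (cb * M₀ + j)) (nb := cb * M₀)
    (n := M₀) (ks := ⌊(M₀ : ℝ) / s⌋₊) hDr
    { n1 := hM
      ksn := hks.1
      fbN := fun j hj => (hix j (by omega)).1
      fN := fun j hj => (hix (cb * M₀ + j) (by omega)).1
      f0 := rfl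
      ob := (hix 0 (by omega)).2.trans hgr0
      o0 := (hix (cb * M₀) (by omega)).2.trans hmid
      oks := by
        show ow (ix (cb * M₀ + ⌊(M₀ : ℝ) / s⌋₊)) ≤ ow (ix (cb * M₀ + M₀))
        have h1 := hks.1
        rw [(hix _ (by omega)).2, (hix _ (by omega)).2]
        exact grV_mono hu.le (by omega)
      kse := by
        show |ow (ix (cb * M₀ + ⌊(M₀ : ℝ) / s⌋₊)) - (w + u / s)| ≤ φ
        have h1 := hks.1
        rw [(hix _ (by omega)).2]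
        exact hks.2
      ne := by
        show |ow (ix (cb * M₀ + M₀)) - (w + u)| ≤ φ
        rw [(hix _ le_rfl).2, hgr1, sub_self, abs_zero]
        exact hφp.le
      gb := fun j hj => by
        rw [(hix j (by omega)).2]
        exact grS_mem (ix_lt hco1 (by omega))
      gf := fun j hj => by
        show ow (ix (cb * M₀ + j)) ∈ _
        rw [(hix (cb * M₀ + j) (by omega)).2]
        exact grS_mem (ix_lt hco1 (by omega))
      stb := fun j hj => by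
        rw [(hix j (by omega)).2, (hix (j + 1) (by omega)).2]
        exact hstep j
      stf := fun j hj => by
        show ow (ix (cb * M₀ + j)) ≤ ow (ix (cb * M₀ + (j + 1))) ∧
          ow (ix (cb * M₀ + (j + 1))) ≤ ow (ix (cb * M₀ + j)) + φ
        rw [(hix (cb * M₀ + j) (by omega)).2, (hix (cb * M₀ + (j + 1)) (by omega)).2]
        exact hstep (cb * M₀ + j)
      stk := fun j hj => by
        show L k (ow (ix (cb * M₀ + (j + 1)))) (ow (ix (cb * M₀ + (j + 1)))) ≤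
          L k (ow (ix (cb * M₀ + j))) (ow (ix (cb * M₀ + j))) + φ
        rw [(hix (cb * M₀ + j) (by omega)).2, (hix (cb * M₀ + (j + 1)) (by omega)).2]
        have h1 := abs_le.1 (rec_sl R (l := k) (by omega)
          (hGn _ (grS_mem (ix_lt hco1 (show cb * M₀ + j ≤ cb * M₀ + M₀ by omega))))
          (hGn _ (grS_mem (ix_lt hco1 (show cb * M₀ + (j + 1) ≤ cb * M₀ + M₀ by omega)))))
        have e1 : grV M₀ cb w u (cb * M₀ + (j + 1)) - grV M₀ cb w u (cb * M₀ + j) = u / M₀ := by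
          have := grV_step (M₀ := M₀) (cb := cb) w u (cb * M₀ + j)
          rw [show cb * M₀ + (j + 1) = cb * M₀ + j + 1 by omega, this]
          ring
        rw [e1] at h1
        linarith [h1.2]
      lve := fun i hi l hl => hlv i hi l hl
      Cη := hCη
      Ebu := fun l hl => by
        have h1 := hroom w hwn l hl
        show Ew + L l w w + Λ * u ≤ 1
        linarith [abs_nonneg (w - t)] }
    (Θ := Θ) (p := p) hΘs hΘl hp hrow (by
      show LowN S Θ c k (c (k + 1)) w (ow (ix (cb * M₀ + ⌊(M₀ : ℝ) / s⌋₊))) _ _ _ ρ (δ₀ * u)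
      have h1 := hks.1
      rw [(hix _ (by omega)).2]
      exact hlow) hdj (by
      show CodU S c k D D' Dr Nw M C₀ a Ew ηm ow η σ lv (ix 0) (ix (cb * M₀)) (w - cb * u) w 1 Θ 0
        (fun l' j' => L l' w w + u + 400 * ((k : ℝ) + 2) * φ - (j' : ℝ) * w)
        (ow (ix (cb * M₀ + M₀))) (L (k + 1) w w + u) (δ₀ * u)
      rw [(hix _ le_rfl).2, hgr1]
      exact hjt)
  refine Bas.mono 0 hout ?_
  intro J _ F A h1 bb κ₁ z g₁ Gc H hκ₁ hW hZ V₁ y y' g₂ hg₂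
  obtain ⟨B, hB1, hB2, hB3⟩ := h1 hκ₁ hW hZ V₁ y y' g₂ hg₂
  refine ⟨B, hB1, hB2, hB3.tie fun ht v hv v' hv' _ hvv _ => ?_⟩
  have h2 := abs_le.1 (rec_sl R (l := k) (by omega) (hGn v hv) (hGn v' hv'))
  rw [ht] at h2
  show L k v' v' - L k v v ≤ s * (v' - v) + φ
  linarith [h2.2]

end Pool.V0B19
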