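import Pool.Agent.H19.V0B.Rec

/-!
# The class theorem of a counted target for the natural labels of a list of windows

`v0b_alm`: `v0b_rec` for the natural labels of the window `vv i` of a list of windows, over the family
`Ψ` of `AlM`; the rows, the number and the precision are those of `AlM`.
-/

set_option autoImplicit false

namespace Pool.V0B19

open Finset Real MvPolynomial
open Pool.Agent.H49.Ent Pool.Agent.H32.Dense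
open Pool.STK hiding pr2
open Pool.KA Pool.KSAT Pool.K2S Pool.PB Pool.S6C
open Pool.GEN Pool.CHT Pool.CHX Pool.ISO Pool.LA91 Pool.AVG71 Pool.AVG5 Pool.D2F2 Pool.AVG57
open Pool.RCD Pool.AVG96 Pool.OWN68 Pool.V0F Pool.PKG
open Pool.V0R (LadR)
open Pool.D2R (WinB)
open Pool.ALT (Fml NzF)
open Pool.V0N (RowN LowN AlM)

/-- The degree of the natural labels. -/
def nzD (D : ℕ) : ℕ := max D D * max 1 D

theorem le_nzD (D : ℕ) : D ≤ nzD D := by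
  unfold nzD
  rw [max_self]
  exact Nat.le_mul_of_pos_right _ (by simp)

/-- **The class theorem of a counted target** for the natural labels of the window `vv i`. -/
theorem v0b_alm (D k : ℕ) (s h κ₂ : ℝ) (hD : 1 ≤ D) (hk : 1 ≤ k) (hs : 1 < s)
    (hh : 0 < h) (hh1 : h ≤ 1) (hκ₂ : 0 < κ₂) (hκh : κ₂ < (s - 1) / s * h) :
    ∃ δ₀ T₀ : ℝ, 0 < δ₀ ∧ ∀ T : ℝ, T₀ ≤ T → ∃ Λ : ℝ, 1 ≤ Λ ∧ ∀ ι : ℝ, 0 < ι →
    ∃ φ₀ : ℝ, 0 < φ₀ ∧ φ₀ ≤ 1 / 400 ∧ 2 * φ₀ ≤ δ₀ ∧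
    ∀ {S : PCl (k + 2)} {al : ℝ} {g₀ : ℝ → ℝ}
      {P : List (Fin (k + 2)) × Fin (k + 2) → ℝ → ℝ → ℝ}
      {θ : ℝ} {P₂ : ℕ → List (Fin (k + 2)) × Fin (k + 2) → ℝ → ℝ → ℝ} {θ₂ Eb e₂ : ℕ → ℝ}
      {c : ℕ → Fin (k + 2)} {Pt : ℝ → ℝ → ℝ} {rt : ℝ → ℝ} {hr K₀ g : ℝ} {L Tt : ℕ → ℝ → ℝ → ℝ}
      {Sl : ℕ → ℝ} {κ : ℕ → Kg} {G : Set ℝ} {S₀ N : ℕ} {A V : ℕ → ℝ} {S₂ N' : ℕ} {V' : ℕ → ℝ}
      {K ε q t : ℝ}
      (_ : RecG S al g₀ P θ P₂ θ₂ Eb e₂ c Pt rt hr K₀ g L Tt Sl κ G S₀ N A V S₂ N' V' K ε q t)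
      (_ : 0 < ε) (_ : ∀ l < k, Sl l = 1) (_ : ∀ l < k, κ l = .one) (_ : Sl (k + 1) = s)
      (_ : s ≤ Sl k)
      -- the windows of the grid
      {M₀ cb co Cf : ℕ} {w u φ : ℝ} (_ : 1 ≤ M₀) (_ : 0 < u) (_ : φ ≤ φ₀ * u)
      (_ : ∀ j < (cb + co) * M₀ + 1, grV M₀ cb w u j ∈ G)
      (_ : |w - t| + (cb + co + Λ + 1) * u ≤ K * q) (_ : 4 * (ε * q) ≤ φ)
      (_ : 3 * ((1 + Sl k + Sl (k + 1)) * (u / M₀)) ≤ φ)
      (_ : 2 * Λ + 7 * k + 15 ≤ Cf) (_ : cb = Cf + 7 * k + 13) (_ : Λ + 1 ≤ co)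
      -- the free velocities
      {κ' : ℚ} {k₀ : ℕ} {x₀ : ℝ} (_ : (0 : ℝ) < κ') (_ : (κ' : ℝ) ≤ φ₀)
      (_ : FaQ (k, Cf, 1 / 8, κ') k₀ S P θ c Pt rt L Tt κ G x₀) (_ : u < (1 / 2) ^ k₀)
      (_ : w - (Cf + (7 * k + 12) / 2 - Λ) * u ≤ x₀) (_ : x₀ ≤ w - (Cf / 2 + 7 * k + 13) * u)
      -- the labels of the windows
      (_ : ∀ j < (cb + co) * M₀ + 1, ∃ rk E : ℝ, 0 ≤ rk ∧ rk < 1 ∧ 0 ≤ E ∧
        E + L (k + 1) (grV M₀ cb w u j) (grV M₀ cb w u j) < 1 ∧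
        LbU S ((range (k + 1)).image c) (c (k + 1)) (grV M₀ cb w u j)
          (L (k + 1) (grV M₀ cb w u j) (grV M₀ cb w u j)) rk E)
      -- the family of labels
      {n : ℕ} {vv : ℕ → ℝ} {R h' δ δ' lam gg ℓ μ ρ : ℝ} {Ψ : Fml (k + 2)} {wΨ : ℝ}
      {p₁ p₂ eN uN pN : ℕ → ℝ} {i : ℕ}
      (_ : AlM S c L D n vv s R h' δ δ' lam gg ℓ μ ρ q t Ψ wΨ p₁ p₂ eN uN pN)
      (_ : i < n) (_ : vv i = w) (_ : 0 ≤ ρ) (_ : ρ ≤ (1 - h) * Real.log 2)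
      (_ : δ * lam * q ≤ 2 * φ) (_ : 2 * (δ' * q) ≤ δ₀ * u) (_ : 6 * u ≤ μ)
      (_ : s * (w - t) + 3 * u + gg * q + ε * q ≤ s * (R * q)) (_ : |w - t| + u ≤ R * q)
      -- the windows of the charts
      {Dr Nw M : ℕ} {C₀ a Ew ηm : ℝ} {ow η σ : ℕ → ℝ} {lv : ℕ → ℕ → ℝ} {ix : ℕ → ℕ}
      (_ : nzD D ≤ Dr) (_ : ∀ j ≤ cb * M₀ + M₀, ix j ≤ Nw ∧ ow (ix j) = grV M₀ cb w u j)
      (_ : ∀ i ≤ Nw, ∀ l ≤ k + 1, lv i l = L l (ow i) (ow i)) (_ : 4 * (C₀ * ηm) ≤ φ)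
      (_ : Ew ≤ Eb (k + 1))
      -- the codes of the target
      (_ : CodU S c k D (nzD D) Dr Nw M C₀ a Ew ηm ow η σ lv (ix 0) (ix (cb * M₀)) (w - cb * u) w
        1 (NzF Ψ c k (c (k + 1)) D D D wΨ w (p₁ i) (p₂ i) (eN i) (uN i) (pN i)) 1
        (fun l' j' => L l' w w + T * u - (j' : ℝ) * w) w
        (L (k + 1) w w + (1 + (s - 1) / s) * u) (δ₀ * u))
      (_ : CodU S c k D (nzD D) Dr Nw M C₀ a Ew ηm ow η σ lv (ix 0) (ix (cb * M₀)) (w - cb * u) w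
        1 (NzF Ψ c k (c (k + 1)) D D D wΨ w (p₁ i) (p₂ i) (eN i) (uN i) (pN i)) 0
        (fun l' j' => L l' w w + u + 400 * ((k : ℝ) + 2) * φ - (j' : ℝ) * w) (w + u)
        (L (k + 1) w w + u) (δ₀ * u)),
      Bas S (fun J F A => ∀ {bb : ℕ → ℕ → ℝ} {κ : ℝ} {z : ℕ → ℕ → ℕ}
        {g₀ : ℕ → ℕ → ℕ} {Gc : ℕ → PtT F → ℕ → MvPolynomial (Option (Fin (k + 2))) ℝ}
        {H : ℕ → LnT F → ℕ → MvPolynomial (Option (Fin (k + 2))) ℝ}, κ ≤ 1 →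
        WinB F c (k + 1) D Dr Nw M C₀ a Ew ηm ow η σ lv bb κ z A g₀ Gc H →
        V0Z J M u ow ix (fun j => ix (cb * M₀ + j)) (cb * M₀) M₀ z →
        ∀ (V : Type) (y : PtT F → V) (y' : LnT F → V)
        (g : V → MvPolynomial (Option (Fin (k + 2))) ℝ),
        NzF Ψ c k (c (k + 1)) D D D wΨ w (p₁ i) (p₂ i) (eN i) (uN i) (pN i) J F A V y y' g →
        ∃ B : F.Ω → Prop, Sub B A ∧ Pe F.p A ≤ 8 * Pe F.p B ∧
          V0E F c k (nzD D) s κ₂ ι φ w u (Sl k = s) (ix 0) (ix (cb * M₀)) (ix (cb * M₀ + M₀)) g₀ Gc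
            (fun x => g (y x)) B) := by
  obtain ⟨δ₀, T₀, hδ₀, hV⟩ := v0b_rec D (nzD D) k s h κ₂ hD (le_nzD D) hk hs hh hh1 hκ₂ hκh
  refine ⟨δ₀, T₀, hδ₀, fun T hT => ?_⟩
  obtain ⟨Λ, hΛ, hV⟩ := hV T hT
  refine ⟨Λ, hΛ, fun ι hι => ?_⟩
  obtain ⟨φ₀, hφ0, hφb, hφδ, hV⟩ := hV ι hι
  refine ⟨φ₀, hφ0, hφb, hφδ, ?_⟩
  intro S al g₀ P θ P₂ θ₂ Eb e₂ c Pt rt hr K₀ g L Tt Sl κ G S₀ N A V S₂ N' V' K ε q t Rc hε hSl hκ
    hSs hsk M₀ cb co Cf w u φ hM hu hφ hG hK hεφ hMφ hCf hcb hco κ' k₀ x₀ hκ0 hκφ hFa huk hx1 hx2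
    hlab n vv R h' δ δ' lam gg ℓ μ ρ Ψ wΨ p₁ p₂ eN uN pN i HA hi hvw hρ0 hρ hδl hδ' hμ hR hRw
    Dr Nw M C₀ a Ew ηm ow η σ lv ix hDr hix hlv hCη hEw hdj hjt
  have hq := Rc.q0
  have hM0 : (0 : ℝ) < M₀ := by exact_mod_cast hM
  have hΛ0 : 0 < Λ := by linarith
  have hcb0 : (0 : ℝ) ≤ cb := Nat.cast_nonneg _
  have hco0 : (0 : ℝ) ≤ co := Nat.cast_nonneg _
  have hwt := abs_le.1 (le_refl |w - t|)
  have hcbu : 0 ≤ cb * u := by positivity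
  have hcou : 0 ≤ co * u := by positivity
  have hΛu : 0 < Λ * u := by positivity
  have hKe : (cb + co + Λ + 1) * u = cb * u + co * u + Λ * u + u := by ring
  have hK' := hK
  rw [hKe] at hK'
  have hwn : |w - t| ≤ K * q := by linarith
  have hs0 : 0 < s := by linarith
  have hlog2 : Real.log 2 ≤ 1 := by
    have := Real.log_le_sub_one_of_pos (show (0 : ℝ) < 2 by norm_num)
    linarith
  have hlog0 : 0 < Real.log 2 := Real.log_pos one_lt_two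
  have hρ1 : ρ ≤ 1 := by
    have h1 : (1 - h) * Real.log 2 ≤ 1 * Real.log 2 :=
      mul_le_mul_of_nonneg_right (by linarith) hlog0.le
    linarith
  have huM : 0 < u / M₀ := by positivity
  have hks := grV_ks (cb := cb) (w := w) (φ := u / M₀) hM hs hu le_rfl
  obtain ⟨j, hj⟩ : ∃ j : ℝ, j = grV M₀ cb w u (cb * M₀ + ⌊(M₀ : ℝ) / s⌋₊) := ⟨_, rfl⟩
  have hmid : grV M₀ cb w u (cb * M₀) = w := grV_mid hM w u
  have hgr1 : grV M₀ cb w u (cb * M₀ + M₀) = w + u := grV_one hM _ _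
  have hj0 : w ≤ j := by
    have h1 := grV_mono (M₀ := M₀) (cb := cb) (w := w) hu.le
      (show cb * M₀ ≤ cb * M₀ + ⌊(M₀ : ℝ) / s⌋₊ by omega)
    rw [hmid] at h1
    rw [hj]
    exact h1
  have hj1 : j ≤ w + u := by
    rw [hj, ← hgr1]
    have := hks.1
    exact grV_mono hu.le (by omega)
  have hjt' : |j - t| ≤ R * q := by
    rw [abs_le]
    constructor <;> linarith [hwt.1, hwt.2]
  have hjK : |j - t| ≤ K * q := by
    rw [abs_le]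
    constructor <;> linarith [hwt.1, hwt.2]
  have hjs : |j - (w + u / s)| ≤ u / M₀ := by
    rw [hj]
    exact hks.2
  have hdLw := abs_le.1 (Rc.dL (k + 1) (by omega) w hwn)
  rw [hSs] at hdLw
  have hdLj := abs_le.1 (rec_sl Rc (l := k + 1) (by omega) hwn hjK)
  rw [hSs] at hdLj
  have hsum : 3 * (u / M₀ + Sl k * (u / M₀) + s * (u / M₀)) ≤ φ := by
    have e1 : (1 + Sl k + Sl (k + 1)) * (u / M₀) = u / M₀ + Sl k * (u / M₀) +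
        s * (u / M₀) := by rw [hSs]; ring
    rwa [e1] at hMφ
  have hskM : 0 < Sl k * (u / M₀) := by
    have : 0 < Sl k := by linarith
    positivity
  have hsj : s * (j - w) ≤ u + s * (u / M₀) := by
    have h1 := (abs_le.1 hjs).2
    have h2 : s * (j - w) ≤ s * (u / s + u / M₀) := mul_le_mul_of_nonneg_left (by linarith) hs0.le
    have h3 : s * (u / s + u / M₀) = u + s * (u / M₀) := by
      field_simp
    linarith
  have hφδ' : 2 * φ ≤ δ₀ * u := by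
    have h1 := mul_le_mul_of_nonneg_right hφδ hu.le
    linarith
  have hhi : L (k + 1) w w + 3 * u + gg * q ≤ L (k + 1) t t + s * (R * q) := by
    linarith [hdLw.2]
  have hrow := HA.row i hi (L (k + 1) w w + u) (L (k + 1) w w + 3 * u) (by rw [hvw]; linarith)
    (by linarith) (by rw [hvw]; linarith) hhi
  have hlow := HA.low i hi j (L (k + 1) w w + u) (L (k + 1) w w + 3 * u) (by rw [hvw]; exact hj0)
    hjt' (by linarith) (by rw [hvw]; linarith) hhi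
  rw [hvw] at hrow hlow
  have hpN := HA.pN1 i hi
  rw [hvw] at hpN
  refine hV Rc hε hSl hκ hSs hsk hM hu hφ hG hK hεφ hMφ hCf hcb hco hκ0 hκφ hFa huk hx1 hx2
    hlab (Θ := NzF Ψ c k (c (k + 1)) D D D wΨ w (p₁ i) (p₂ i) (eN i) (uN i) (pN i)) (p := pN i)
    (ρ := ρ) hρ0 hρ (fun J F A B V z z' g hB hA => NzF.hs HA.hs J F A B V z z' g hB hA)
    (fun J F A V z z' g hA => Pool.GRD.LbP.of (NzF.lb hA)) (by linarith)
    (RowN.mono hrow (by linarith)) ?_ hDr hix hlv hCη hEw hdj hjt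
  rw [hj] at hlow
  refine LowN.shift hlow ?_
  rw [← hj]
  have h1 : L (k + 1) j j - (L (k + 1) w w + u) ≤ φ := by linarith [hdLj.2]
  have h2 : ρ * (L (k + 1) j j - (L (k + 1) w w + u)) ≤ φ := by
    rcases le_or_gt 0 (L (k + 1) j j - (L (k + 1) w w + u)) with h3 | h3
    · calc ρ * (L (k + 1) j j - (L (k + 1) w w + u)) ≤
          1 * (L (k + 1) j j - (L (k + 1) w w + u)) := mul_le_mul_of_nonneg_right hρ1 h3
        _ ≤ φ := by linarith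
    · have h5 : 0 < ε * q := mul_pos hε hq
      have h6 : ρ * (L (k + 1) j j - (L (k + 1) w w + u)) ≤ 0 :=
        mul_nonpos_of_nonneg_of_nonpos hρ0 h3.le
      linarith
  linarith

end Pool.V0B19
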