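import Pool.Agent.H19.V0B.Num
import Pool.Agent.H5.V0P.Grd
import Pool.Agent.H5.V0P.Cel
import Pool.Agent.H64.GF.Gfr

/-!
# A counted target over a follower: the gradients on one event

`grdB`: the gradients; `celB`: the base coordinates of two samples of one cell.
-/

set_option autoImplicit false

namespace Pool.V0B19

open Finset Real MvPolynomial
open Pool.Agent.H49.Ent Pool.Agent.H32.Dense
open Pool.STK hiding pr2
open Pool.KA Pool.KSAT Pool.K2S Pool.PB Pool.S6C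
open Pool.GEN Pool.CHT Pool.CHX Pool.ISO Pool.LA91 Pool.AVG71 Pool.AVG5 Pool.D2F2 Pool.AVG57
open Pool.RCD Pool.AVG96 Pool.OWN68 Pool.V0F
open Pool.AJW (CfB)
open Pool.D2R (WinB gnh hgt winb_cell)
open Pool.LV64 (GrdV NrH)
open Pool.V0Q

set_option maxHeartbeats 8000000 in
/-- **The gradients on one event.** -/
theorem grdB (D D' k : ℕ) : ∃ Cg : ℕ, 1 ≤ Cg ∧
    ∀ {s : ℝ} {sn : ℕ → ℝ → ℝ} {Gs : Set ℝ} {b o φ w u y ξ T Λ : ℝ} {w₁ : ℚ} {xr x' : ℝ}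
    {m J : ℕ} {F : Fam m J}
    {c : ℕ → Fin m} {Dr N M : ℕ} {C₀ a Eb ηm : ℝ} {ow η σ : ℕ → ℝ} {lv bb : ℕ → ℕ → ℝ} {κ : ℝ}
    {z : ℕ → ℕ → ℕ} {A : F.Ω → Prop} {g₀ : ℕ → ℕ → ℕ}
    {G : ℕ → PtT F → ℕ → MvPolynomial (Option (Fin m)) ℝ}
    {H : ℕ → LnT F → ℕ → MvPolynomial (Option (Fin m)) ℝ} {fb f : ℕ → ℕ} {nb n ks : ℕ}
    {GN : PtT F → MvPolynomial (Option (Fin m)) ℝ} {κN : F.Ω → ℝ},
    WinB F c (k + 1) D Dr N M C₀ a Eb ηm ow η σ lv bb κ z A g₀ G H →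
    NB k s sn Gs b o φ w u y ξ T Λ w₁ (ow (f ks)) (ow (f n)) xr x' →
    Set.InjOn c (Set.Iio (k + 2)) → 1 ≤ n → ks ≤ n → (∀ t ≤ nb, fb t ≤ N) →
    (∀ t ≤ n, f t ≤ N) → f 0 = fb nb → ow (fb 0) = b → ow (f 0) = w →
    (∀ t ≤ nb, ow (fb t) ∈ Gs) → (∀ t ≤ n, ow (f t) ∈ Gs) →
    (∀ t < nb, ow (fb t) ≤ ow (fb (t + 1)) ∧ ow (fb (t + 1)) ≤ ow (fb t) + φ) →
    (∀ t < n, ow (f t) ≤ ow (f (t + 1)) ∧ ow (f (t + 1)) ≤ ow (f t) + φ) →
    (∀ t < n, sn k (ow (f (t + 1))) ≤ sn k (ow (f t)) + φ) →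
    (∀ t ≤ N, ∀ l ≤ k + 1, lv t l = sn l (ow t)) → C₀ * ηm ≤ φ →
    (∀ t < nb, ∃ j ≤ M, z (fb t) j = ⌊ow (fb (t + 1)) * J⌋₊ - ⌊ow (fb t) * J⌋₊) →
    (∀ t < n, ∃ j ≤ M, z (f t) j = ⌊ow (f (t + 1)) * J⌋₊ - ⌊ow (f t) * J⌋₊) →
    10 ≤ φ * J → (nb : ℝ) ≤ φ * J → (n : ℝ) ≤ φ * J →
    (∀ y, (GN y).totalDegree ≤ D') → (∀ y, DepC c (k + 1) (GN y)) →
    (∀ ω, A ω → ∀ x, NBx c (G (f 0) (ptr F J ω)) (g₀ (f 0)) ⌊ow (f 0) * J⌋₊ (F.t ω)
      (k + 1) x → |eval x (GN (ptr F J ω)) + κN ω - eval x (G (f 0) (ptr F J ω) (k + 1))| ≤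
        2 ^ (φ * J) / 2 ^ g₀ (f 0) (k + 1)) →
    GrdV F c (fun j : Fin k => (j : ℕ)) (fun _ : Fin 1 => k + 1)
      (fun _ => ⌊(u + 500 * y) * J⌋₊) (fun _ => ⌊ξ * u * J⌋₊) ⌊(u + 500 * y) * J⌋₊ ⌊ξ * u * J⌋₊
      (g₀ (f 0)) (2 ^ (Cg * (⌈1000 * y * J⌉₊ + 3))) A (frP G GN (fb 0) (f 0) k)
      (fun ω _ => fun j : Fin k =>
        gnh F c (k + 1) (g₀ (f 0)) (folN G GN (fb 0) (f n) k (k + 1)) (G (f n)) ω j)
      (fun _ => ()) (chP F k ks G GN (fb 0) (f 0) f) (chP F k n G GN (fb 0) (f 0) f) ∧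
    (∀ ω, A ω → ∀ i < k, |gnh F c (k + 1) (g₀ (f 0)) (folN G GN (fb 0) (f n) k (k + 1))
      (G (f n)) ω i| ≤ 2 ^ (Cg * (⌈1000 * y * J⌉₊ + 3))) ∧
    ((∀ v ∈ Gs, ∀ v' ∈ Gs, b ≤ v → v ≤ v' → v' ≤ o → sn k v' - sn k v ≤ s * (v' - v) + φ) →
      ∀ ω, A ω → |gnh F c (k + 1) (g₀ (f 0)) (folN G GN (fb 0) (f n) k (k + 1))
        (G (f n)) ω k| ≤ 2 ^ (Cg * (⌈1000 * y * J⌉₊ + 3))) := by
  have hG : GfrW := fun D D' r => Pool.GF64.gfr D D' r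
  obtain ⟨C₂, hC₂, H2⟩ := hG D D' (k + 1)
  refine ⟨C₂, hC₂, ?_⟩
  intro s sn Gs b o φ w u y ξ T Λ w₁ xr x' m J F c Dr N M C₀ a Eb ηm ow η σ
    lv bb κ z A g₀ G H fb f nb n ks GN κN W Nn hinj hn hks hfb hf hf0 hob how gfb gf stb st stk
    hlv hC zb zf big hnb hn' hdG hdP hnear
  obtain ⟨b1, b2, b3, b4, b5, b6, b7, b8, b9, b10, b11, b12, b13, b14, b15, b16⟩ := Nn.wb
  obtain ⟨h1, h2, h3, h4, h5, h6⟩ := Nn.sm
  obtain ⟨c1, c2, c3, c4⟩ := Nn.sw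
  obtain ⟨r1', r2', r3', d1, d2⟩ := Nn.rm
  have hJ : (0 : ℝ) ≤ J := Nat.cast_nonneg J
  have hs := Nn.s1
  have hu := Nn.gw.u0
  have hy0 := Nn.y0
  have hx := abs_le.1 Nn.gw.hx
  have hj := abs_le.1 Nn.hj
  have hyu := Nn.yu
  have hyξ := Nn.yξ
  have hus := Nn.us
  obtain ⟨Y, hY⟩ : ∃ Y : ℕ, Y = ⌈1000 * y * (J : ℝ)⌉₊ + 3 := ⟨_, rfl⟩
  have hY1 : 1000 * y * (J : ℝ) + 3 ≤ Y := by
    rw [hY]
    push_cast
    have := Nat.le_ceil (1000 * y * (J : ℝ))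
    linarith
  have mj : ∀ {a a' : ℝ}, a ≤ a' → a * J ≤ a' * J := fun h => mul_le_mul_of_nonneg_right h hJ
  have yJ : 10 ≤ y * J := by
    have := mj (show φ ≤ y by linarith)
    linarith
  have hφY : 1000 * (φ * J) ≤ Y := by
    have := mj (show φ ≤ y by linarith)
    linarith
  have hsY : 1000 * (s * φ * J) ≤ Y := by
    have := mj (show s * φ ≤ y by linarith)
    linarith
  -- monotone windows
  have mb := mono_ch fun t ht => (stb t ht).1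
  have mf := mono_ch fun t ht => (st t ht).1
  have rb : ∀ t ≤ nb, b ≤ ow (fb t) ∧ ow (fb t) ≤ w := by
    intro t ht
    have e1 := mb 0 t (Nat.zero_le _) ht
    have e2 := mb t nb ht le_rfl
    rw [hob] at e1
    rw [← hf0, how] at e2
    exact ⟨e1, e2⟩
  have rf : ∀ t ≤ n, w ≤ ow (f t) ∧ ow (f t) ≤ ow (f n) := by
    intro t ht
    have e1 := mf 0 t (Nat.zero_le _) ht
    have e2 := mf t n ht le_rfl
    rw [how] at e1
    exact ⟨e1, e2⟩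
  have hq1 : (u + 500 * y) * J - 1 ≤ (⌊(u + 500 * y) * J⌋₊ : ℝ) := by
    have := Nat.lt_floor_add_one ((u + 500 * y) * (J : ℝ))
    linarith
  have hq2 : (⌊(u + 500 * y) * J⌋₊ : ℝ) ≤ (u + 500 * y) * J :=
    Nat.floor_le (mul_nonneg (by linarith) hJ)
  have hX2 : (⌊ξ * u * J⌋₊ : ℝ) ≤ ξ * u * J := Nat.floor_le (mul_nonneg d1.le hJ)
  choose! jb hjb using zb
  choose! jj hjj using zf
  -- the common facts
  have A1 : ∀ t < nb, jb t ≤ M ∧ z (fb t) (jb t) = ⌊ow (fb (t + 1)) * J⌋₊ - ⌊ow (fb t) * J⌋₊ ∧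
      ow (fb t) ≤ ow (fb (t + 1)) := fun t ht => ⟨(hjb t ht).1, (hjb t ht).2, (stb t ht).1⟩
  have A2 : (nb : ℝ) ≤ 2 ^ Y := le_two_pow hnb (by linarith)
  have A3 : ∀ t ≤ nb, ∀ l < k, (lv (fb t) l - ow (fb t) - (lv (fb nb) l - ow (fb nb))) * J ≤ Y ∧
      (lv (fb nb) l - ow (fb nb) - (lv (fb t) l - ow (fb t))) * J ≤ Y := by
    intro t ht l hl
    obtain ⟨r1, r2⟩ := rb t ht
    have e0 : ow (fb nb) = w := by rw [← hf0, how]
    rw [hlv _ (hfb t ht) l (by omega), hlv _ (hfb nb le_rfl) l (by omega), e0]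
    have e1 := abs_le.1 (Nn.sl l hl _ (gfb t ht) r1 (r2.trans b2))
    have e2 := mj e1.1
    have e3 := mj e1.2
    constructor <;> linarith
  have A4 : ∀ t < n, jj t ≤ M ∧ z (f t) (jj t) = ⌊ow (f (t + 1)) * J⌋₊ - ⌊ow (f t) * J⌋₊ ∧
      ow (f t) ≤ ow (f (t + 1)) := fun t ht => ⟨(hjj t ht).1, (hjj t ht).2, (st t ht).1⟩
  have A5 : C₀ * (ηm * J) ≤ Y := by
    have e1 := mj hC
    have e2 : C₀ * (ηm * J) = C₀ * ηm * J := by ring
    rw [e2]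
    linarith
  have A6 : 3 ≤ Y := by
    rw [hY]
    omega
  have A7 : (n : ℝ) ≤ 2 ^ Y := le_two_pow hn' (by linarith)
  have A8 : ∀ t < n, ∀ l ≤ k + 1, (lv (f (t + 1)) l - lv (f t) l) * J ≤ Y ∧
      (lv (f t) l - lv (f (t + 1)) l) * J ≤ Y := by
    intro t ht l hl
    obtain ⟨r1, r2⟩ := rf t ht.le
    obtain ⟨r3, r4⟩ := rf (t + 1) (by omega)
    obtain ⟨r5, r6⟩ := st t ht
    rw [hlv _ (hf t ht.le) l hl, hlv _ (hf (t + 1) (by omega)) l hl]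
    rcases Nat.lt_or_ge l k with h | h
    · have e1 := abs_le.1 (Nn.sl l h _ (gf t ht.le) (b1.trans r1) (r2.trans b5))
      have e2 := abs_le.1 (Nn.sl l h _ (gf (t + 1) (by omega)) (b1.trans r3) (r4.trans b5))
      have e3 := mj (show sn l (ow (f (t + 1))) - sn l (ow (f t)) ≤ 5 * φ by linarith)
      have e4 := mj (show sn l (ow (f t)) - sn l (ow (f (t + 1))) ≤ 5 * φ by linarith)
      constructor <;> linarith
    · rcases Nat.lt_or_eq_of_le hl with h' | h'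
      · obtain rfl : l = k := by omega
        have e1 := stk t ht
        have e2 := Nn.sk _ (gf t ht.le) _ (gf (t + 1) (by omega)) (b1.trans r1) r5
          (r4.trans b5)
        have e5 : 0 ≤ s * (ow (f (t + 1)) - ow (f t)) := mul_nonneg (by linarith) (by linarith)
        have e3 := mj (show sn l (ow (f (t + 1))) - sn l (ow (f t)) ≤ φ by linarith)
        have e4 := mj (show sn l (ow (f t)) - sn l (ow (f (t + 1))) ≤ φ by linarith)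
        constructor <;> linarith
      · subst h'
        have e1 := abs_le.1 (Nn.st _ (gf t ht.le) (b1.trans r1) (r2.trans b5))
        have e2 := abs_le.1 (Nn.st _ (gf (t + 1) (by omega)) (b1.trans r3) (r4.trans b5))
        have e5 : s * (ow (f (t + 1)) - ow (f t)) ≤ s * φ :=
          mul_le_mul_of_nonneg_left (by linarith) (by linarith)
        have e6 : 0 ≤ s * (ow (f (t + 1)) - ow (f t)) := mul_nonneg (by linarith) (by linarith)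
        have e3 := mj (show sn (k + 1) (ow (f (t + 1))) - sn (k + 1) (ow (f t)) ≤
          s * φ + 2 * φ by linarith)
        have e4 := mj (show sn (k + 1) (ow (f t)) - sn (k + 1) (ow (f (t + 1))) ≤ 2 * φ by
          linarith)
        constructor <;> linarith
  have A9 : ∀ t < n, s * ((ow (f (t + 1)) - ow (f t)) * J) ≤ Y := by
    intro t ht
    obtain ⟨r5, r6⟩ := st t ht
    have e5 : s * (ow (f (t + 1)) - ow (f t)) ≤ s * φ :=
      mul_le_mul_of_nonneg_left (by linarith) (by linarith)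
    have e6 := mj e5
    have e7 : s * ((ow (f (t + 1)) - ow (f t)) * J) = s * (ow (f (t + 1)) - ow (f t)) * J := by
      ring
    rw [e7]
    have : 0 ≤ s * φ * J := by positivity
    linarith
  have A10 : ∀ t t', t ≤ t' → t' ≤ n → ∀ l < k,
      (lv (f t') l - lv (f t) l) * J ≤ 1 * ((ow (f t') - ow (f t)) * J) + Y := by
    intro t t' htt ht' l hl
    obtain ⟨r1, r2⟩ := rf t (htt.trans ht')
    obtain ⟨r3, r4⟩ := rf t' ht'
    rw [hlv _ (hf t (htt.trans ht')) l (by omega), hlv _ (hf t' ht') l (by omega)]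
    have e1 := abs_le.1 (Nn.sl l hl _ (gf t (htt.trans ht')) (b1.trans r1) (r2.trans b5))
    have e2 := abs_le.1 (Nn.sl l hl _ (gf t' ht') (b1.trans r3) (r4.trans b5))
    have e3 := mj (show sn l (ow (f t')) - sn l (ow (f t)) ≤
      (ow (f t') - ow (f t)) + 4 * φ by linarith)
    linarith
  have A11 : ∀ t t', t ≤ t' → t' ≤ n → ∀ l, k ≤ l → l ≤ k + 1 →
      s * ((ow (f t') - ow (f t)) * J) ≤ (lv (f t') l - lv (f t) l) * J + Y := by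
    intro t t' htt ht' l hl hl'
    obtain ⟨r1, r2⟩ := rf t (htt.trans ht')
    obtain ⟨r3, r4⟩ := rf t' ht'
    have e7 : s * ((ow (f t') - ow (f t)) * J) = s * (ow (f t') - ow (f t)) * J := by ring
    rw [hlv _ (hf t (htt.trans ht')) l (by omega), hlv _ (hf t' ht') l (by omega), e7]
    rcases Nat.lt_or_eq_of_le hl' with h' | h'
    · obtain rfl : l = k := by omega
      have e1 := mj (Nn.sk _ (gf t (htt.trans ht')) _ (gf t' ht') (b1.trans r1)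
        (mf t t' htt ht') (r4.trans b5))
      linarith
    · subst h'
      have e1 := abs_le.1 (Nn.st _ (gf t (htt.trans ht')) (b1.trans r1) (r2.trans b5))
      have e2 := abs_le.1 (Nn.st _ (gf t' ht') (b1.trans r3) (r4.trans b5))
      have e3 := mj (show s * (ow (f t') - ow (f t)) ≤
        (sn (k + 1) (ow (f t')) - sn (k + 1) (ow (f t))) + 2 * φ by linarith)
      linarith
  have A12 : 1 * ((ow (f n) - ow (f 0)) * J) + 3 ≤ (⌊(u + 500 * y) * J⌋₊ : ℝ) := by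
    rw [how]
    have e1 := mj (show ow (f n) - w + φ ≤ u + 500 * y by linarith)
    linarith
  have A13 : (⌊(u + 500 * y) * J⌋₊ : ℝ) + (⌊ξ * u * J⌋₊ : ℝ) ≤
      s * ((ow (f n) - ow (f 0)) * J) + Y := by
    rw [how]
    have e1 := mj (show (u + 500 * y) + ξ * u ≤ s * (ow (f n) - w) by linarith)
    have e7 : s * ((ow (f n) - w) * J) = s * (ow (f n) - w) * J := by ring
    rw [e7]
    have : (0 : ℝ) ≤ Y := Nat.cast_nonneg Y
    linarith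
  have A14 : ⌊ξ * u * (J : ℝ)⌋₊ ≤ ⌊(u + 500 * y) * J⌋₊ := by
    have e1 := mj (show ξ * u + y ≤ u + 500 * y by linarith)
    have e2 : (⌊ξ * u * J⌋₊ : ℝ) ≤ (⌊(u + 500 * y) * J⌋₊ : ℝ) := by linarith
    exact_mod_cast e2
  have A15 : (⌊ξ * u * J⌋₊ : ℝ) ≤ (s - 1) * ((ow (f ks) - ow (f 0)) * J) + Y := by
    rw [how]
    have e0 : (s - 1) * (ow (f ks) - w) = s * (ow (f ks) - w) - (ow (f ks) - w) := by ring
    have hξu : ξ * u = u - u / s := by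
      have hs0 : s ≠ 0 := by linarith
      have e1 : ξ = (s - 1) / s := by
        rw [eq_div_iff hs0]
        linarith [Nn.hξ]
      rw [e1]
      field_simp
    have e1 := mj (show ξ * u ≤ (s - 1) * (ow (f ks) - w) + s * φ + φ by
      rw [e0, hξu]
      linarith)
    have e7 : (s - 1) * ((ow (f ks) - w) * J) = (s - 1) * (ow (f ks) - w) * J := by ring
    rw [e7]
    linarith
  obtain ⟨g2, g3⟩ := H2 W (GN := GN) (κN := κN) (fb := fb) (jb := jb) (f := f) (jj := jj) (k := k)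
    (i := k + 1) (nb := nb) (n := n) (ks := ks) (q := ⌊(u + 500 * y) * J⌋₊)
    (X := ⌊ξ * u * J⌋₊) (Y := Y) (S := 1) (b' := s) (Nat.le_succ k) le_rfl hfb A1 A2 A3 hf0 hinj
    hn hf A4 A5 A6 A7 zero_le_one hs.le A8 A9 A10 A11 hdG hdP (fun ω hω x hx => by
      refine (hnear ω hω x hx).trans (div_le_div_of_nonneg_right ?_ (by positivity))
      rw [← Real.rpow_natCast 2 Y]
      exact Real.rpow_le_rpow_of_exponent_le (by norm_num) (by linarith)) A12 A13 A14 hks A15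
  rw [← hY]
  -- heights in the frames
  have f1 : ∀ ω, ∀ j < k, hgt F c (frP G GN (fb 0) (f 0) k) ω j =
      hgt F c (folN G GN (fb 0) (f n) k (k + 1)) ω j := fun ω j hj =>
    hgt_of (fun y => by rw [frP_lo G GN hj, folN_lo G GN hj]) ω
  have f2 : ∀ ω, hgt F c (frP G GN (fb 0) (f 0) k) ω (k + 1) =
      hgt F c (folN G GN (fb 0) (f n) k (k + 1)) ω (k + 1) := fun ω =>
    hgt_of (fun y => by rw [frP_top G GN, folN_top G GN (Nat.le_succ k)]) ω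
  have q0 : ∀ {n' : ℕ} {ω ν : F.Ω}, chP F k n' G GN (fb 0) (f 0) f ω =
      chP F k n' G GN (fb 0) (f 0) f ν → (∀ t ≤ n', ∀ l ≤ k + 1, G (f t) (ptr F J ω) l =
        G (f t) (ptr F J ν) l) ∧ GN (ptr F J ω) = GN (ptr F J ν) ∧
        ∀ l < k, G (fb 0) (ptr F J ω) l = G (fb 0) (ptr F J ν) l := by
    intro n' ω ν hh
    have e1 := Prod.ext_iff.mp hh
    refine ⟨Pool.D2R.chs_eq e1.1, ?_, fun l hl => ?_⟩
    · have e2 := congrFun e1.2 (Fin.last (k + 1))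
      simp only [chP, Fin.val_last] at e2
      rwa [frP_top G GN, frP_top G GN] at e2
    · have e2 := congrFun e1.2 ⟨l, by omega⟩
      simp only [chP] at e2
      rwa [frP_lo G GN hl, frP_lo G GN hl] at e2
  have q2 : ∀ {ω ν : F.Ω}, NrH F c (fun j : Fin k => (j : ℕ)) ⌊(u + 500 * y) * J⌋₊ (g₀ (f 0))
      (frP G GN (fb 0) (f 0) k) ω ν → (∀ j < k, |hgt F c (folN G GN (fb 0) (f n) k (k + 1)) ω j -
        hgt F c (folN G GN (fb 0) (f n) k (k + 1)) ν j| ≤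
          2 ^ 2 / 2 ^ (g₀ (f 0) j + ⌊(u + 500 * y) * J⌋₊)) := by
    intro ω ν hh j hj
    rw [← f1 ω j hj, ← f1 ν j hj]
    exact hh ⟨j, hj⟩
  refine ⟨⟨by positivity, fun ω hω v j => ?_, ?_, ?_, ?_⟩, fun ω hω i hi => ?_,
    fun hsp ω hω => ?_⟩
  · exact g2 ω hω j (by omega) fun h => absurd j.2 (by omega)
  · intro ω ν hω hν ht _ hc hnr v j
    obtain ⟨a1, a2, a3⟩ := q0 hc
    exact (g3 ω ν hω hν ht a2 (q2 hnr) a3).1 a1 j j.2
  · intro ω ν hω hν ht _ hc hnr v j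
    obtain ⟨a1, a2, a3⟩ := q0 hc
    exact ((g3 ω ν hω hν ht a2 (q2 hnr) a3).2 a1).1 j j.2
  · intro ω ν hω hν ht _ hc hnr v
    obtain ⟨a1, a2, a3⟩ := q0 hc
    have hp : (0 : ℝ) < 2 ^ ⌊ξ * u * (J : ℝ)⌋₊ := by positivity
    have key : ∀ {a b U : ℝ}, |a - b| ≤ U / 2 ^ ⌊ξ * u * (J : ℝ)⌋₊ →
        |2 ^ ⌊ξ * u * (J : ℝ)⌋₊ * a - 2 ^ ⌊ξ * u * (J : ℝ)⌋₊ * b| ≤ U := by
      intro a b U h
      rw [← mul_sub, abs_mul, abs_of_pos hp]
      rwa [le_div_iff₀ hp, mul_comm] at h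
    have h5 := ((g3 ω ν hω hν ht a2 (q2 hnr) a3).2 a1).2
    rw [← f2, ← f2, Finset.sum_range] at h5
    refine le_trans (le_of_eq ?_) (key h5)
    congr 2
    refine congrArg _ (Finset.sum_congr rfl fun j _ => ?_)
    rw [f1 ω j j.2, f1 ν j j.2]
  · exact g2 ω hω i (by omega) fun h => absurd hi (by omega)
  · refine g2 ω hω k (by omega) fun _ t t' htt ht' l hl hl' => ?_
    obtain rfl : l = k + 1 := by omega
    obtain ⟨r1, r2⟩ := rf t (htt.trans ht')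
    obtain ⟨r3, r4⟩ := rf t' ht'
    rw [hlv _ (hf t (htt.trans ht')) k (by omega), hlv _ (hf t' ht') k (by omega),
      hlv _ (hf t (htt.trans ht')) (k + 1) le_rfl, hlv _ (hf t' ht') (k + 1) le_rfl]
    have e1 := hsp _ (gf t (htt.trans ht')) _ (gf t' ht') (b1.trans r1) (mf t t' htt ht')
      (r4.trans b5)
    have e3 := abs_le.1 (Nn.st _ (gf t (htt.trans ht')) (b1.trans r1) (r2.trans b5))
    have e4 := abs_le.1 (Nn.st _ (gf t' ht') (b1.trans r3) (r4.trans b5))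
    have e5 := mj (show sn k (ow (f t')) - sn k (ow (f t)) ≤
      (sn (k + 1) (ow (f t')) - sn (k + 1) (ow (f t))) + 4 * φ by linarith)
    linarith

/-- **Two samples of one cell**: the base coordinates. -/
theorem celB (m D k : ℕ) : ∃ Cc : ℕ, 1 ≤ Cc ∧
    ∀ {s : ℝ} {sn : ℕ → ℝ → ℝ} {Gs : Set ℝ} {b o φ w u y ξ T Λ : ℝ} {w₁ : ℚ}
    {jw xw xr x' : ℝ} {J : ℕ} {F : Fam m J}
    {c : ℕ → Fin m} {Dr N M : ℕ} {C₀ a Eb ηm : ℝ} {ow η σ : ℕ → ℝ} {lv bb : ℕ → ℕ → ℝ} {κ : ℝ}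
    {z : ℕ → ℕ → ℕ} {A : F.Ω → Prop} {g₀ : ℕ → ℕ → ℕ}
    {G : ℕ → PtT F → ℕ → MvPolynomial (Option (Fin m)) ℝ}
    {H : ℕ → LnT F → ℕ → MvPolynomial (Option (Fin m)) ℝ} {kb kw : ℕ},
    WinB F c (k + 1) D Dr N M C₀ a Eb ηm ow η σ lv bb κ z A g₀ G H →
    NB k s sn Gs b o φ w u y ξ T Λ w₁ jw xw xr x' →
    Set.InjOn c (Set.Iio (k + 2)) → kb ≤ N → kw ≤ N → ow kb = b → ow kw = w → b ∈ Gs →
    (∀ t ≤ N, ∀ l ≤ k + 1, lv t l = sn l (ow t)) → C₀ * ηm ≤ φ →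
    (∀ l ≤ k + 1, Eb + sn l w + Λ * u ≤ 1) →
    (∀ v ∈ Gs, b ≤ v → v ≤ w → sn k v + (w - v) ≤ sn k w + φ) →
    (∃ jq ≤ M, ∃ jT ≤ M, (z kb jq : ℝ) ≤ u * J ∧ z kb jq + 1 ≤ z kb jT) →
    10 ≤ φ * J → (Cc : ℝ) * (2 * φ) ≤ u →
    ∀ ω ν, A ω → A ν → ptr F J ω = ptr F J ν →
      ∀ l < k, |hgt F c (G kb) ω l - hgt F c (G kb) ν l| ≤
        2 ^ 2 / 2 ^ (g₀ kw l + ⌊(u + 500 * y) * J⌋₊) := by
  obtain ⟨Cc, hCc, Hc⟩ := winb_cell m D (k + 1)
  refine ⟨Cc, hCc, ?_⟩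
  intro s sn Gs b o φ w u y ξ T Λ w₁ jw xw xr x' J F c Dr N M C₀ a Eb ηm ow
    η σ lv bb κ z A g₀ G H kb kw W Nn hinj hkb hkw hob how hbG hlv hC hEb hstk hzb big hCu ω ν
    hω hν hpt l hl
  obtain ⟨b1, b2, b3, b4, b5, b6, b7, b8, b9, b10, b11, b12, b13, b14, b15, b16⟩ := Nn.wb
  obtain ⟨h1, h2, h3, h4, h5, h6⟩ := Nn.sm
  obtain ⟨r1', r2', r3', d1, d2⟩ := Nn.rm
  have hJ : (0 : ℝ) ≤ J := Nat.cast_nonneg J
  have hs := Nn.s1
  have hu := Nn.gw.u0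
  have hyu := Nn.yu
  have hbw := Nn.gw.bw
  have hy0 := Nn.y0
  have mj : ∀ {a a' : ℝ}, a ≤ a' → a * J ≤ a' * J := fun h => mul_le_mul_of_nonneg_right h hJ
  have hηm0 : 0 ≤ ηm := (W.hη _ hkb).1.trans (W.hη _ hkb).2
  have hηφ : ηm ≤ φ := (le_mul_of_one_le_left hηm0 W.C1).trans hC
  obtain ⟨Y, hY⟩ : ∃ Y : ℕ, Y = ⌈φ * (J : ℝ)⌉₊ := ⟨_, rfl⟩
  have hY1 : φ * J ≤ Y := by
    rw [hY]
    exact Nat.le_ceil _
  have hY2 : (Y : ℝ) ≤ φ * J + 1 := by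
    rw [hY]
    exact (Nat.ceil_lt_add_one (by linarith)).le
  have hCY : (Cc : ℝ) * Y ≤ u * J := by
    have e1 : (Cc : ℝ) * Y ≤ Cc * (2 * φ * J) :=
      mul_le_mul_of_nonneg_left (by linarith) (Nat.cast_nonneg _)
    have e2 := mj hCu
    linarith
  have hC0 : C₀ * (ηm * J) ≤ Y := by
    have e1 := mj hC
    have e2 : C₀ * (ηm * J) = C₀ * ηm * J := by ring
    rw [e2]
    linarith
  have hY3 : 1 ≤ Y := by
    have : (1 : ℝ) ≤ Y := by linarith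
    exact_mod_cast this
  have e2 := Nat.floor_le (show 0 ≤ (u + 500 * y) * (J : ℝ) from mul_nonneg (by linarith) hJ)
  have hT' : 240 * u ≤ Λ * u := by linarith
  have huJ : 0 ≤ u * (J : ℝ) := mul_nonneg hu.le hJ
  have hyuJ : 4000 * y * J ≤ u * J := mj hyu
  have hφuJ : φ * J ≤ u * J := mj (by linarith)
  have hφ1 : 1 ≤ φ * J := by linarith
  obtain ⟨q, hq⟩ : ∃ q : ℕ, q = ⌈(w - b + 4 * φ) * (J : ℝ)⌉₊ + ⌊(u + 500 * y) * J⌋₊ :=
    ⟨_, rfl⟩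
  have hq1 : (w - b + 4 * φ) * J + ((⌊(u + 500 * y) * J⌋₊ : ℕ) : ℝ) ≤ q := by
    rw [hq]
    push_cast
    have := Nat.le_ceil ((w - b + 4 * φ) * (J : ℝ))
    linarith
  have hq2 : (q : ℝ) ≤ (w - b + 4 * φ) * J + 3 + 4 * (u * J) := by
    rw [hq]
    push_cast
    have e1 := (Nat.ceil_lt_add_one (show 0 ≤ (w - b + 4 * φ) * (J : ℝ) from
      mul_nonneg (by linarith) hJ)).le
    linarith
  obtain ⟨jq, hjq, jT, hjT, hz1, hz2⟩ := hzb
  have hl' : ∀ l ≤ k + 1, sn l b + (w - b) ≤ sn l w + 2 * φ := by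
    intro l hl
    rcases Nat.lt_or_ge l k with h | h
    · have e1 := abs_le.1 (Nn.sl l h b hbG le_rfl (b1.trans b2))
      linarith
    · rcases Nat.lt_or_eq_of_le hl with h' | h'
      · obtain rfl : l = k := by omega
        have e1 := hstk b hbG le_rfl b1
        linarith
      · subst h'
        have e1 := abs_le.1 (Nn.st b hbG le_rfl (b1.trans b2))
        have e2 : 1 * (w - b) ≤ s * (w - b) := mul_le_mul_of_nonneg_right hs.le (by linarith)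
        linarith
  have h7 := Hc W (k₀ := kb) (jq := jq) (jT := jT) (q := q) (Y := Y) hinj hkb hjq hjT hz2 hC0
    hY3 (fun l hl => by
      rw [hlv _ hkb l hl, hob]
      have e1 := hl' l hl
      have e2 := hEb l hl
      have e3 := mj (show Eb + sn l b + (w - b) + 240 * u ≤ 1 + 2 * φ by linarith)
      linarith) ω ν hω hν hpt l (by omega)
  refine h7.trans ?_
  refine div_le_div_of_nonneg_left (by norm_num) (by positivity)
    (pow_le_pow_right₀ one_le_two ?_)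
  obtain ⟨-, -, g1, -⟩ := W.g_num hkb (show l ≤ k + 1 by omega)
  obtain ⟨-, -, -, g2⟩ := W.g_num hkw (show l ≤ k + 1 by omega)
  rw [hlv _ hkb l (by omega), hob] at g1
  rw [hlv _ hkw l (by omega), how] at g2
  have e1 := abs_le.1 (Nn.sl l hl b hbG le_rfl (b1.trans b2))
  have e2 := mj hηφ
  have e3 := mj (show sn l w + φ ≤ sn l b + (w - b + 4 * φ) by linarith)
  have e4 : ((g₀ kw l + ⌊(u + 500 * y) * J⌋₊ : ℕ) : ℝ) ≤ ((g₀ kb l + q : ℕ) : ℝ) := by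
    push_cast at hq1 ⊢
    linarith
  exact_mod_cast e4

end Pool.V0B19
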