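import Pool.Agent.H19.V0B.Few
import Pool.Agent.H19.V0B.Grd

/-!
# A counted target over a follower: the windows exist, small steps

`nb_ex`: the windows; `gw_mono`: a smaller room; `cst_b`: the constants.
-/

set_option autoImplicit false

namespace Pool.V0B19

open Finset Real MvPolynomial
open Pool.Agent.H49.Ent Pool.Agent.H32.Dense
open Pool.STK hiding pr2
open Pool.KA Pool.KSAT Pool.K2S Pool.PB Pool.S6C
open Pool.GEN Pool.CHT Pool.CHX Pool.ISO Pool.LA91 Pool.AVG71 Pool.AVG5 Pool.D2F2 Pool.AVG57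
open Pool.RCD Pool.AVG96 Pool.OWN68 Pool.V0F
open Pool.V0R (LadR)
open Pool.VG83 (GW)

/-- A smaller room. -/
theorem gw_mono {k : ℕ} {sn : ℕ → ℝ → ℝ} {G : Set ℝ} {b o φ w u y ξ T Λ Λ' : ℝ} {w₁ : ℚ}
    {j x xr x' : ℝ} (W : GW k sn G b o φ w u y ξ T Λ w₁ j x xr x') (h : Λ' ≤ Λ) :
    GW k sn G b o φ w u y ξ T Λ' w₁ j x xr x' := by
  have e := mul_le_mul_of_nonneg_right h W.u0.le
  exact {
    u0 := W.u0
    yφ := W.yφ
    wG := W.wG
    jG := W.jG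
    xG := W.xG
    rG := W.rG
    xG' := W.xG'
    hw1 := W.hw1
    hw2 := W.hw2
    wj := W.wj
    jx := W.jx
    hx := W.hx
    hxr := W.hxr
    hx' := W.hx'
    bw := by linarith [W.bw]
    wo := by linarith [W.wo]
    o1 := by linarith [W.o1]
    b0 := by linarith [W.b0]
    lb := fun l hl => ⟨by linarith [(W.lb l hl).1], by linarith [(W.lb l hl).2]⟩ }

/-- **The windows exist.** -/
theorem nb_ex {k : ℕ} {s T Λ : ℝ} (hk1 : 1 ≤ k) (hs : 1 < s) (hT : 60 ≤ T)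
    (hΛ : 4 * T + 4 * k + 40 ≤ Λ)
    {m : ℕ} {S : PCl m} {c : ℕ → Fin m} {sn : ℕ → ℝ → ℝ} {G : Set ℝ} {b o φ : ℝ}
    (L : LadR S c k 1 sn G b o φ) {w u y ξ : ℝ}
    (hy : y = (4 * (k : ℝ) + 20 + s) * φ) (hξ0 : 0 < ξ) (hξ1 : ξ < 1) (hξ : s * ξ = s - 1)
    (yξ : 4000 * y ≤ ξ * u) (yd : 4000 * y ≤ (s - 1 - ξ) * u) (hu : 0 < u)
    (hw : w ∈ G) (bw : b + Λ * u ≤ w) (wo : w + Λ * u ≤ o) (o1 : o + Λ * u ≤ 1)
    (b0 : Λ * u ≤ b) (hlb : ∀ l ≤ k + 1, Λ * u ≤ sn l b ∧ sn l o + Λ * u ≤ 1)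
    (st : ∀ v ∈ G, b ≤ v → v ≤ o → |sn (k + 1) v - sn (k + 1) w - s * (v - w)| ≤ φ)
    (sk : ∀ v ∈ G, ∀ v' ∈ G, b ≤ v → v ≤ v' → v' ≤ o → s * (v' - v) ≤ sn k v' - sn k v + φ)
    {j x : ℝ} (jG : j ∈ G) (xG : x ∈ G) (jx : j ≤ x) (hj : |j - (w + u / s)| ≤ φ)
    (hx : |x - (w + u)| ≤ φ) :
    ∃ (w₁ : ℚ) (xr x' : ℝ), NB k s sn G b o φ w u y ξ T Λ w₁ j x xr x' := by
  have hφ := L.φ0
  have hk1' : (1 : ℝ) ≤ k := by exact_mod_cast hk1
  have hΛu : (4 * T + 4 * k + 40) * u ≤ Λ * u := mul_le_mul_of_nonneg_right hΛ hu.le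
  have hTu : 60 * u ≤ T * u := mul_le_mul_of_nonneg_right hT hu.le
  have hru : 0 ≤ (k : ℝ) * u := by positivity
  have hs0 : 0 < s := one_pos.trans hs
  have hsφ : 0 ≤ s * φ := by positivity
  have hkφ : 1 * φ ≤ (k : ℝ) * φ := mul_le_mul_of_nonneg_right hk1' hφ.le
  have hy' : y = 4 * (k * φ) + 20 * φ + s * φ := by
    rw [hy]
    ring
  have hξu : 0 < ξ * u ∧ ξ * u ≤ 1 * u := ⟨by positivity,
    mul_le_mul_of_nonneg_right hξ1.le hu.le⟩
  have eξ : 1 - 1 / s = ξ := by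
    field_simp
    linarith
  have hus : 4000 * φ ≤ u / s := by
    rw [le_div_iff₀ hs0]
    linarith
  have hj' := abs_le.1 hj
  have hwo : w ≤ o := by linarith
  obtain ⟨x', hx', hx''⟩ := L.gap (w + T * u) (by linarith) (by linarith)
  obtain ⟨xr, hxr, hxr'⟩ := L.gap (w + (1 + ξ) * u + 600 * y) (by linarith) (by linarith)
  obtain ⟨w₁, h1, h2⟩ := exists_rat_btwn (show w < w + φ by linarith)
  have hf : ∀ i < k, ∀ v ∈ G, b ≤ v → v ≤ o → |(sn i v - v) - (sn i w - w)| ≤ 2 * φ := by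
    intro i hi v hv h3 h4
    have e1 := abs_le.1 (L.fl i hi v hv h3 h4)
    have e2 := abs_le.1 (L.fl i hi w hw (by linarith) hwo)
    rw [abs_le]
    constructor <;> linarith
  refine ⟨w₁, xr, x', ?_, hk1, hs, hφ, hξ0, hξ1, hξ, hy, by linarith, yξ, by rw [eξ]; exact yξ,
    yd, hj, hT, hΛ, hf, st, sk, hlb (k + 1) le_rfl⟩
  exact {
    u0 := hu
    yφ := by linarith
    wG := hw
    jG := jG
    xG := xG
    rG := hxr
    xG' := hx'
    hw1 := h1.le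
    hw2 := h2.le
    wj := by linarith
    jx := jx
    hx := hx
    hxr := hxr'
    hx' := hx''
    bw := bw
    wo := wo
    o1 := o1
    b0 := b0
    lb := fun l hl => hlb l (by omega) }

/-- Free velocities with a larger error. -/
theorem fri_mono {m : ℕ} {S : PCl m} {c : ℕ → Fin m} {r : ℕ} {sp : ℕ → ℝ → ℝ} {b : ℝ}
    {P : Fin r → ℝ} {w w' κ κ' : ℝ} (h : FrI S c r sp b P w w' κ) (hκ : κ ≤ κ') :
    FrI S c r sp b P w w' κ' := by
  obtain ⟨k₂, h1, e₀, h2, H⟩ := h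
  refine ⟨k₂, h1, e₀, h2, fun K => Bas.mono 0 (H K) ?_⟩
  intro J _ F A h3 V z V' z' hz hz' u hu
  have h4 := h3 V z V' z' hz hz' u hu
  have h5 : κ * J ≤ κ' * J := mul_le_mul_of_nonneg_right hκ (Nat.cast_nonneg J)
  linarith

/-- **The constants.** -/
theorem cst_b (D' Cg Cc : ℕ) {s ξ ι δ φg : ℝ} (hξ0 : 0 < ξ) (hs3 : 0 < s - 1 - ξ)
    (hι : 0 < ι) (hδ : 0 < δ) (hφg : 0 < φg) : ∃ θ : ℝ, 0 < θ ∧ θ ≤ φg ∧ 4000 * θ ≤ ξ ∧
    4000 * θ ≤ s - 1 - ξ ∧ 4 * (Cc : ℝ) * θ ≤ 1 ∧ 4000 * ((Cg : ℝ) + 1) * θ ≤ ι ∧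
    16000 * ((Cg : ℝ) + 1) * θ ≤ ξ ∧ 8000 * ((D' : ℝ) + 3) * θ ≤ δ := by
  obtain ⟨θ, hθ⟩ : ∃ θ : ℝ, θ = min φg (min (ξ / 4000) (min ((s - 1 - ξ) / 4000)
    (min (1 / (4 * ((Cc : ℝ) + 1))) (min (ι / (4000 * ((Cg : ℝ) + 1)))
      (min (ξ / (16000 * ((Cg : ℝ) + 1))) (δ / (8000 * ((D' : ℝ) + 3)))))))) := ⟨_, rfl⟩
  have h1 : θ ≤ φg := by rw [hθ]; exact min_le_left _ _
  have h2 : θ ≤ ξ / 4000 := by
    rw [hθ]
    exact (min_le_right _ _).trans (min_le_left _ _)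
  have h3 : θ ≤ (s - 1 - ξ) / 4000 := by
    rw [hθ]
    exact (min_le_right _ _).trans ((min_le_right _ _).trans (min_le_left _ _))
  have h4 : θ ≤ 1 / (4 * ((Cc : ℝ) + 1)) := by
    rw [hθ]
    exact (min_le_right _ _).trans ((min_le_right _ _).trans ((min_le_right _ _).trans
      (min_le_left _ _)))
  have h5 : θ ≤ ι / (4000 * ((Cg : ℝ) + 1)) := by
    rw [hθ]
    exact (min_le_right _ _).trans ((min_le_right _ _).trans ((min_le_right _ _).trans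
      ((min_le_right _ _).trans (min_le_left _ _))))
  have h6 : θ ≤ ξ / (16000 * ((Cg : ℝ) + 1)) := by
    rw [hθ]
    exact (min_le_right _ _).trans ((min_le_right _ _).trans ((min_le_right _ _).trans
      ((min_le_right _ _).trans ((min_le_right _ _).trans (min_le_left _ _)))))
  have h7 : θ ≤ δ / (8000 * ((D' : ℝ) + 3)) := by
    rw [hθ]
    exact (min_le_right _ _).trans ((min_le_right _ _).trans ((min_le_right _ _).trans
      ((min_le_right _ _).trans ((min_le_right _ _).trans (min_le_right _ _)))))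
  have hθ0 : 0 < θ := by
    rw [hθ]
    refine lt_min hφg (lt_min (by positivity) (lt_min (by positivity) (lt_min (by positivity)
      (lt_min (by positivity) (lt_min (by positivity) (by positivity))))))
  have hCc : (0 : ℝ) ≤ Cc := Nat.cast_nonneg _
  refine ⟨θ, hθ0, h1, ?_, ?_, ?_, ?_, ?_, ?_⟩
  · rw [le_div_iff₀ (by norm_num)] at h2
    linarith
  · rw [le_div_iff₀ (by norm_num)] at h3
    linarith
  · rw [le_div_iff₀ (by positivity)] at h4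
    nlinarith
  · rw [le_div_iff₀ (by positivity)] at h5
    linarith
  · rw [le_div_iff₀ (by positivity)] at h6
    linarith
  · rw [le_div_iff₀ (by positivity)] at h7
    linarith

end Pool.V0B19
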