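import Pool.Agent.H19.V0B.Num
import Pool.Agent.H71.V0R.Nur
import Pool.Agent.H44.V0P.V0cp

/-!
# A counted target over a follower: the near and the far digits of the target

`fewB`: class level; `codB`: codes over other digits of the own jets.
-/

set_option autoImplicit false

namespace Pool.V0B19

open Finset Real MvPolynomial
open Pool.Agent.H49.Ent Pool.Agent.H32.Dense
open Pool.STK hiding pr2
open Pool.KA Pool.KSAT Pool.K2S Pool.PB Pool.S6C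
open Pool.GEN Pool.CHT Pool.CHX Pool.ISO Pool.LA91 Pool.AVG71 Pool.AVG5 Pool.D2F2 Pool.AVG57
open Pool.RCD Pool.AVG96 Pool.OWN68 Pool.V0F
open Pool.V0R (LadR t_nupr t_nu0r)
open Pool.V0Q

/-- **The near and the far digits of the target.** -/
theorem fewB {m : ℕ} {S : PCl m} {c : ℕ → Fin m} {k D : ℕ} {sn : ℕ → ℝ → ℝ} {Gs : Set ℝ}
    {b o φ : ℝ} (L : LadR S c k 1 sn Gs b o φ) {s w u y ξ T Λ : ℝ} {w₁ : ℚ} {j x xr x' : ℝ}
    (N : NB k s sn Gs b o φ w u y ξ T Λ w₁ j x xr x') {ε : ℝ} (hε : 0 < ε) (Ec : ℝ) :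
    Bas S (fun J F A => ∀ Hb H : LnT F → ℕ → MvPolynomial (Option (Fin m)) ℝ,
      LDP F c k 1 D b w φ Ec sn A Hb H →
      CH (Pool.Agent.H49.Ent.cond F.p A True)
        (th0 F c (k + 1) ⌊w * J⌋₊ H (sn (k + 1) w + u - (s + 42) * φ))
        (fun ω => (jh F c k ⌊w * J⌋₊ H (fun i => sn i w + u + (60 + 20 * ((k : ℝ) - i)) * φ) ω,
          (cR F A j ω, F.W ω))) ≤ ε * J ∧
      CH (Pool.Agent.H49.Ent.cond F.p A True)
        (th0 F c (k + 1) ⌊w * J⌋₊ H (sn (k + 1) w + (1 + ξ) * u + 500 * y))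
        (fun ω => (cR F A xr ω, F.W ω)) ≤ ε * J) := by
  obtain ⟨b1, b2, b3, b4, b5, b6, b7, b8, b9, b10, b11, b12, b13, b14, b15, b16⟩ := N.wb
  obtain ⟨h1, h2, h3, h4, h5, h6⟩ := N.sm
  obtain ⟨a1, a2, a3, a4, a5⟩ := N.n1_c
  obtain ⟨t1, t2, t3⟩ := N.n1_t
  have hu := N.gw.u0
  have hyu := N.yu
  have hxr := abs_le.1 N.gw.hxr
  obtain ⟨r1, r2, r3, r4, r5⟩ := N.rm
  have hf : ∀ (J : ℕ) (F : Fam m J), ∃ χ : PtT F → PtT F, ∀ ω, ptr F J ω = χ (ptr F J ω) :=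
    fun J F => ⟨fun x => x, fun _ => rfl⟩
  have e40 : (20 : ℝ) * (((1 : ℕ) : ℝ) + 1) * φ = 40 * φ := by
    push_cast
    ring
  have c1 := t_nupr L (f := fun J F => ptr F J) (y := fun _ F => F.W) hf kn_W (w := w) (j := j)
    (oj := j) (pr := sn (k + 1) w - φ) (N := sn (k + 1) w + u - (s + 42) * φ)
    (p := fun l => sn l b - φ)
    (n := fun i => sn i w + u + (60 + 20 * ((k : ℝ) - i)) * φ) N.gw.wG N.gw.jG b1 b3
    (b4.trans b5) le_rfl ((b4.trans b5).trans b13) (fun i _ => le_rfl) le_rfl ⟨a1, a2, a3⟩ a4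
    (by rw [e40]; exact t1) (by rw [e40]; exact t2) (by rw [e40]; exact t3)
  have ek : (60 * (k : ℝ) + 121) * φ = 60 * (k * φ) + 121 * φ := by ring
  have eξ : (1 + ξ) * u = u + ξ * u := by ring
  rw [eξ] at hxr
  obtain ⟨v, hv, hv'⟩ := L.gap (xr - (60 * (k : ℝ) + 121) * φ) (by
    rw [ek]
    linarith) (by
    rw [ek]
    linarith)
  obtain ⟨d1, d2, d3, d4, d5⟩ := N.n2_c hv hv'
  have c2 := t_nu0r L (f := fun J F => ptr F J) (y := fun _ F => F.W) hf kn_W (w := w) (x := v)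
    (x' := xr) (ox := xr) (pr := sn (k + 1) w - φ)
    (N := sn (k + 1) w + (1 + ξ) * u + 500 * y) N.gw.wG hv N.gw.rG b1 d1
    (by push_cast; exact d2) b6 le_rfl (b6.trans b13) (by push_cast; exact d3) le_rfl
    (by push_cast; exact d4) (by push_cast; exact d5)
  obtain ⟨ea, hea, Ha⟩ := c1.mx L.pos ε hε
  obtain ⟨eb, heb, Hb'⟩ := c2.mx L.pos ε hε
  have hb1 : b ≤ 1 := by linarith
  have hw1 : w ≤ 1 := by linarith
  obtain ⟨Ma, Ja, hMa⟩ := ld_jh m D k (fun i => sn i w + u + (60 + 20 * ((k : ℝ) - i)) * φ)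
    (b := b) (E := Ec) b10 hb1
  obtain ⟨Mb, Jb, hMb⟩ := ldp_th m D k 1 (k + 1) (sn (k + 1) w + u - (s + 42) * φ) (w := w)
    (E := Ec) (by omega) le_rfl b11 hw1
  obtain ⟨Mc, Jc, hMc⟩ := ldp_th m D k 1 (k + 1) (sn (k + 1) w + (1 + ξ) * u + 500 * y) (w := w)
    (E := Ec) (by omega) le_rfl b11 hw1
  obtain ⟨M, hM⟩ : ∃ M : ℕ, M = Ma + Mb + Mc := ⟨_, rfl⟩
  refine Bas.mono (Ja + Jb + Jc) (((Ha M).and (Hb' M)).and (pos_bas L.pos)) ?_
  rintro J hJ F A ⟨⟨H1, H2⟩, hA⟩ Hb H LDh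
  have p1 := hMa M (by omega) J (by omega) LDh.toLD ea hea.le
  have p2 := hMb M (by omega) J (by omega) LDh ea hea.le
  have p3 := hMc M (by omega) J (by omega) LDh eb heb.le
  exact ⟨H1 _ (cR F A j) (mx_cR hA j (by linarith)) _ _ p1 p2,
    H2 _ (cR F A xr) (mx_cR hA xr (by linarith)) _ p3⟩

section

variable {m J : ℕ} {F : Fam m J} {c : ℕ → Fin m} {w : ℕ}
  {H : LnT F → ℕ → MvPolynomial (Option (Fin m)) ℝ} {p : F.Ω → ℝ}

/-- **The codes** over other digits of the own jets, and other records. -/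
theorem codB (hp : IsLaw p) {k D j₀ l N N' : ℕ} {d : ℝ}
    (hd : (N' : ℝ) - N ≤ d) (hd0 : 0 ≤ d) {n : ℕ → ℕ → ℝ} {nh nv : ℕ → ℝ}
    (h0' : ∀ l < k, n l 0 ≤ nh l) (h1' : ∀ l < k, n l 1 ≤ nv l) {ζ ζ' σ : Type} {zw : F.Ω → ζ}
    {zw' : F.Ω → ζ'} {sd : F.Ω → σ} (hz : Det p zw zw') :
    CH p (Pool.AVG57.cod F w (fun s => H s l) (c l) N' j₀ D)
        (fun ω => ((jh F c k w H nh ω, jv F c k w H nv ω), (sd ω, (zw ω, F.W ω)))) ≤
      CH p (Pool.AVG57.cod F w (fun s => H s l) (c l) N j₀ D)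
        (fun ω => (jet2 F c w H 0 k n ω, (zw' ω, F.W ω))) +
        ((D : ℝ) + 1) * (d * Real.log 2 + Real.log 5) + 2 * k * Real.log 5 := by
  have h0 := hp.nonneg
  have hJ : (0 : ℝ) ≤ J := Nat.cast_nonneg J
  have hr : 0 + k = k := Nat.zero_add k
  obtain ⟨Z, hZ⟩ : ∃ Z : F.Ω → _, Z = fun ω => ((jh F c k w H nh ω, jv F c k w H nv ω),
    (sd ω, (zw ω, F.W ω))) := ⟨_, rfl⟩
  rw [← hZ]
  have s0 := cod_evp hp (F := F) (c := c) (w := w) (H := H) (D := D) (j₀ := j₀) (l := l) hd hd0 Z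
  obtain ⟨X, hX⟩ : ∃ X, X = Pool.AVG57.cod F w (fun s => H s l) (c l) N j₀ D := ⟨_, rfl⟩
  rw [← hX] at s0 ⊢
  have hh : Det p Z (jh F c k w H nh) := fun ω ν hω hν e => by
    rw [hZ] at e
    exact (Prod.ext_iff.mp (Prod.ext_iff.mp e).1).1
  have hv : Det p Z (jv F c k w H nv) := fun ω ν hω hν e => by
    rw [hZ] at e
    exact (Prod.ext_iff.mp (Prod.ext_iff.mp e).1).2
  have s1 := CH_le_add h0 X (jet2 F c w H 0 k n) Z
  have s2 : CH p X (fun ω => (jet2 F c w H 0 k n ω, Z ω)) ≤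
      CH p X (fun ω => (jet2 F c w H 0 k n ω, (zw' ω, F.W ω))) :=
    CH_mono_cond h0 fun ω ν hω hν e => by
      rw [hZ] at e
      simp only [Prod.mk.injEq] at e ⊢
      exact ⟨e.1, hz ω ν hω hν e.2.2.2.1, e.2.2.2.2⟩
  have s3 : CH p (jet2 F c w H 0 k n) Z ≤ CH p (fun ω => (jv F c k w H (fun l => n l 1) ω,
      jh F c k w H (fun l => n l 0) ω)) Z := by
    refine CH_mono_left h0 fun ω ν hω hν e => ?_
    have e2 := Prod.ext_iff.mp (Prod.ext_iff.mp e).1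
    have e3 := jhv_jet2 (p := p) (F := F) (c := c) (r := k) (w := w) (H := H) n ω ν hω hν
      (Prod.ext e2.2 e2.1)
    rw [hr] at e3
    exact e3
  have s4 := CH_subadd h0 (jv F c k w H fun l => n l 1) (jh F c k w H fun l => n l 0) Z
  have s5 := CH_jv hp (n := nv) (n' := fun l => n l 1) (d := 0) (fun l hl => by
    have := mul_nonneg (sub_nonneg.2 (h1' l hl)) hJ
    linarith) le_rfl Z hv
  have s6 := CH_jh hp (n := nh)
    (n' := fun l => n l 0) (d := 0) (fun l hl => by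
      have := mul_nonneg (sub_nonneg.2 (h0' l hl)) hJ
      linarith) le_rfl Z hh
  linarith

/-- The heights of the last place in the frame. -/
theorem mh_frH {Hc : ℕ → LnT F → ℕ → MvPolynomial (Option (Fin m)) ℝ}
    {HN : LnT F → MvPolynomial (Option (Fin m)) ℝ} {kb kw k wb ww : ℕ} (n : ℕ) :
    Mh F c (k + 1) w (frH Hc HN kb kw k wb ww) n = MhN F (c (k + 1)) w HN n := by
  funext ω
  unfold Mh MhN frH
  rw [if_neg (by omega), if_neg (by omega)]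

theorem frH_top {Hc : ℕ → LnT F → ℕ → MvPolynomial (Option (Fin m)) ℝ}
    {HN : LnT F → MvPolynomial (Option (Fin m)) ℝ} {kb kw k wb ww : ℕ} :
    (fun s => frH Hc HN kb kw k wb ww s (k + 1)) = HN := by
  funext s
  unfold frH
  rw [if_neg (by omega), if_neg (by omega)]

/-- The digits of the target as own heights with real digits. -/
theorem mhN_th (hp : IsLaw p) {k n : ℕ} {N : ℝ} {d : ℝ} (hd : (n : ℝ) - N * J ≤ d) (hd0 : 0 ≤ d)
    {Hc : ℕ → LnT F → ℕ → MvPolynomial (Option (Fin m)) ℝ}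
    {HN : LnT F → MvPolynomial (Option (Fin m)) ℝ} {kb kw wb ww : ℕ} {𝓦 : Type} (Z : F.Ω → 𝓦) :
    CH p (MhN F (c (k + 1)) w HN n) Z ≤
      CH p (th0 F c (k + 1) w (frH Hc HN kb kw k wb ww) N) Z + (d * Real.log 2 + Real.log 5) := by
  have h0 := hp.nonneg
  have hl2 : 0 < Real.log 2 := Real.log_pos one_lt_two
  have e0 : th0 F c (k + 1) w (frH Hc HN kb kw k wb ww) N = fun ω =>
      ⌊(2 : ℝ) ^ (N * J) * ojet F (c (k + 1)) 0 (HN (slam F w ω)) ω⌋ := by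
    funext ω
    unfold th0 frH
    rw [if_neg (by omega), if_neg (by omega)]
  rw [e0]
  obtain ⟨X, hX⟩ : ∃ X : F.Ω → ℤ, X = fun ω =>
    ⌊(2 : ℝ) ^ (N * J) * ojet F (c (k + 1)) 0 (HN (slam F w ω)) ω⌋ := ⟨_, rfl⟩
  rw [← hX]
  have s1 := CH_le_add h0 (MhN F (c (k + 1)) w HN n) X Z
  have s2 := CH_dig hp (a := N * J) (b := (n : ℝ))
    (fun ω => ojet F (c (k + 1)) 0 (HN (slam F w ω)) ω) (fun ω => (X ω, Z ω))
    (fun ω ν _ _ e => by
      have e3 := congrArg Prod.fst e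
      rw [hX] at e3
      exact e3)
  have e1 : (fun ω => ⌊(2 : ℝ) ^ (n : ℝ) * ojet F (c (k + 1)) 0 (HN (slam F w ω)) ω⌋) =
      MhN F (c (k + 1)) w HN n := by
    funext ω
    unfold MhN
    rw [Real.rpow_natCast]
  rw [e1] at s2
  have s3 : max ((n : ℝ) - N * J) 0 * Real.log 2 ≤ d * Real.log 2 :=
    mul_le_mul_of_nonneg_right (max_le hd hd0) hl2.le
  linarith

end

end Pool.V0B19
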