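import Pool.Agent.H19.V0B.S
import Pool.Agent.H83.VG.S

/-!
# A counted target over a follower: the numbers

`NB`: the windows and the digits of `V0cBStmt`.
-/

set_option autoImplicit false

namespace Pool.V0B19

open Finset Real
open Pool.V0F
open Pool.VG83 (GW)

/-- **The windows and digits.** -/
structure NB (k : ℕ) (s : ℝ) (sn : ℕ → ℝ → ℝ) (G : Set ℝ) (b o φ w u y ξ T Λ : ℝ) (w₁ : ℚ)
    (j x xr x' : ℝ) : Prop where
  gw : GW k sn G b o φ w u y ξ T Λ w₁ j x xr x'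
  k1 : 1 ≤ k
  s1 : 1 < s
  φ0 : 0 < φ
  ξ0 : 0 < ξ
  ξ1 : ξ < 1
  hξ : s * ξ = s - 1
  hy : y = (4 * (k : ℝ) + 20 + s) * φ
  yu : 4000 * y ≤ u
  yξ : 4000 * y ≤ ξ * u
  ys : 4000 * y ≤ (1 - 1 / s) * u
  yd : 4000 * y ≤ (s - 1 - ξ) * u
  hj : |j - (w + u / s)| ≤ φ
  T60 : 60 ≤ T
  ΛT : 4 * T + 4 * k + 40 ≤ Λ
  sl : ∀ i < k, ∀ v ∈ G, b ≤ v → v ≤ o → |(sn i v - v) - (sn i w - w)| ≤ 2 * φ
  st : ∀ v ∈ G, b ≤ v → v ≤ o → |sn (k + 1) v - sn (k + 1) w - s * (v - w)| ≤ φ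
  sk : ∀ v ∈ G, ∀ v' ∈ G, b ≤ v → v ≤ v' → v' ≤ o → s * (v' - v) ≤ sn k v' - sn k v + φ
  lN : Λ * u ≤ sn (k + 1) b ∧ sn (k + 1) o + Λ * u ≤ 1

namespace NB

variable {k : ℕ} {s : ℝ} {sn : ℕ → ℝ → ℝ} {G : Set ℝ} {b o φ w u y ξ T Λ : ℝ} {w₁ : ℚ}
  {j x xr x' : ℝ}

section

variable (N : NB k s sn G b o φ w u y ξ T Λ w₁ j x xr x')

include N

theorem y0 : 0 < y := by
  have h1 := N.φ0
  have h2 := N.s1
  have h3 : (0 : ℝ) ≤ k := Nat.cast_nonneg k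
  rw [N.hy]
  positivity

/-- The small quantities. -/
theorem sm : 0 ≤ (k : ℝ) * φ ∧ 0 ≤ s * φ ∧ 0 < φ ∧ y = 4 * (k * φ) + 20 * φ + s * φ ∧
    φ ≤ k * φ ∧ φ ≤ s * φ := by
  have h1 : (1 : ℝ) ≤ k := by exact_mod_cast N.k1
  have h2 := N.s1
  have h3 := N.φ0
  have e5 : 1 * φ ≤ k * φ := mul_le_mul_of_nonneg_right h1 h3.le
  have e6 : 1 * φ ≤ s * φ := mul_le_mul_of_nonneg_right h2.le h3.le
  refine ⟨by positivity, by positivity, h3, ?_, by linarith, by linarith⟩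
  rw [N.hy]
  ring

theorem us : s * (u / s) = u ∧ 0 ≤ u / s ∧ u / s ≤ u ∧ u / s + 4000 * y ≤ u := by
  have h2 := N.s1
  have hs : 0 < s := by linarith
  have hu := N.gw.u0
  refine ⟨mul_div_cancel₀ _ hs.ne', by positivity, div_le_self hu.le h2.le, ?_⟩
  have h1 := N.ys
  have e1 : (1 - 1 / s) * u = u - u / s := by ring
  rw [e1] at h1
  linarith

/-- The room. -/
theorem rm : 0 ≤ (k : ℝ) * u ∧ 60 * u ≤ T * u ∧ 4 * (T * u) + 4 * (k * u) + 40 * u ≤ Λ * u ∧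
    0 < ξ * u ∧ ξ * u ≤ u := by
  have hu := N.gw.u0
  have h1 := mul_le_mul_of_nonneg_right N.ΛT hu.le
  have h2 := mul_le_mul_of_nonneg_right N.T60 hu.le
  have h3 := mul_le_mul_of_nonneg_right N.ξ1.le hu.le
  have h4 := N.ξ0
  refine ⟨by positivity, h2, by linarith, by positivity, by linarith⟩

/-- The windows. -/
theorem wb : b ≤ w ∧ w ≤ o ∧ w ≤ j ∧ j ≤ x ∧ x ≤ o ∧ xr ≤ o ∧ w ≤ xr ∧ x' ≤ o ∧ w ≤ x' ∧
    0 ≤ b ∧ 0 ≤ w ∧ w + 30 * u ≤ 1 ∧ o ≤ 1 ∧ x + 30 * u ≤ 1 ∧ xr + 30 * u ≤ 1 ∧ x' ≤ 1 := by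
  obtain ⟨r1, r2, r3, r4, r5⟩ := N.rm
  obtain ⟨h1, h2, h3, h4, h5, h6⟩ := N.sm
  have hy0 := N.y0
  have hyu := N.yu
  have hu := N.gw.u0
  have g1 := N.gw.hw1
  have g2 := N.gw.wj
  have g3 := N.gw.jx
  have g4 := abs_le.1 N.gw.hx
  have g5 := abs_le.1 N.gw.hxr
  have g6 := abs_le.1 N.gw.hx'
  have g7 := N.gw.bw
  have g8 := N.gw.wo
  have g9 := N.gw.o1
  have g10 := N.gw.b0
  have e1 : (1 + ξ) * u = u + ξ * u := by ring
  rw [e1] at g5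
  refine ⟨by linarith, by linarith, by linarith, by linarith, by linarith, by linarith,
    by linarith, by linarith, by linarith, by linarith, by linarith, by linarith, by linarith,
    by linarith, by linarith, by linarith⟩

/-- Products of the slope with the windows. -/
theorem sw : s * (j - w) ≤ u + s * φ ∧ u - s * φ ≤ s * (j - w) ∧ s * u - s * φ ≤ s * (x - w) ∧
    (1 + ξ) * u + 4000 * y ≤ s * u := by
  have hs : 0 < s := by linarith [N.s1]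
  have hj := abs_le.1 N.hj
  have hx := abs_le.1 N.gw.hx
  obtain ⟨hu, -⟩ := N.us
  have e1 := mul_le_mul_of_nonneg_left hj.1 hs.le
  have e2 := mul_le_mul_of_nonneg_left hj.2 hs.le
  have e3 := mul_le_mul_of_nonneg_left hx.1 hs.le
  have e9 := N.yd
  refine ⟨by linarith, by linarith, by linarith, by linarith⟩

/-- The near digits of the base. -/
theorem n1_c : (∀ i < k, sn i w + 20 * φ ≤ sn i w + u + (60 + 20 * ((k : ℝ) - i)) * φ) ∧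
    (∀ i < k, sn i w + u + (60 + 20 * ((k : ℝ) - i)) * φ + 20 * φ ≤ sn i w + (1 - w)) ∧
    (∀ i < k, ∀ l < i, sn i w + u + (60 + 20 * ((k : ℝ) - i)) * φ - sn i w + 20 * φ ≤
      sn l w + u + (60 + 20 * ((k : ℝ) - l)) * φ - sn l w) ∧
    (∀ i < k, sn i j + 20 * φ ≤ sn i w + u + (60 + 20 * ((k : ℝ) - i)) * φ) ∧
    (∀ i < k, sn i w + u + (60 + 20 * ((k : ℝ) - i)) * φ ≤ sn i w + u + 100 * y) := by
  obtain ⟨b1, b2, b3, b4, b5, b6, b7, b8, b9, b10, b11, b12, b13, b14, b15, b16⟩ := N.wb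
  obtain ⟨h1, h2, h3, h4, h5, h6⟩ := N.sm
  obtain ⟨u1, u2, u3, u4⟩ := N.us
  have hyu := N.yu
  have hy0 := N.y0
  have hu := N.gw.u0
  have hj := abs_le.1 N.hj
  have hi : ∀ i < k, (1 : ℝ) * φ ≤ ((k : ℝ) - i) * φ ∧ ((k : ℝ) - i) * φ ≤ k * φ := by
    intro i hi
    have e1 : (i : ℝ) + 1 ≤ k := by exact_mod_cast hi
    have e2 : (0 : ℝ) ≤ i := Nat.cast_nonneg i
    exact ⟨mul_le_mul_of_nonneg_right (by linarith) h3.le,
      mul_le_mul_of_nonneg_right (by linarith) h3.le⟩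
  refine ⟨fun i h => ?_, fun i h => ?_, fun i h l hl => ?_, fun i h => ?_, fun i h => ?_⟩
  · have := hi i h
    nlinarith
  · have := hi i h
    nlinarith
  · have e1 : (l : ℝ) + 1 ≤ i := by exact_mod_cast hl
    have e2 : 1 * φ ≤ ((i : ℝ) - l) * φ := mul_le_mul_of_nonneg_right (by linarith) h3.le
    nlinarith
  · have e1 := abs_le.1 (N.sl i h j N.gw.jG (b1.trans b3) (b4.trans b5))
    have := hi i h
    nlinarith
  · have := hi i h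
    nlinarith

/-- The near digits of the target. -/
theorem n1_t : (∀ v ∈ G, w ≤ v → v ≤ j →
      sn (k + 1) w + u - (s + 42) * φ + 40 * φ ≤ sn (k + 1) v + (sn k j - sn k v)) ∧
    sn (k + 1) w + u - (s + 42) * φ + 40 * φ ≤ sn (k + 1) w + (1 - w) ∧
    (∀ i < k, sn (k + 1) w + u - (s + 42) * φ + 40 * φ ≤
      sn (k + 1) w + (sn i w + u + (60 + 20 * ((k : ℝ) - i)) * φ - sn i w)) := by
  obtain ⟨b1, b2, b3, b4, b5, b6, b7, b8, b9, b10, b11, b12, b13, b14, b15, b16⟩ := N.wb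
  obtain ⟨h1, h2, h3, h4, h5, h6⟩ := N.sm
  obtain ⟨c1, c2, c3, c4⟩ := N.sw
  have hu := N.gw.u0
  refine ⟨fun v hv hwv hvj => ?_, by nlinarith, fun i hi => ?_⟩
  · have e1 := abs_le.1 (N.st v hv (b1.trans hwv) (hvj.trans (b4.trans b5)))
    have e2 := N.sk v hv j N.gw.jG (b1.trans hwv) hvj (b4.trans b5)
    linarith
  · have e1 : (i : ℝ) + 1 ≤ k := by exact_mod_cast hi
    have e2 : 0 ≤ ((k : ℝ) - i) * φ := mul_nonneg (by linarith) h3.le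
    nlinarith

/-- The far digits of the target; `v`: a window before `xr`. -/
theorem n2_c {v : ℝ} (hv : v ∈ G) (hv' : |v - (xr - (60 * (k : ℝ) + 121) * φ)| ≤ φ) :
    w ≤ v ∧ v + 60 * ((k : ℝ) + 1 + 1) * φ ≤ xr ∧ xr + 60 * ((k : ℝ) + 1 + 1) * φ ≤ 1 ∧
    (∀ z ∈ G, w ≤ z → z ≤ v → sn (k + 1) w + (1 + ξ) * u + 500 * y +
      60 * ((k : ℝ) + 1 + 1) * φ ≤ sn (k + 1) z + (sn k v - sn k z)) ∧
    sn (k + 1) w + (1 + ξ) * u + 500 * y + 60 * ((k : ℝ) + 1 + 1) * φ ≤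
      sn (k + 1) w + (xr - w) := by
  obtain ⟨b1, b2, b3, b4, b5, b6, b7, b8, b9, b10, b11, b12, b13, b14, b15, b16⟩ := N.wb
  obtain ⟨h1, h2, h3, h4, h5, h6⟩ := N.sm
  obtain ⟨r1, r2, r3, r4, r5⟩ := N.rm
  have hu := N.gw.u0
  have hyu := N.yu
  have hs := N.s1
  have hr := abs_le.1 N.gw.hxr
  have e0 := abs_le.1 hv'
  have e1 : (60 * (k : ℝ) + 121) * φ = 60 * (k * φ) + 121 * φ := by ring
  have e2 : 60 * ((k : ℝ) + 1 + 1) * φ = 60 * (k * φ) + 120 * φ := by ring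
  have e3 : (1 + ξ) * u = u + ξ * u := by ring
  rw [e1] at e0
  rw [e2, e3]
  rw [e3] at hr
  have hwv : w ≤ v := by linarith
  refine ⟨hwv, by linarith, by linarith, fun z hz hwz hzv => ?_, by linarith⟩
  have f1 := abs_le.1 (N.st z hz (b1.trans hwz) (by linarith))
  have f2 := N.sk z hz v hv (b1.trans hwz) hzv (by linarith)
  have f3 : 1 * (v - w) ≤ s * (v - w) := mul_le_mul_of_nonneg_right hs.le (by linarith)
  linarith

end

end NB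

end Pool.V0B19
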