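import Pool.Agent.H19.V0B.V0b
import Pool.Agent.H60.V0B.Rn
import Pool.Agent.H62.V0C.Cfb
import Pool.Agent.H92.V0F.Vsb

/-!
# The output of the class theorem for a family of labels of the target

`V0E`: the conclusion of `V0cBStmt` on an event. `V0W`: the numbers of the windows. `CodU`: the codes
of the target over the labels of a family (the premises `dj`, `jt`). `v0b_out`: the conclusion on a
part of each event, for a family of closed labels.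
-/

set_option autoImplicit false

namespace Pool.V0B19

open Finset Real MvPolynomial
open Pool.Agent.H49.Ent Pool.Agent.H32.Dense
open Pool.STK hiding pr2
open Pool.KA Pool.KSAT Pool.K2S Pool.PB Pool.S6C
open Pool.GEN Pool.CHT Pool.CHX Pool.ISO Pool.LA91 Pool.AVG71 Pool.AVG5 Pool.D2F2 Pool.AVG57
open Pool.RCD Pool.AVG96 Pool.OWN68 Pool.V0F
open Pool.V0R (LadR)
open Pool.V0Q (folN frH)
open Pool.AJW (CfB)
open Pool.D2R (WinB gnh)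
open Pool.BFL (Pb)
open Pool.PB.Trl (rt)
open Pool.ALT (Fml DpI)
open Pool.V0N (RowN LowN)

/-- **The conclusion of the class theorem** on an event, for the label `GN`: `b₀`, `f₀`, `fn` the
indices of the windows of the base charts, of the label, of the follower. -/
structure V0E {m J : ℕ} (F : Fam m J) (c : ℕ → Fin m) (k D' : ℕ) (s κ₂ ι φ w u : ℝ)
    (tie : Prop) (b₀ f₀ fn : ℕ) (g₀ : ℕ → ℕ → ℕ)
    (Gc : ℕ → PtT F → ℕ → MvPolynomial (Option (Fin m)) ℝ)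
    (GN : PtT F → MvPolynomial (Option (Fin m)) ℝ) (B : F.Ω → Prop) : Prop where
  near : ∀ ω, B ω → ∀ x, NBx c (Gc f₀ (ptr F J ω)) (g₀ f₀) ⌊w * J⌋₊ (F.t ω) (k + 1) x →
    |eval x (GN (ptr F J ω)) - eval x (Gc f₀ (ptr F J ω) (k + 1))| ≤
      2 ^ (φ * J) / 2 ^ g₀ f₀ (k + 1)
  bd : ∀ ω, B ω → ∀ i < k, |gnh F c (k + 1) (g₀ f₀) (folN Gc GN b₀ fn k (k + 1)) (Gc fn) ω i| ≤
    2 ^ (ι * u * J)
  bk : tie → ∀ ω, B ω → |gnh F c (k + 1) (g₀ f₀) (folN Gc GN b₀ fn k (k + 1)) (Gc fn) ω k| ≤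
    2 ^ (ι * u * J)
  sm : ∀ ω ν, B ω → B ν → ptr F J ω = ptr F J ν → ∀ i < k,
    |gnh F c (k + 1) (g₀ f₀) (folN Gc GN b₀ fn k (k + 1)) (Gc fn) ω i -
      gnh F c (k + 1) (g₀ f₀) (folN Gc GN b₀ fn k (k + 1)) (Gc fn) ν i| ≤
      2 ^ (-((s - 1) / s / 2 * u * J))
  cl : ∃ (W : ℕ) (mu : LnT F → ℕ → Polynomial ℝ), ⌊w * J⌋₊ ≤ W ∧ (W : ℝ) ≤ (w + 2 * φ) * J ∧
    (∀ s' i, (mu s' i).natDegree ≤ D' + 1) ∧ ∀ ω, B ω → ∀ i < k,
      |gnh F c (k + 1) (g₀ f₀) (folN Gc GN b₀ fn k (k + 1)) (Gc fn) ω i -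
        (mu (slam F W ω) i).eval (rt F W ω)| ≤ 2 ^ (-(κ₂ * u * J))

theorem V0E.sub {m J : ℕ} {F : Fam m J} {c : ℕ → Fin m} {k D' : ℕ} {s κ₂ ι φ w u : ℝ}
    {tie : Prop} {b₀ f₀ fn : ℕ} {g₀ : ℕ → ℕ → ℕ}
    {Gc : ℕ → PtT F → ℕ → MvPolynomial (Option (Fin m)) ℝ}
    {GN : PtT F → MvPolynomial (Option (Fin m)) ℝ} {B B' : F.Ω → Prop}
    (h : V0E F c k D' s κ₂ ι φ w u tie b₀ f₀ fn g₀ Gc GN B) (hB : Sub B' B) :
    V0E F c k D' s κ₂ ι φ w u tie b₀ f₀ fn g₀ Gc GN B' where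
  near := fun ω hω => h.near ω (hB ω hω)
  bd := fun ω hω => h.bd ω (hB ω hω)
  bk := fun ht ω hω => h.bk ht ω (hB ω hω)
  sm := fun ω ν hω hν => h.sm ω ν (hB ω hω) (hB ν hν)
  cl := by
    obtain ⟨W, mu, h1, h2, h3, h4⟩ := h.cl
    exact ⟨W, mu, h1, h2, h3, fun ω hω => h4 ω (hB ω hω)⟩

/-- **The numbers of the windows** of the charts: those of `V0cBStmt`. -/
structure V0W (k : ℕ) (sn : ℕ → ℝ → ℝ) (G : Set ℝ) (b w u s φ Λ : ℝ) (N : ℕ) (C₀ Eb ηm : ℝ)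
    (ow : ℕ → ℝ) (lv : ℕ → ℕ → ℝ) (fb f : ℕ → ℕ) (nb n ks : ℕ) : Prop where
  n1 : 1 ≤ n
  ksn : ks ≤ n
  fbN : ∀ t ≤ nb, fb t ≤ N
  fN : ∀ t ≤ n, f t ≤ N
  f0 : f 0 = fb nb
  ob : ow (fb 0) = b
  o0 : ow (f 0) = w
  oks : ow (f ks) ≤ ow (f n)
  kse : |ow (f ks) - (w + u / s)| ≤ φ
  ne : |ow (f n) - (w + u)| ≤ φ
  gb : ∀ t ≤ nb, ow (fb t) ∈ G
  gf : ∀ t ≤ n, ow (f t) ∈ G
  stb : ∀ t < nb, ow (fb t) ≤ ow (fb (t + 1)) ∧ ow (fb (t + 1)) ≤ ow (fb t) + φ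
  stf : ∀ t < n, ow (f t) ≤ ow (f (t + 1)) ∧ ow (f (t + 1)) ≤ ow (f t) + φ
  stk : ∀ t < n, sn k (ow (f (t + 1))) ≤ sn k (ow (f t)) + φ
  lve : ∀ t ≤ N, ∀ l ≤ k + 1, lv t l = sn l (ow t)
  Cη : 4 * (C₀ * ηm) ≤ φ
  Ebu : ∀ l ≤ k + 1, Eb + sn l w + Λ * u ≤ 1

/-- The radii of the windows. -/
structure V0Z (J M : ℕ) (u : ℝ) (ow : ℕ → ℝ) (fb f : ℕ → ℕ) (nb n : ℕ) (z : ℕ → ℕ → ℕ) :
    Prop where
  zb : ∀ t < nb, ∃ j ≤ M, z (fb t) j = ⌊ow (fb (t + 1)) * J⌋₊ - ⌊ow (fb t) * J⌋₊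
  zf : ∀ t < n, ∃ j ≤ M, z (f t) j = ⌊ow (f (t + 1)) * J⌋₊ - ⌊ow (f t) * J⌋₊
  zq : ∃ jq ≤ M, ∃ jT ≤ M, (z (fb 0) jq : ℝ) ≤ u * J ∧ z (fb 0) jq + 1 ≤ z (fb 0) jT

/-- **The codes of order at least `j₀` of the target** over the labels of the family `Θ` of the
window `w`, to `Nm J` digits, are at most `d J` bits given the jets of the base to the digits `nh` and
the record of the window `X`; `b₀`, `f₀`: the windows of the base charts and of the labels. -/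
def CodU {m : ℕ} (S : PCl m) (c : ℕ → Fin m) (k D D' Dr N M : ℕ) (C₀ a Eb ηm : ℝ)
    (ow η σ : ℕ → ℝ) (lv : ℕ → ℕ → ℝ) (b₀ f₀ : ℕ) (b w E : ℝ) (Θ : Fml m) (j₀ : ℕ)
    (nh : ℕ → ℕ → ℝ) (X Nm d : ℝ) : Prop :=
  Bas S (fun J F A => ∀ {bb : ℕ → ℕ → ℝ} {κ : ℝ} {z : ℕ → ℕ → ℕ}
    {g₀ : ℕ → ℕ → ℕ} {Gc : ℕ → PtT F → ℕ → MvPolynomial (Option (Fin m)) ℝ}
    {H : ℕ → LnT F → ℕ → MvPolynomial (Option (Fin m)) ℝ},
    WinB F c (k + 1) D Dr N M C₀ a Eb ηm ow η σ lv bb κ z A g₀ Gc H →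
    (∀ l < k, CfB F ⌊b * J⌋₊ E (c l) A (fun s => s) (fun s => H b₀ s l)) →
    CfB F ⌊w * J⌋₊ E (c k) A (fun s => s) (fun s => H f₀ s k) →
    ∀ (V : Type) (y : PtT F → V) (y' : LnT F → V) (G : V → MvPolynomial (Option (Fin m)) ℝ),
    Θ J F A V y y' G → CfB F ⌊w * J⌋₊ E (c (k + 1)) A (fun s => s) (fun s => G (y' s)) →
    ∀ N' : ℕ, (N' : ℝ) ≤ Nm * J →
      CH (Pool.Agent.H49.Ent.cond F.p A True)
        (Pool.AVG57.cod F ⌊w * J⌋₊ (fun s => G (y' s)) (c (k + 1)) N' j₀ (D' + 1))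
        (fun ω => (jet2 F c ⌊w * J⌋₊ (frH H (fun s => G (y' s)) b₀ f₀ k ⌊b * J⌋₊ ⌊w * J⌋₊) 0 k
          nh ω, (cR F A X ω, F.W ω))) ≤ d * J)

/-- The same window. -/
theorem lbp_eqw {m J : ℕ} {F : Fam m J} {I : Finset (Fin m)} {κ : Fin m} {K r W W' P : ℕ}
    {A : F.Ω → Prop} {V : Type} {z : PtT F → V} {z' : LnT F → V}
    {g : V → MvPolynomial (Option (Fin m)) ℝ} (h : Pool.GRD.LbP F I κ K r W P A z z' g)
    (e : W = W') : Pool.GRD.LbP F I κ K r W' P A z z' g := by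
  subst e
  exact h

/-- A power of two below a real exponent. -/
theorem inv_fl_le {J : ℕ} {x y : ℝ} (h : y + 1 ≤ x * J) :
    (1 : ℝ) / 2 ^ ⌊x * J⌋₊ ≤ 2 ^ (-y) := by
  have h1 := Nat.lt_floor_add_one (x * (J : ℝ))
  rw [one_div, ← Real.rpow_natCast, ← Real.rpow_neg (by norm_num)]
  exact Real.rpow_le_rpow_of_exponent_le (by norm_num) (by linarith)

/-- **The output of the class theorem** for a family of closed labels of the target. -/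
theorem v0b_out (m D D' k : ℕ) (s h κ₂ : ℝ) (hD : 1 ≤ D) (hDD : D ≤ D') (hk : 1 ≤ k) (hs : 1 < s)
    (hh : 0 < h) (hh1 : h ≤ 1) (hκ₂ : 0 < κ₂) (hκh : κ₂ < (s - 1) / s * h) :
    ∃ δ₀ T₀ : ℝ, 0 < δ₀ ∧ ∀ T : ℝ, T₀ ≤ T → ∃ Λ : ℝ, 1 ≤ Λ ∧ ∀ ι : ℝ, 0 < ι →
    ∃ φ₀ : ℝ, 0 < φ₀ ∧
    ∀ {S : PCl m} {c : ℕ → Fin m} {sn : ℕ → ℝ → ℝ} {G : Set ℝ} {b o φ : ℝ},
      LadR S c k 1 sn G b o φ →
      ∀ {w u ρ : ℝ} {sp : ℕ → ℝ → ℝ}, 0 < u → w ∈ G → φ ≤ φ₀ * u → 0 ≤ ρ →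
      ρ ≤ (1 - h) * Real.log 2 →
      b + Λ * u ≤ w → w + Λ * u ≤ o → o + Λ * u ≤ 1 → Λ * u ≤ b →
      (∀ l ≤ k + 1, Λ * u ≤ sn l b ∧ sn l o + Λ * u ≤ 1) →
      (∀ v ∈ G, b ≤ v → v ≤ o → |sn (k + 1) v - sn (k + 1) w - s * (v - w)| ≤ φ) →
      (∀ v ∈ G, ∀ v' ∈ G, b ≤ v → v ≤ v' → v' ≤ o → s * (v' - v) ≤ sn k v' - sn k v + φ) →
      (∀ i < k, sp i b ≤ sn i b - φ) →
      (∀ (P : Fin k → ℚ) (w₁ : ℚ) (x' : ℝ), w ≤ w₁ → (w₁ : ℝ) ≤ w + φ → x' ∈ G → w₁ ≤ x' →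
        x' ≤ w + Λ * u → (∀ i : Fin k, sn i w - w + u ≤ P i ∧ (P i : ℝ) ≤ sn i w - w + Λ * u) →
        (∀ l i : Fin k, l < i → (P i : ℝ) - (sn i w - w) + u / 2 ≤ P l - (sn l w - w)) →
        FrI S c k sp b (fun i => (P i : ℝ)) w₁ x' (φ₀ * u)) →
      (∀ w₁ : ℚ, w ≤ w₁ → (w₁ : ℝ) ≤ w + φ →
        ∃ η : ℝ, RNum S (fun J F => ptr F J) (vg (w₁ : ℝ)) η) →
      ∀ {Dr N M : ℕ} {C₀ a Eb ηm : ℝ} {ow η σ : ℕ → ℝ} {lv : ℕ → ℕ → ℝ} {fb f : ℕ → ℕ}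
        {nb n ks : ℕ}, D' ≤ Dr →
      V0W k sn G b w u s φ Λ N C₀ Eb ηm ow lv fb f nb n ks →
      ∀ {Θ : Fml m} {p : ℝ},
      (∀ (J : ℕ) (F : Fam m J) (A B : F.Ω → Prop) (V : Type) (z : PtT F → V) (z' : LnT F → V)
        (g : V → MvPolynomial (Option (Fin m)) ℝ), Sub B A → Θ J F A V z z' g →
        Θ J F B V z z' g) →
      (∀ (J : ℕ) (F : Fam m J) (A : F.Ω → Prop) (V : Type) (z : PtT F → V) (z' : LnT F → V)
        (g : V → MvPolynomial (Option (Fin m)) ℝ), Θ J F A V z z' g →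
        Pool.GRD.LbP F ((range (k + 1)).image c) (c (k + 1)) D' J ⌊w * J⌋₊ ⌊p * J⌋₊ A z z' g) →
      sn (k + 1) w - φ / 4 ≤ p →
      RowN S Θ c k (c (k + 1)) w (sn (k + 1) w + u) (sn (k + 1) w + 3 * u) ρ (δ₀ * u) →
      LowN S Θ c k (c (k + 1)) w (ow (f ks)) (sn (k + 1) w + u) (sn (k + 1) w + 3 * u)
        (sn (k + 1) w + u) ρ (δ₀ * u) →
      CodU S c k D D' Dr N M C₀ a Eb ηm ow η σ lv (fb 0) (f 0) b w 1 Θ 1
        (fun l' j' => sn l' w + T * u - (j' : ℝ) * w) w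
        (sn (k + 1) w + (1 + (s - 1) / s) * u) (δ₀ * u) →
      CodU S c k D D' Dr N M C₀ a Eb ηm ow η σ lv (fb 0) (f 0) b w 1 Θ 0
        (fun l' j' => sn l' w + u + 400 * ((k : ℝ) + 2) * φ - (j' : ℝ) * w) (ow (f n))
        (sn (k + 1) w + u) (δ₀ * u) →
      Bas S (fun J F A => ∀ {bb : ℕ → ℕ → ℝ} {κ : ℝ} {z : ℕ → ℕ → ℕ}
        {g₀ : ℕ → ℕ → ℕ} {Gc : ℕ → PtT F → ℕ → MvPolynomial (Option (Fin m)) ℝ}
        {H : ℕ → LnT F → ℕ → MvPolynomial (Option (Fin m)) ℝ}, κ ≤ 1 →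
        WinB F c (k + 1) D Dr N M C₀ a Eb ηm ow η σ lv bb κ z A g₀ Gc H →
        V0Z J M u ow fb f nb n z →
        ∀ (V : Type) (y : PtT F → V) (y' : LnT F → V) (g : V → MvPolynomial (Option (Fin m)) ℝ),
        Θ J F A V y y' g → ∃ B : F.Ω → Prop, Sub B A ∧ Pe F.p A ≤ 8 * Pe F.p B ∧
          V0E F c k D' s κ₂ ι φ w u
            (∀ v ∈ G, ∀ v' ∈ G, b ≤ v → v ≤ v' → v' ≤ o → sn k v' - sn k v ≤ s * (v' - v) + φ)
            (fb 0) (f 0) (f n) g₀ Gc (fun x => g (y x)) B) := by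
  classical
  obtain ⟨π₀, δ₀, T₀, hπ₀, hδ₀, hV⟩ := v0b m D D' k s h κ₂ (1 / 2) hD hDD hk hs hh hh1 hκ₂ hκh
    (by norm_num)
  refine ⟨δ₀, T₀, hδ₀, fun T hT => ?_⟩
  obtain ⟨Λ, hΛ, hV⟩ := hV T hT
  refine ⟨Λ, hΛ, fun ι hι => ?_⟩
  obtain ⟨φ₀, hφ₀, hV⟩ := hV ι hι
  refine ⟨φ₀, hφ₀, ?_⟩
  intro S c sn G b o φ L w u ρ sp hu hw hφu hρ0 hρ r1 r2 r3 r4 r5 l1 l2 f1 f2 rc Dr N M C₀ a Eb ηm
    ow η σ lv fb f nb n ks hDr HW Θ p hΘs hΘl hp hrow hlow hdj hjt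
  have hφ := L.φ0
  obtain ⟨C', htm⟩ := L.tm
  have hpos := L.pos
  have hΛu : 0 < Λ * u := by positivity
  have hw0 : 0 ≤ w := by linarith
  have hw1 : w < 1 := by linarith
  have hb0 : 0 ≤ b := by linarith
  have hb1 : b < 1 := by linarith
  have hE := hV L hu hw hφu hρ0 hρ r1 r2 r3 r4 r5 l1 l2 f1 f2 rc (Dr := Dr) (N := N) (M := M)
    (C₀ := C₀) (a := a) (Eb := Eb) (ηm := ηm) (ow := ow) (η := η) (σ := σ) (lv := lv)
    (fb := fb) (f := f) (nb := nb) (n := n) (ks := ks) HW.n1 HW.ksn HW.fbN HW.fN HW.f0 HW.ob HW.o0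
    HW.oks HW.kse HW.ne HW.gb HW.gf HW.stb HW.stf HW.stk HW.lve (by
      rcases le_or_gt (C₀ * ηm) 0 with h4 | h4
      · linarith
      · linarith [HW.Cη]) HW.Ebu 1
  -- the bounded coefficients
  have hcf := Pool.V0C62.cfb_stmt htm hpos D' (k + 2) (E := 1) (fun i => if i < k then b else w)
    (fun i => (range i).image c) c one_pos (fun i _ => by
      by_cases hi : i < k
      · simp only [if_pos hi]
        exact ⟨hb0, hb1⟩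
      · simp only [if_neg hi]
        exact ⟨hw0, hw1⟩)
  have hcf' := Pool.GRW.bas_part hcf (c := 2) (by norm_num)
  have hE' := Pool.GRW.bas_part hE (c := 4) (by norm_num)
  have hrow' := Pool.GRW.bas_part (hrow π₀ hπ₀) (c := 4) (by norm_num)
  have hlow' := Pool.GRW.bas_part hlow (c := 4) (by norm_num)
  have hdj' := Pool.GRW.bas_part hdj (c := 4) (by norm_num)
  have hjt' := Pool.GRW.bas_part hjt (c := 4) (by norm_num)
  obtain ⟨J₁, hJ₁⟩ := exists_nat_ge (8 / φ)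
  refine Bas.mono J₁ (((hcf'.and hE').and (hrow'.and hlow')).and ((hdj'.and hjt').and
    (pos_bas hpos))) ?_
  rintro J hJ F A ⟨⟨⟨b1, b2⟩, b3, b4⟩, ⟨b5, b6⟩, hA⟩ bb κ z g₀ Gc H hκ W HZ V y y' g hg
  have hJ0 : (0 : ℝ) ≤ J := Nat.cast_nonneg J
  have mulJ : ∀ {x y : ℝ}, x ≤ y → x * J ≤ y * J := fun h => mul_le_mul_of_nonneg_right h hJ0
  have j1 : 8 ≤ φ * J := by
    have e1 : (J₁ : ℝ) ≤ J := by exact_mod_cast hJ
    have e2 := hJ₁.trans e1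
    rw [div_le_iff₀ hφ] at e2
    linarith
  have hfN : f 0 ≤ N := HW.fN 0 (Nat.zero_le _)
  have hbN : fb 0 ≤ N := HW.fbN 0 (Nat.zero_le _)
  have how := HW.o0
  have hob := HW.ob
  have hl := hΘl J F A V y y' g hg
  have hev := W.ev (f 0) hfN
  rw [how] at hev
  have hdep : ∀ v, DepC c (k + 1) (g v) := fun v b b' hn hb => hl.dep v b b' hn fun i hi => by
    obtain ⟨l, hl', rfl⟩ := Finset.mem_image.1 hi
    exact hb l (Finset.mem_range.1 hl')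
  -- the numbers of the charts
  obtain ⟨s1, s2⟩ := W.sds (f 0) hfN (k + 1) le_rfl
  rw [HW.lve (f 0) hfN (k + 1) le_rfl, how] at s1 s2
  have hη := W.hη (f 0) hfN
  have hσ := W.hσ (f 0) hfN
  have hηφ : ηm ≤ φ / 4 := by
    have h1 := HW.Cη
    have h2 : ηm ≤ C₀ * ηm := le_mul_of_one_le_left (hη.1.trans hη.2) W.C1
    linarith
  obtain ⟨X, hX⟩ : ∃ X : ℝ, X = sn (k + 1) w * J := ⟨_, rfl⟩
  obtain ⟨Y, hY⟩ : ∃ Y : ℝ, Y = φ * J := ⟨_, rfl⟩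
  have hY8 : 8 ≤ Y := by rw [hY]; exact j1
  have hgX : X - Y / 4 ≤ g₀ (f 0) (k + 1) := by
    have := mulJ (show σ (f 0) ≤ φ / 4 by linarith)
    rw [hX, hY]
    linarith
  have hgX' : (g₀ (f 0) (k + 1) : ℝ) ≤ X := by rw [hX]; exact s2
  have hpX : X - Y / 4 ≤ p * J := by
    have := mulJ hp
    rw [hX, hY]
    linarith
  have hηJ : ((⌊η (f 0) * J⌋₊ : ℕ) : ℝ) ≤ Y / 4 := by
    have := mulJ (show η (f 0) ≤ φ / 4 by linarith)
    refine (Nat.floor_le (mul_nonneg hη.1 hJ0)).trans ?_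
    rw [hY]
    linarith
  -- the label against the chart
  obtain ⟨M₁, hM₁⟩ : ∃ M₁ : ℝ, M₁ = 1 / 2 ^ ⌊p * J⌋₊ + 1 / 2 ^ g₀ (f 0) (k + 1) := ⟨_, rfl⟩
  have hM₁0 : 0 < M₁ := by rw [hM₁]; positivity
  have hM₁b : M₁ ≤ 2 ^ (-(X - Y / 4 - 2)) := by
    have a1 : (1 : ℝ) / 2 ^ ⌊p * J⌋₊ ≤ 2 ^ (-(X - Y / 4 - 1)) := inv_fl_le (by linarith)
    have a2 : (1 : ℝ) / 2 ^ g₀ (f 0) (k + 1) ≤ 2 ^ (-(X - Y / 4 - 1)) := by
      rw [one_div, ← Real.rpow_natCast, ← Real.rpow_neg (by norm_num)]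
      exact Real.rpow_le_rpow_of_exponent_le (by norm_num) (by linarith)
    have a3 : (2 : ℝ) ^ (-(X - Y / 4 - 2)) = 2 * 2 ^ (-(X - Y / 4 - 1)) := by
      rw [show -(X - Y / 4 - 2) = 1 + -(X - Y / 4 - 1) by ring, Real.rpow_add (by norm_num),
        Real.rpow_one]
    rw [hM₁, a3]
    linarith
  have hfac : (2 : ℝ) ^ ⌊η (f 0) * J⌋₊ * M₁ ≤ 2 ^ (φ * J) / 2 ^ g₀ (f 0) (k + 1) := by
    have a1 : (2 : ℝ) ^ ⌊η (f 0) * J⌋₊ ≤ 2 ^ (Y / 4) := by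
      rw [← Real.rpow_natCast]
      exact Real.rpow_le_rpow_of_exponent_le (by norm_num) hηJ
    have a2 : (2 : ℝ) ^ (Y / 4) * 2 ^ (-(X - Y / 4 - 2)) ≤ 2 ^ (φ * J) /
        2 ^ g₀ (f 0) (k + 1) := by
      rw [← Real.rpow_add (by norm_num), ← hY, ← Real.rpow_natCast 2 (g₀ (f 0) (k + 1)),
        ← Real.rpow_sub (by norm_num)]
      exact Real.rpow_le_rpow_of_exponent_le (by norm_num) (by linarith)
    refine le_trans (mul_le_mul a1 hM₁b hM₁0.le (Real.rpow_pos_of_pos (by norm_num) _).le) a2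
  obtain ⟨B₀, c1, c2, c3⟩ := hev.relb A (fun _ h => h) (by
      have := Pe_nonneg F.isLaw A
      calc κ * Pe F.p A ≤ 1 * Pe F.p A := mul_le_mul_of_nonneg_right hκ this
        _ = _ := one_mul _)
    (fun x => g (y x) - Gc (f 0) x (k + 1)) (fun x => g (y' x) - H (f 0) x (k + 1)) M₁
    (fun x => (totalDegree_sub _ _).trans (max_le ((hl.deg _).trans hDr)
      ((hev.ball.degG x (k + 1)).trans (hDD.trans hDr))))
    (fun x => (totalDegree_sub _ _).trans (max_le ((hl.deg _).trans hDr)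
      ((hev.ball.degH x (k + 1)).trans (hDD.trans hDr))))
    (fun x b b' hn hb => by
      rw [map_sub, map_sub, hdep _ b b' hn hb, hev.ball.depG x (k + 1) b b' hn hb])
    (fun x b b' hn hb => by
      rw [map_sub, map_sub, hdep _ b b' hn hb, hev.ball.depH x (k + 1) b b' hn hb]) hM₁0
    (fun ω hω => by
      rw [map_sub, hl.cls ω hω]
      have a1 := hl.pos ω hω
      have a2 := hev.ball.pos ω hω (k + 1) (by omega)
      rw [hM₁]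
      have a3 : eval (bt F ω) (g (y' (slam F ⌊w * J⌋₊ ω))) -
          eval (bt F ω) (Gc (f 0) (ptr F J ω) (k + 1)) =
          (F.x ω (c (k + 1)) - eval (bt F ω) (Gc (f 0) (ptr F J ω) (k + 1))) -
          (F.x ω (c (k + 1)) - eval (bt F ω) (g (y' (slam F ⌊w * J⌋₊ ω)))) := by ring
      rw [a3]
      refine (abs_sub _ _).trans ?_
      linarith)
    (fun ω hω b _ => by
      rw [map_sub, map_sub, hl.cls ω hω, hev.cls ω hω (k + 1) (by omega), sub_self, abs_zero]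
      exact hM₁0.le)
  -- the coefficients
  have hPA0 : Pe F.p A ≤ 2 * Pe F.p B₀ := by linarith
  have hlk : ∀ i : ℕ, ∃ (V' : Type) (x : PtT F → V') (x' : LnT F → V')
      (q : V' → MvPolynomial (Option (Fin m)) ℝ) (P : ℕ), i < k + 2 →
      Pool.GRD.LbP F ((range i).image c) (c i) D' J ⌊(if i < k then b else w) * J⌋₊ P B₀ x x' q ∧
      (i < k → ∀ s', q (x' s') = H (fb 0) s' i) ∧ (i = k → ∀ s', q (x' s') = H (f 0) s' i) ∧
      (i = k + 1 → ∀ s', q (x' s') = g (y' s')) := by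
    intro i
    rcases lt_trichotomy i k with hi | hi | hi
    · have h2 := ((Pool.D2R.winb_lbp W (k := fb 0) (l := i) hbN (by omega)).mono (Finset.Subset.refl _)
        hDD le_rfl).sub c1
      have e0 : ⌊ow (fb 0) * (J : ℝ)⌋₊ = ⌊(if i < k then b else w) * J⌋₊ := by
        rw [if_pos hi, hob]
      exact ⟨_, _, _, _, _, fun _ => ⟨lbp_eqw h2 e0, fun _ s' => rfl,
        fun h => absurd h (by omega), fun h => absurd h (by omega)⟩⟩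
    · have h2 := ((Pool.D2R.winb_lbp W (k := f 0) (l := i) hfN (by omega)).mono (Finset.Subset.refl _)
        hDD le_rfl).sub c1
      have e0 : ⌊ow (f 0) * (J : ℝ)⌋₊ = ⌊(if i < k then b else w) * J⌋₊ := by
        rw [if_neg (by omega), how]
      exact ⟨_, _, _, _, _, fun _ => ⟨lbp_eqw h2 e0, fun h => absurd h (by omega),
        fun _ s' => rfl, fun h => absurd h (by omega)⟩⟩
    · by_cases hi' : i = k + 1
      · have h2 := hl.sub c1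
        have e0 : ⌊w * (J : ℝ)⌋₊ = ⌊(if i < k then b else w) * J⌋₊ := by
          rw [if_neg (by omega)]
        rw [← hi'] at h2
        exact ⟨_, _, _, _, _, fun _ => ⟨lbp_eqw h2 e0, fun h => absurd h (by omega),
          fun h => absurd h (by omega), fun _ s' => rfl⟩⟩
      · exact ⟨Unit, fun _ => (), fun _ => (), fun _ => 0, 0, fun h => absurd h (by omega)⟩
  choose V' x x' q P hq using hlk
  obtain ⟨B₁, d1, d2, d3⟩ := b1 B₀ c1 hPA0 P V' x x' q (fun i hi => (hq i hi).1)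
  have hcv : ∀ (W' : ℕ) (κ' : Fin m) (V₃ : Type) (x₃ : LnT F → V₃)
      (q₃ : V₃ → MvPolynomial (Option (Fin m)) ℝ) (H₃ : LnT F → MvPolynomial (Option (Fin m)) ℝ),
      (∀ s', q₃ (x₃ s') = H₃ s') → CfB F W' 1 κ' B₁ x₃ q₃ →
      CfB F W' 1 κ' B₁ (fun s => s) H₃ := by
    intro W' κ' V₃ x₃ q₃ H₃ he hc ω hω a
    have e1 : (fun s (_ : Fin m) => H₃ s) = fun s (_ : Fin m) => q₃ (x₃ s) := by
      funext s _
      exact (he s).symm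
    show |(dv W' (fun s (_ : Fin m) => H₃ s) κ' (slam F W' ω)).coeff a| ≤ _
    rw [e1]
    exact hc ω hω a
  have hcfb : ∀ l < k, CfB F ⌊b * J⌋₊ 1 (c l) B₁ (fun s => s) (fun s => H (fb 0) s l) := by
    intro l hl'
    have h1 := d3 l (by omega)
    rw [if_pos hl'] at h1
    exact hcv _ _ _ _ _ _ ((hq l (by omega)).2.1 hl') h1
  have hcfk : CfB F ⌊w * J⌋₊ 1 (c k) B₁ (fun s => s) (fun s => H (f 0) s k) := by
    have h1 := d3 k (by omega)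
    rw [if_neg (by omega)] at h1
    exact hcv _ _ _ _ _ _ ((hq k (by omega)).2.2.1 rfl) h1
  have hcfN : CfB F ⌊w * J⌋₊ 1 (c (k + 1)) B₁ (fun s => s) (fun s => g (y' s)) := by
    have h1 := d3 (k + 1) (by omega)
    rw [if_neg (by omega)] at h1
    exact hcv _ _ _ _ _ _ ((hq (k + 1) (by omega)).2.2.2 rfl) h1
  -- the class theorem on the part
  have hB₁A : Sub B₁ A := fun ω hω => c1 ω (d1 ω hω)
  have hPA1 : Pe F.p A ≤ 4 * Pe F.p B₁ := by linarith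
  have hPA1' : 1 / 4 * Pe F.p A ≤ Pe F.p B₁ := by linarith
  have hB₁0 : 0 < Pe F.p B₁ := by linarith
  have W₁ : WinB F c (k + 1) D Dr N M C₀ a Eb ηm ow η σ lv bb (4 * max κ 0) z B₁ g₀ Gc H :=
    Pool.D2R.WinB.res W (κ₁ := 1 / 4) hB₁A hPA1' (by positivity) (by
      have := le_max_left κ 0
      linarith)
  have hgB := hΘs J F A B₁ V y y' g hB₁A hg
  obtain ⟨e1, e2, e3, Wn, mu, e4, e5, e6, e7⟩ := b2 B₁ hB₁A hPA1 (κN := fun _ => 0)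
    (GN := fun v => g (y v)) (HN := fun v => g (y' v)) W₁ HZ.zb HZ.zf HZ.zq hcfb hcfk hcfN
    (fun ω hω => by
      show g (y (ptr F J ω)) = g (y' (slam F ⌊w * J⌋₊ ω))
      rw [hl.cls ω (hB₁A ω hω)])
    (fun v => hl.deg _) (fun v => hl.deg _) (fun v => hdep _) (fun v => hdep _)
    (fun ω hω => by
      show |F.x ω (c (k + 1)) - eval (bt F ω) (g (y (ptr F J ω)))| ≤ _
      rw [hl.cls ω (hB₁A ω hω)]
      refine (hl.pos ω (hB₁A ω hω)).trans (one_div_le_one_div_of_le (by positivity)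
        (pow_le_pow_right₀ (by norm_num) (Nat.floor_le_floor (mulJ (by linarith)))))
      )
    (fun ω hω x₁ hx₁ => by
      have h1 := c3 ω (d1 ω hω) x₁ (by rw [how] at hx₁; exact hx₁)
      rw [map_sub] at h1
      show |eval x₁ (g (y (ptr F J ω))) + 0 - eval x₁ (Gc (f 0) (ptr F J ω) (k + 1))| ≤ _
      rw [add_zero]
      exact h1.trans hfac)
    (fun B hB hPB N₁ N₂ h1 h2 h3 => b3 B₁ hB₁A hPA1 V y y' g hgB B hB hPB N₁ N₂ h1 h2 h3)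
    (fun N₂ h1 h2 => b4 B₁ hB₁A hPA1 V y y' g hgB N₂ h1 h2)
    (fun N₁ h1 => b5 B₁ hB₁A hPA1 W₁ hcfb hcfk V y y' g hgB hcfN N₁ h1)
    (fun N₁ h1 => b6 B₁ hB₁A hPA1 W₁ hcfb hcfk V y y' g hgB hcfN N₁ h1)
  have h7 := Pool.ALT.pe_part F.isLaw.nonneg hB₁0 _ e7
  refine ⟨fun ω => B₁ ω ∧ ¬ ∃ i < k, (2 : ℝ) ^ (-(κ₂ * u * J)) <
      |gnh F c (k + 1) (g₀ (f 0)) (folN Gc (fun v => g (y v)) (fb 0) (f n) k (k + 1)) (Gc (f n))
        ω i - (mu (slam F Wn ω) i).eval (rt F Wn ω)|, fun ω hω => hB₁A ω hω.1, ?_, ?_⟩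
  · linarith
  · exact
      { near := fun ω hω x₁ hx₁ => by
          have h1 := c3 ω (d1 ω hω.1) x₁ hx₁
          rw [map_sub] at h1
          exact h1.trans hfac
        bd := fun ω hω i hi => e1 ω hω.1 i hi
        bk := fun ht ω hω => e2 ht ω hω.1
        sm := fun ω ν hω hν hp' i hi => e3 ω ν hω.1 hν.1 hp' i hi
        cl := ⟨Wn, mu, e4, e5, e6, fun ω hω i hi => by
          have h1 := hω.2
          push Not at h1
          exact h1 i hi⟩ }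

end Pool.V0B19
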