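import Pool.Agent.H44.V0P.S3
import Pool.Agent.H71.V0R.S

/-!
# A counted target over a follower over slope-one places: the class theorem, statement

`V0cBStmt`: slopes one below the place `k`, slope `s` of the target `k + 1`, the follower `k` is not
slower. The label `GN` of the target is near its chart of the window `w`; its rows given the exact
base coordinates have the rate `ρ ≤ (1 - h) log 2`, and its height given the exact base coordinates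
and the record of the window `w + u / s` has at least this rate. Then the natural gradient of the
target over the base coordinates is closed.
-/

set_option autoImplicit false

namespace Pool.V0B19

open Finset Real MvPolynomial
open Pool.Agent.H49.Ent Pool.Agent.H32.Dense
open Pool.STK hiding pr2
open Pool.KA Pool.KSAT Pool.K2S Pool.PB Pool.S6C
open Pool.GEN Pool.CHT Pool.CHX Pool.ISO Pool.LA91 Pool.AVG71 Pool.AVG5 Pool.D2F2 Pool.AVG57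
open Pool.RCD Pool.AVG96 Pool.OWN68 Pool.V0F
open Pool.V0R (LadR)
open Pool.V0Q (folN frH)
open Pool.AJW (CfB)
open Pool.D2R (WinB gnh)
open Pool.BFL (Pb)
open Pool.PB.Trl (rt)

/-- The digits `n` of the own height of the last place over the label `HN`. -/
noncomputable def MhN {m J : ℕ} (F : Fam m J) (κ : Fin m) (w : ℕ)
    (HN : LnT F → MvPolynomial (Option (Fin m)) ℝ) (n : ℕ) (ω : F.Ω) : ℤ :=
  ⌊(2 : ℝ) ^ n * ojet F κ 0 (HN (slam F w ω)) ω⌋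

/-- **(V0CB)** The class theorem for a counted target: slopes one below the place `k`, slope `s` of
the target `k + 1`, the follower `k` is not slower; the unit `u`. The charts of the chain are those
of the window `b`, the follower is on its chart of the window `w + u`, the label `GN` of the target
is near the chart of `w`. `row`, `low`: the number of the target given the exact base. -/
def V0cBStmt : Prop := ∀ (m D D' k : ℕ) (s h κ₂ ε : ℝ), 1 ≤ D → D ≤ D' → 1 ≤ k → 1 < s →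
  0 < h → h ≤ 1 → 0 < κ₂ → κ₂ < (s - 1) / s * h → 0 < ε →
  ∃ π₀ δ₀ T₀ : ℝ, 0 < π₀ ∧ 0 < δ₀ ∧ ∀ T : ℝ, T₀ ≤ T → ∃ Λ : ℝ, 1 ≤ Λ ∧ ∀ ι : ℝ, 0 < ι →
  ∃ φ₀ : ℝ, 0 < φ₀ ∧
  ∀ {S : PCl m} {c : ℕ → Fin m} {sn : ℕ → ℝ → ℝ} {G : Set ℝ} {b o φ : ℝ},
    LadR S c k 1 sn G b o φ →
    ∀ {w u ρ : ℝ} {sp : ℕ → ℝ → ℝ}, 0 < u → w ∈ G → φ ≤ φ₀ * u → 0 ≤ ρ →
    ρ ≤ (1 - h) * Real.log 2 →
    -- the room
    b + Λ * u ≤ w → w + Λ * u ≤ o → o + Λ * u ≤ 1 → Λ * u ≤ b →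
    (∀ l ≤ k + 1, Λ * u ≤ sn l b ∧ sn l o + Λ * u ≤ 1) →
    -- the levels of the target and of the follower
    (∀ v ∈ G, b ≤ v → v ≤ o → |sn (k + 1) v - sn (k + 1) w - s * (v - w)| ≤ φ) →
    (∀ v ∈ G, ∀ v' ∈ G, b ≤ v → v ≤ v' → v' ≤ o → s * (v' - v) ≤ sn k v' - sn k v + φ) →
    -- free velocities
    (∀ i < k, sp i b ≤ sn i b - φ) →
    (∀ (P : Fin k → ℚ) (w₁ : ℚ) (x' : ℝ), w ≤ w₁ → (w₁ : ℝ) ≤ w + φ → x' ∈ G → w₁ ≤ x' →
      x' ≤ w + Λ * u → (∀ i : Fin k, sn i w - w + u ≤ P i ∧ (P i : ℝ) ≤ sn i w - w + Λ * u) →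
      (∀ l i : Fin k, l < i → (P i : ℝ) - (sn i w - w) + u / 2 ≤ P l - (sn l w - w)) →
      FrI S c k sp b (fun i => (P i : ℝ)) w₁ x' (φ₀ * u)) →
    -- the records
    (∀ w₁ : ℚ, w ≤ w₁ → (w₁ : ℝ) ≤ w + φ →
      ∃ η : ℝ, RNum S (fun J F => ptr F J) (vg (w₁ : ℝ)) η) →
    -- the windows of the charts
    ∀ {Dr N M : ℕ} {C₀ a Eb ηm : ℝ} {ow η σ : ℕ → ℝ} {lv : ℕ → ℕ → ℝ} {fb f : ℕ → ℕ}
      {nb n ks : ℕ}, 1 ≤ n → ks ≤ n → (∀ t ≤ nb, fb t ≤ N) → (∀ t ≤ n, f t ≤ N) →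
    f 0 = fb nb → ow (fb 0) = b → ow (f 0) = w → ow (f ks) ≤ ow (f n) →
    |ow (f ks) - (w + u / s)| ≤ φ → |ow (f n) - (w + u)| ≤ φ →
    (∀ t ≤ nb, ow (fb t) ∈ G) → (∀ t ≤ n, ow (f t) ∈ G) →
    (∀ t < nb, ow (fb t) ≤ ow (fb (t + 1)) ∧ ow (fb (t + 1)) ≤ ow (fb t) + φ) →
    (∀ t < n, ow (f t) ≤ ow (f (t + 1)) ∧ ow (f (t + 1)) ≤ ow (f t) + φ) →
    (∀ t < n, sn k (ow (f (t + 1))) ≤ sn k (ow (f t)) + φ) →
    (∀ t ≤ N, ∀ l ≤ k + 1, lv t l = sn l (ow t)) → C₀ * ηm ≤ φ →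
    (∀ l ≤ k + 1, Eb + sn l w + Λ * u ≤ 1) →
    ∀ E : ℝ, Bas S (fun J F A => ∀ {bb : ℕ → ℕ → ℝ} {κ : ℝ} {z : ℕ → ℕ → ℕ}
      {g₀ : ℕ → ℕ → ℕ} {Gc : ℕ → PtT F → ℕ → MvPolynomial (Option (Fin m)) ℝ}
      {H : ℕ → LnT F → ℕ → MvPolynomial (Option (Fin m)) ℝ}
      {GN : PtT F → MvPolynomial (Option (Fin m)) ℝ}
      {HN : LnT F → MvPolynomial (Option (Fin m)) ℝ} {κN : F.Ω → ℝ},
      WinB F c (k + 1) D Dr N M C₀ a Eb ηm ow η σ lv bb κ z A g₀ Gc H →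
      (∀ t < nb, ∃ j ≤ M, z (fb t) j = ⌊ow (fb (t + 1)) * J⌋₊ - ⌊ow (fb t) * J⌋₊) →
      (∀ t < n, ∃ j ≤ M, z (f t) j = ⌊ow (f (t + 1)) * J⌋₊ - ⌊ow (f t) * J⌋₊) →
      (∃ jq ≤ M, ∃ jT ≤ M, (z (fb 0) jq : ℝ) ≤ u * J ∧ z (fb 0) jq + 1 ≤ z (fb 0) jT) →
      (∀ l < k, CfB F ⌊b * J⌋₊ E (c l) A (fun s => s) (fun s => H (fb 0) s l)) →
      CfB F ⌊w * J⌋₊ E (c k) A (fun s => s) (fun s => H (f 0) s k) →
      -- the label of the target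
      CfB F ⌊w * J⌋₊ E (c (k + 1)) A (fun s => s) HN →
      (∀ ω, A ω → GN (ptr F J ω) = HN (slam F ⌊w * J⌋₊ ω)) →
      (∀ y, (GN y).totalDegree ≤ D') → (∀ s', (HN s').totalDegree ≤ D') →
      (∀ y, DepC c (k + 1) (GN y)) → (∀ s', DepC c (k + 1) (HN s')) →
      (∀ ω, A ω → |F.x ω (c (k + 1)) - eval (bt F ω) (GN (ptr F J ω))| ≤
        1 / 2 ^ ⌊(sn (k + 1) w - φ) * J⌋₊) →
      (∀ ω, A ω → ∀ x, NBx c (Gc (f 0) (ptr F J ω)) (g₀ (f 0)) ⌊ow (f 0) * J⌋₊ (F.t ω)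
        (k + 1) x → |eval x (GN (ptr F J ω)) + κN ω - eval x (Gc (f 0) (ptr F J ω) (k + 1))| ≤
          2 ^ (φ * J) / 2 ^ g₀ (f 0) (k + 1)) →
      -- (row) the rows of the target over the exact base
      (∀ B : F.Ω → Prop, Sub B A → π₀ * Pe F.p A ≤ Pe F.p B → ∀ N₁ N₂ : ℕ,
        (sn (k + 1) w + u) * J ≤ N₁ → N₁ ≤ N₂ → (N₂ : ℝ) ≤ (sn (k + 1) w + 3 * u) * J →
        CH (Pool.Agent.H49.Ent.cond F.p B True) (MhN F (c (k + 1)) ⌊w * J⌋₊ HN N₂)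
          (fun ω => (MhN F (c (k + 1)) ⌊w * J⌋₊ HN N₁ ω,
            ((fun l : Fin k => F.X J ω (c l)), (cR F A w ω, F.W ω)))) ≤
          ρ * ((N₂ : ℝ) - N₁) + δ₀ * u * J) →
      -- (low) the number of the target, from the record at the window `w + u / s`
      (∀ N₂ : ℕ, (sn (k + 1) w + u) * J ≤ N₂ → (N₂ : ℝ) ≤ (sn (k + 1) w + 3 * u) * J →
        ρ * ((N₂ : ℝ) - (sn (k + 1) w + u) * J) - δ₀ * u * J ≤
          CH (Pool.Agent.H49.Ent.cond F.p A True) (MhN F (c (k + 1)) ⌊w * J⌋₊ HN N₂)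
            (fun ω => ((fun l : Fin k => F.X J ω (c l)), (cR F A (ow (f ks)) ω, F.W ω)))) →
      -- (dj) the codes of order `≥ 1` of the target from the record at `w`
      (∀ N' : ℕ, (N' : ℝ) ≤ (sn (k + 1) w + (1 + (s - 1) / s) * u) * J →
        CH (Pool.Agent.H49.Ent.cond F.p A True)
          (Pool.AVG57.cod F ⌊w * J⌋₊ HN (c (k + 1)) N' 1 (D' + 1))
          (fun ω => (jet2 F c ⌊w * J⌋₊ (frH H HN (fb 0) (f 0) k ⌊b * J⌋₊ ⌊w * J⌋₊) 0 k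
            (fun l' j' => sn l' w + T * u - (j' : ℝ) * w) ω, (cR F A w ω, F.W ω))) ≤
          δ₀ * u * J) →
      -- (jt) all codes of the target from the record at `w + u`
      (∀ N' : ℕ, (N' : ℝ) ≤ (sn (k + 1) w + u) * J →
        CH (Pool.Agent.H49.Ent.cond F.p A True)
          (Pool.AVG57.cod F ⌊w * J⌋₊ HN (c (k + 1)) N' 0 (D' + 1))
          (fun ω => (jet2 F c ⌊w * J⌋₊ (frH H HN (fb 0) (f 0) k ⌊b * J⌋₊ ⌊w * J⌋₊) 0 k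
            (fun l' j' => sn l' w + u + 400 * ((k : ℝ) + 2) * φ - (j' : ℝ) * w) ω,
            (cR F A (ow (f n)) ω, F.W ω))) ≤ δ₀ * u * J) →
      -- the bounds of the gradient
      (∀ ω, A ω → ∀ i < k, |gnh F c (k + 1) (g₀ (f 0)) (folN Gc GN (fb 0) (f n) k (k + 1))
        (Gc (f n)) ω i| ≤ 2 ^ (ι * u * J)) ∧
      ((∀ v ∈ G, ∀ v' ∈ G, b ≤ v → v ≤ v' → v' ≤ o → sn k v' - sn k v ≤ s * (v' - v) + φ) →
        ∀ ω, A ω → |gnh F c (k + 1) (g₀ (f 0)) (folN Gc GN (fb 0) (f n) k (k + 1))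
          (Gc (f n)) ω k| ≤ 2 ^ (ι * u * J)) ∧
      -- samples of one cell
      (∀ ω ν, A ω → A ν → ptr F J ω = ptr F J ν → ∀ i < k,
        |gnh F c (k + 1) (g₀ (f 0)) (folN Gc GN (fb 0) (f n) k (k + 1)) (Gc (f n)) ω i -
          gnh F c (k + 1) (g₀ (f 0)) (folN Gc GN (fb 0) (f n) k (k + 1)) (Gc (f n)) ν i| ≤
          2 ^ (-((s - 1) / s / 2 * u * J))) ∧
      -- the gradient is closed
      ∃ (W : ℕ) (mu : LnT F → ℕ → Polynomial ℝ), ⌊w * J⌋₊ ≤ W ∧ (W : ℝ) ≤ (w + 2 * φ) * J ∧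
        (∀ s' i, (mu s' i).natDegree ≤ D' + 1) ∧
        Pb (Pool.Agent.H49.Ent.cond F.p A True) (fun ω => ∃ i < k, (2 : ℝ) ^ (-(κ₂ * u * J)) <
          |gnh F c (k + 1) (g₀ (f 0)) (folN Gc GN (fb 0) (f n) k (k + 1)) (Gc (f n)) ω i -
            (mu (slam F W ω) i).eval (rt F W ω)|) ≤ ε)

end Pool.V0B19
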