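import Pool.Agent.H19.V0B.Ex
import Pool.Agent.H83.VG.V0g

/-!
# A counted target over a follower: the class theorem

`v0b : V0cBStmt`.
-/

set_option autoImplicit false

namespace Pool.V0B19

open Finset Real MvPolynomial
open Pool.Agent.H49.Ent Pool.Agent.H32.Dense
open Pool.STK hiding pr2
open Pool.KA Pool.KSAT Pool.K2S Pool.PB Pool.S6C
open Pool.GEN Pool.CHT Pool.CHX Pool.ISO Pool.LA91 Pool.AVG71 Pool.AVG5 Pool.D2F2 Pool.AVG57
open Pool.RCD Pool.AVG96 Pool.OWN68 Pool.V0F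
open Pool.V0R (LadR)
open Pool.VG83 (GW GEv V0gStmt v0g)
open Pool.AJW (CfB)
open Pool.D2R (WinB gnh hgt)
open Pool.LV64 (GrdV)
open Pool.BFL (Pb)
open Pool.PB.Trl (rt)
open Pool.V0Q

/-- The entropy of a constant in a pair. -/
theorem ch_pu {Ω : Type} [Fintype Ω] {p : Ω → ℝ} (h0 : ∀ ω, 0 ≤ p ω) {α β : Type} (X : Ω → α)
    (Z : Ω → β) : CH p (fun ω => (X ω, ())) Z = CH p X Z :=
  CH_congr h0 (fun _ _ _ _ e => (Prod.ext_iff.mp (Prod.ext_iff.mp e).1).1)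
    (fun _ _ _ _ e => Prod.ext (Prod.ext_iff.mp e).1 rfl) (fun _ _ _ _ e => e)
    (fun _ _ _ _ e => e)

/-- The entropy of a constant. -/
theorem ch_un {Ω : Type} [Fintype Ω] {p : Ω → ℝ} (h0 : ∀ ω, 0 ≤ p ω) {β : Type} (Z : Ω → β) :
    CH p (fun _ => ()) Z = 0 := CH_eq_zero h0 fun _ _ _ _ _ => rfl

set_option maxHeartbeats 16000000 in
/-- **(V0CB)** The class theorem for a counted target. -/
theorem v0b_of (hV : V0gStmt) : V0cBStmt := by
  intro m D D' k s h κ₂ ε hD hDD hk1 hs hh hh1 hκ₂ hκh hε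
  have hl2 : 0 < Real.log 2 := Real.log_pos one_lt_two
  have hl21 : Real.log 2 ≤ 1 := by
    have := Real.log_two_lt_d9
    linarith
  have hl5 : 0 < Real.log 5 := Real.log_pos (by norm_num)
  have hl52 : Real.log 5 ≤ 3 := by
    have h1 : Real.log 5 ≤ Real.log (2 ^ 3) := Real.log_le_log (by norm_num) (by norm_num)
    rw [Real.log_pow] at h1
    have h2 := Real.log_two_lt_d9
    push_cast at h1
    linarith
  have hk1' : (1 : ℝ) ≤ k := by exact_mod_cast hk1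
  have hs0 : 0 < s := one_pos.trans hs
  obtain ⟨ξ, hξe⟩ : ∃ ξ : ℝ, ξ = (s - 1) / s := ⟨_, rfl⟩
  have hξ : s * ξ = s - 1 := by
    rw [hξe]
    exact mul_div_cancel₀ _ hs0.ne'
  rw [← hξe] at hκh
  have hξ0 : 0 < ξ := by
    rw [hξe]
    exact div_pos (by linarith only [hs]) hs0
  have hξ1 : ξ < 1 := by
    rw [hξe, div_lt_one hs0]
    linarith only []
  have hs3 : 0 < s - 1 - ξ := by
    have : 0 < (s - 1) * ξ := mul_pos (by linarith only [hs]) hξ0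
    linarith only [this, hξ]
  obtain ⟨x₀, hx₀⟩ : ∃ x₀ : ℝ, x₀ = (κ₂ / ξ + h) / 2 := ⟨_, rfl⟩
  have hκξ : κ₂ / ξ < h := by
    rw [div_lt_iff₀ hξ0]
    linarith only [hκh]
  have hκξ0 : 0 < κ₂ / ξ := div_pos hκ₂ hξ0
  have hx0 : 0 < x₀ := by
    rw [hx₀]
    linarith only [hκξ0, hh]
  have hxh : x₀ < h := by
    rw [hx₀]
    linarith only [hκξ]
  have hxκ : κ₂ < x₀ * ξ := by
    have e1 : κ₂ / ξ < x₀ := by
      rw [hx₀]
      linarith only [hκξ]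
    rwa [div_lt_iff₀ hξ0] at e1
  obtain ⟨π₀, δ, T₀, hπ₀, hδ, HV⟩ := hV D' D' k h x₀ ξ ε (hD.trans hDD) le_rfl hk1 hh hh1 hx0 hxh
    hξ0 hξ1.le hε
  obtain ⟨Cg, hCg, HG⟩ := grdB D D' k
  obtain ⟨Cc, hCc, HC⟩ := celB m D k
  refine ⟨min π₀ 1, δ / 8, max T₀ 60, lt_min hπ₀ one_pos, by positivity, ?_⟩
  intro T hT
  have hT0 : T₀ ≤ T := (le_max_left _ _).trans hT
  have hT60 : 60 ≤ T := (le_max_right _ _).trans hT
  obtain ⟨Λg, hΛg, HV⟩ := HV T hT0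
  obtain ⟨Λ, hΛ⟩ : ∃ Λ : ℝ, Λ = Λg + (4 * T + 4 * k + 40) := ⟨_, rfl⟩
  have hΛ1 : Λg ≤ Λ := by rw [hΛ]; linarith only [hT60, hk1']
  have hΛ2 : 4 * T + 4 * k + 40 ≤ Λ := by rw [hΛ]; linarith only [hΛg]
  refine ⟨Λ, hΛg.trans hΛ1, ?_⟩
  intro ι hι
  obtain ⟨φg, hφg, HV⟩ := HV Cg
  obtain ⟨θ, hθ0, k1, k2, k3, k4, k5, k6, k7⟩ := cst_b D' Cg Cc hξ0 hs3 hι hδ hφg
  have hrs : (1 : ℝ) ≤ 4 * (k : ℝ) + 20 + s := by linarith only [hk1', hs0]
  have hrs0 : (0 : ℝ) < 4 * (k : ℝ) + 20 + s := by linarith only [hrs]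
  refine ⟨θ / (4 * (k : ℝ) + 20 + s), by positivity, ?_⟩
  intro S c sn Gs b o φ L w u ρ sp hu hw hφ₀ hρ0 hρ bw wo o1 b0 hlb st sk hspn hfr hrn
    Dr N M C₀ a Eb ηm ow η σ lv fb f nb n ks hn hks hfb hf hf0 hob how hjx hj hx
    gfb gf stb stf stk hlv hCη hEb E
  have hφ0 := L.φ0
  obtain ⟨φ₀, hφ₀'⟩ : ∃ φ₀ : ℝ, φ₀ = θ / (4 * (k : ℝ) + 20 + s) := ⟨_, rfl⟩
  rw [← hφ₀'] at hφ₀ hfr
  obtain ⟨y, hy⟩ : ∃ y : ℝ, y = (4 * (k : ℝ) + 20 + s) * φ := ⟨_, rfl⟩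
  have hφ₀θ : (4 * (k : ℝ) + 20 + s) * φ₀ = θ := by
    rw [hφ₀']
    field_simp
  have hφ₀0 : 0 < φ₀ := by
    rw [hφ₀']
    positivity
  have hφ₀g : φ₀ ≤ φg := by
    have e1 : 1 * φ₀ ≤ (4 * (k : ℝ) + 20 + s) * φ₀ := mul_le_mul_of_nonneg_right hrs hφ₀0.le
    linarith only [e1, hφ₀θ, k1]
  have hyθ : y ≤ θ * u := by
    have e1 := mul_le_mul_of_nonneg_left hφ₀ hrs0.le
    rw [← hy, ← mul_assoc, hφ₀θ] at e1
    exact e1
  have pu : ∀ {a a' : ℝ}, a ≤ a' → a * u ≤ a' * u := fun h => mul_le_mul_of_nonneg_right h hu.le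
  have yξ : 4000 * y ≤ ξ * u := by
    have e1 := pu k2
    linarith only [e1, hyθ]
  have yd : 4000 * y ≤ (s - 1 - ξ) * u := by
    have e1 := pu k3
    linarith only [e1, hyθ]
  have jG := gf ks hks
  have xG := gf n le_rfl
  obtain ⟨w₁, xr, x', Nn⟩ := nb_ex hk1 hs hT60 hΛ2 L hy hξ0 hξ1 hξ yξ yd hu hw bw wo o1 b0 hlb st
    sk jG xG hjx hj hx
  obtain ⟨b1, b2, b3, b4, b5, b6, b7, b8, b9, b10, b11, b12, b13, b14, b15, b16⟩ := Nn.wb
  obtain ⟨h1, h2, h3, h4, h5, h6⟩ := Nn.sm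
  obtain ⟨r1, r2, r3, r4, r5⟩ := Nn.rm
  have hy0 := Nn.y0
  have hyu := Nn.yu
  obtain ⟨C₁, htm⟩ := L.tm
  have hw1 := Nn.gw.hw1
  have hw2 := Nn.gw.hw2
  -- the class facts
  have B1 := fewB (D := D') L Nn (ε := δ / 8 * u) (by positivity) E
  have hrn' := hrn w₁ hw1 hw2
  have B2 := HV L.lad (sp := sp) (hyθ.trans (pu k1)) (gw_mono Nn.gw hΛ1) hspn (fun P hP1 hP2 =>
    fri_mono (hfr P w₁ x' hw1 hw2 Nn.gw.xG' (by
      have e1 := abs_le.1 Nn.gw.hx'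
      linarith only [e1.1, hw2, h3, r2, hu, h5, h2, hyu, h4, h1]) (by
      have e1 := abs_le.1 Nn.gw.hx'
      linarith only [e1.2, r3, r1, r2, hu, hyu, h4, h1, h2, h3]) (fun i => ⟨(hP1 i).1, (hP1 i).2.trans (by
      have := pu hΛ1
      linarith only [this])⟩) hP2) (pu hφ₀g)) hrn' E
  obtain ⟨Z, hZ⟩ : ∃ Z : ℝ, Z = 10 + 3 * (D' + 3) + 20 * k + nb + n + x₀ / (x₀ * ξ - κ₂) +
    16 * (Cg + 1) / ι + 16 * (Cg + 1) / ξ := ⟨_, rfl⟩
  obtain ⟨J₂, hJ₂⟩ := exists_nat_ge (Z / φ)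
  refine Bas.mono (J₂ + 1) ((B1.and B2).and (pos_bas L.pos)) ?_
  rintro J hJ F A ⟨⟨H1, H2⟩, hA⟩ bb κ₀ z g₀ Gc H GN HN κN WB zb zf zjb cfb cfw
    cfn hcl' hdG hdg hdP hdp hps hnear hrow hlow hdj hjt
  clear B1 B2 HV hfr hrn
  have hcl := isLaw_cond F.isLaw hA
  have h0 := hcl.nonneg
  have hJ0 : (0 : ℝ) ≤ J := Nat.cast_nonneg J
  have hJpos : 0 < J := by omega
  have hJp : (0 : ℝ) < J := by exact_mod_cast hJpos
  have hZφ : Z ≤ φ * J := by
    have e1 : (J₂ : ℝ) ≤ J := by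
      have : J₂ ≤ J := by omega
      exact_mod_cast this
    have e2 := hJ₂.trans e1
    rw [div_le_iff₀ hφ0] at e2
    linarith only [e2]
  have mj : ∀ {a a' : ℝ}, a ≤ a' → a * J ≤ a' * J := fun h => mul_le_mul_of_nonneg_right h hJ0
  have hxκ' : 0 < x₀ * ξ - κ₂ := by linarith only [hxκ]
  have z1 : (0 : ℝ) ≤ D' := Nat.cast_nonneg _
  have z2 : (0 : ℝ) ≤ nb := Nat.cast_nonneg _
  have z3 : (0 : ℝ) ≤ n := Nat.cast_nonneg _
  have z4 : 0 < x₀ / (x₀ * ξ - κ₂) := div_pos hx0 hxκ'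
  have z5 : (0 : ℝ) ≤ Cg := Nat.cast_nonneg _
  have z6 : 0 < 16 * ((Cg : ℝ) + 1) / ι := by positivity
  have z7 : 0 < 16 * ((Cg : ℝ) + 1) / ξ := by positivity
  have big10 : 10 ≤ φ * J := by linarith only [hZφ, hZ, z1, z2, z3, z4, z6, z7, hk1']
  have bignb : (nb : ℝ) ≤ φ * J := by linarith only [hZφ, hZ, z1, z2, z3, z4, z6, z7, hk1']
  have bign : (n : ℝ) ≤ φ * J := by linarith only [hZφ, hZ, z1, z2, z3, z4, z6, z7, hk1']
  have bigD : 3 * ((D' : ℝ) + 3) ≤ φ * J := by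
    linarith only [hZφ, hZ, z1, z2, z3, z4, z6, z7, hk1']
  have bigk : 20 * (k : ℝ) ≤ φ * J := by linarith only [hZφ, hZ, z1, z2, z3, z4, z6, z7]
  have φuJ : φ * J ≤ u * J := mj (by linarith only [hyu, h4, h1, h2, h3])
  have φyJ : φ * J ≤ y * J := mj (by linarith only [h4, h1, h2, h3])
  have bigx : x₀ ≤ (x₀ * ξ - κ₂) * (u * J) := by
    have e1 : x₀ / (x₀ * ξ - κ₂) ≤ u * J := by
      linarith only [hZφ, hZ, z1, z2, z3, z4, z6, z7, hk1', φuJ]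
    rw [div_le_iff₀ hxκ'] at e1
    linarith only [e1]
  have bigι : 16 * ((Cg : ℝ) + 1) ≤ ι * (u * J) := by
    have e1 : 16 * ((Cg : ℝ) + 1) / ι ≤ u * J := by
      linarith only [hZφ, hZ, z1, z2, z3, z4, z6, z7, hk1', φuJ]
    rw [div_le_iff₀ hι] at e1
    linarith only [e1]
  have bigξ : 16 * ((Cg : ℝ) + 1) ≤ ξ * (u * J) := by
    have e1 : 16 * ((Cg : ℝ) + 1) / ξ ≤ u * J := by
      linarith only [hZφ, hZ, z1, z2, z3, z4, z6, z7, hk1', φuJ]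
    rw [div_le_iff₀ hξ0] at e1
    linarith only [e1]
  -- the numbers of the event
  obtain ⟨γ, hγ⟩ : ∃ γ : ℕ → ℕ, γ = g₀ (f 0) := ⟨_, rfl⟩
  obtain ⟨q, hq⟩ : ∃ q : ℕ, q = ⌊(u + 500 * y) * (J : ℝ)⌋₊ := ⟨_, rfl⟩
  obtain ⟨X, hX⟩ : ∃ X : ℕ, X = ⌊ξ * u * (J : ℝ)⌋₊ := ⟨_, rfl⟩
  have q1 : (q : ℝ) ≤ (u + 500 * y) * J := by
    rw [hq]
    exact Nat.floor_le (mul_nonneg (by linarith only [hu, hy0]) hJ0)
  have q2 : (u + 500 * y) * J ≤ q + 1 := by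
    rw [hq]
    exact (Nat.lt_floor_add_one _).le
  have x1 : (X : ℝ) ≤ ξ * u * J := by
    rw [hX]
    exact Nat.floor_le (mul_nonneg r4.le hJ0)
  have x2 : ξ * u * J ≤ X + 1 := by
    rw [hX]
    exact (Nat.lt_floor_add_one _).le
  have hηm0 : 0 ≤ ηm := (WB.hη _ (hf 0 (Nat.zero_le _))).1.trans
    (WB.hη _ (hf 0 (Nat.zero_le _))).2
  have hηφ : ηm ≤ φ := (le_mul_of_one_le_left hηm0 WB.C1).trans hCη
  have hlvw : ∀ l ≤ k + 1, lv (f 0) l = sn l w := fun l hl => by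
    rw [hlv (f 0) (hf 0 (Nat.zero_le _)) l hl, how]
  have hg1 : ∀ l ≤ k + 1, (sn l w - φ) * J ≤ γ l := fun l hl => by
    obtain ⟨-, -, g1, -⟩ := WB.g_num (hf 0 (Nat.zero_le _)) hl
    rw [hlvw l hl] at g1
    rw [hγ]
    have := mj hηφ
    linarith only [this, g1]
  have hg2 : ∀ l ≤ k + 1, (γ l : ℝ) ≤ sn l w * J := fun l hl => by
    obtain ⟨-, -, -, g2⟩ := WB.g_num (hf 0 (Nat.zero_le _)) hl
    rw [hlvw l hl] at g2
    rw [hγ]
    exact g2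
  -- the labels
  have LDh := ldp_of WB hDD (kb := fb 0) (kw := f 0) (hfb 0 (Nat.zero_le _))
    (hf 0 (Nat.zero_le _)) (φ := φ) (E := E) (sn := sn) (by rw [hob, how]; exact b1)
    (by rw [how]; linarith only [b12, hu]) hCη
    (fun l hl => hlv _ (hfb 0 (Nat.zero_le _)) l hl) (fun l hl => hlv _ (hf 0 (Nat.zero_le _)) l hl)
    (by rw [hob]; exact cfb) (by rw [how]; exact cfw) (GN := GN) (HN := HN)
    (by rw [how]; exact cfn) (by rw [how]; exact hcl') hdG hdg hdP hdp (by rw [how]; exact hps)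
  rw [hob, how] at LDh
  obtain ⟨e1n, e2n⟩ := H1 _ _ LDh
  have hw1' : w ≤ 1 := by linarith only [b12, hu]
  have hcls0 : ∀ ω, A ω → ∀ l, frP Gc GN (fb 0) (f 0) k (ptr F J ω) l =
      frH H HN (fb 0) (f 0) k ⌊b * J⌋₊ ⌊w * J⌋₊ (slam F ⌊w * J⌋₊ ω) l := by
    intro ω hω l
    have e1 := frp_cls WB (kb := fb 0) (kw := f 0) (hfb 0 (Nat.zero_le _))
      (hf 0 (Nat.zero_le _)) (by rw [hob, how]; exact b1) (by rw [how]; exact hw1')
      (by rw [how]; exact hcl') hω l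
    rw [e1, hob, how]
  obtain ⟨hGrd, hNb, hNk⟩ := HG WB Nn (by
    have := L.inj
    exact this) hn hks hfb hf hf0 hob how gfb gf stb stf stk hlv hCη zb zf
    big10 bignb bign hdG hdP hnear
  rw [← hq, ← hX, ← hγ] at hGrd
  -- the bound of the gradients
  obtain ⟨Y, hY⟩ : ∃ Y : ℕ, Y = ⌈1000 * y * (J : ℝ)⌉₊ + 3 := ⟨_, rfl⟩
  rw [← hY] at hNb hNk
  have hY2 : (Y : ℝ) ≤ 1000 * (y * J) + 4 := by
    rw [hY]
    push_cast
    have := (Nat.ceil_lt_add_one (show 0 ≤ 1000 * y * (J : ℝ) by positivity)).le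
    linarith only [this]
  have hCY : (Cg : ℝ) * Y ≤ 1000 * ((Cg : ℝ) + 1) * (y * J) + 4 * (Cg + 1) := by
    have e1 : (Cg : ℝ) * Y ≤ (Cg + 1) * (1000 * (y * J) + 4) :=
      mul_le_mul (by linarith only []) hY2 (Nat.cast_nonneg _) (by linarith only [z5])
    linarith only [e1]
  have hyJθ : y * J ≤ θ * (u * J) := by
    have := mj hyθ
    linarith only [this]
  have huJ : 0 ≤ u * (J : ℝ) := by positivity
  have hCι : (Cg : ℝ) * Y ≤ ι * (u * J) := by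
    have e1 : 1000 * ((Cg : ℝ) + 1) * (y * J) ≤ 1000 * ((Cg : ℝ) + 1) * (θ * (u * J)) :=
      mul_le_mul_of_nonneg_left hyJθ (by positivity)
    have e2 := mul_le_mul_of_nonneg_right k5 huJ
    linarith only [e1, e2, hCY, bigι]
  have hCξ : (Cg : ℝ) * Y + 1 ≤ ξ / 2 * (u * J) := by
    have e1 : 1000 * ((Cg : ℝ) + 1) * (y * J) ≤ 1000 * ((Cg : ℝ) + 1) * (θ * (u * J)) :=
      mul_le_mul_of_nonneg_left hyJθ (by positivity)
    have e2 := mul_le_mul_of_nonneg_right k6 huJ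
    linarith only [e1, e2, hCY, bigξ, z5]
  have hU : (2 : ℝ) ^ (Cg * Y) ≤ 2 ^ (ι * u * J) := by
    rw [← Real.rpow_natCast]
    refine Real.rpow_le_rpow_of_exponent_le one_le_two ?_
    push_cast
    linarith only [hCι]
  -- the records
  have mono := mono_ch fun t ht => (stf t ht).1
  have hsup : ∀ ω, 0 < Pool.Agent.H49.Ent.cond F.p A True ω → A ω := fun ω hω => of_cond_pos hω
  have hchp : ∀ k₁ ≤ n, ow (f k₁) ≤ 1 →
      Cl2 (ptr F J) (vg (ow (f k₁)) J F) A (chP F k k₁ Gc GN (fb 0) (f 0) f) := by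
    intro k₁ hk₁ ho1
    exact chp_cl2 WB ho1 (hfb 0 (Nat.zero_le _)) (fun t ht => hf t (ht.trans hk₁))
      (by rw [hob, how]; exact b1) (fun t ht => mono t k₁ ht hk₁) (by rw [how]; exact hcl')
  have hcww : ∀ B : F.Ω → Prop, Sub B A → ∀ p : F.Ω → ℝ, (∀ ω, 0 < p ω → B ω) →
      Det p (cR F A w₁) (cR F A w) := by
    intro B hB p hp
    refine det_cR ((cl2_cR A w).mono ⟨fun x => x, fun _ _ => rfl⟩ ?_) fun ω hω => hB ω (hp ω hω)
    obtain ⟨φ', hφ'⟩ := vg_mono hw1 (show (w₁ : ℝ) ≤ 1 by linarith only [b12, hw2, φuJ, hu, hyu, h4, h1, h2, h3]) J F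
    exact ⟨φ', fun ω _ => hφ' ω⟩
  -- small entropies
  have hδuJ : 0 ≤ δ / 8 * u * J := by positivity
  have hyD : 1000 * ((D' : ℝ) + 3) * (y * J) ≤ δ / 8 * u * J := by
    have e1 : 1000 * ((D' : ℝ) + 3) * (y * J) ≤ 1000 * ((D' : ℝ) + 3) * (θ * (u * J)) :=
      mul_le_mul_of_nonneg_left hyJθ (by positivity)
    have e2 := mul_le_mul_of_nonneg_right k7 huJ
    linarith only [e1, e2]
  have hyJ0 : 0 ≤ y * J := by positivity
  have hyD1 : 3000 * (y * J) ≤ δ / 8 * u * J := by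
    have e1 : 0 ≤ (D' : ℝ) * (y * J) := mul_nonneg z1 hyJ0
    linarith only [e1, hyD]
  have hlk : (k : ℝ) * Real.log 5 ≤ y * J := by
    have e1 : (k : ℝ) * Real.log 5 ≤ k * 3 := mul_le_mul_of_nonneg_left hl52 (by positivity)
    linarith only [e1, bigk, φyJ, hk1']
  have hlD : ((D' : ℝ) + 3) * Real.log 5 ≤ y * J := by
    have e1 : ((D' : ℝ) + 3) * Real.log 5 ≤ ((D' : ℝ) + 3) * 3 :=
      mul_le_mul_of_nonneg_left hl52 (by positivity)
    linarith only [e1, bigD, φyJ]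
  have hl1 : Real.log 5 ≤ y * J := by
    have e1 : 0 ≤ ((D' : ℝ) + 2) * Real.log 5 := by positivity
    linarith only [e1, hlD]
  -- the target, near and far digits
  have G1 := hg1 (k + 1) le_rfl
  have G2 := hg2 (k + 1) le_rfl
  have n1' : CH (Pool.Agent.H49.Ent.cond F.p A True)
      (MhN F (c (k + 1)) ⌊w * J⌋₊ HN (γ (k + 1) + q))
      (fun ω => (jh F c k ⌊w * J⌋₊ (frH H HN (fb 0) (f 0) k ⌊b * J⌋₊ ⌊w * J⌋₊)
        (fun l => sn l w + u + 100 * y) ω, (cR F A (ow (f ks)) ω, F.W ω))) ≤ δ * u * J := by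
    obtain ⟨a1, a2, a3, a4, a5⟩ := Nn.n1_c
    obtain ⟨jh', hjh'⟩ : ∃ jh', jh' = jh F c k ⌊w * J⌋₊
      (frH H HN (fb 0) (f 0) k ⌊b * J⌋₊ ⌊w * J⌋₊)
      (fun i => sn i w + u + (60 + 20 * ((k : ℝ) - i)) * φ) := ⟨_, rfl⟩
    rw [← hjh'] at e1n
    have s1 := mhN_th hcl (F := F) (c := c) (w := ⌊w * J⌋₊) (k := k) (n := γ (k + 1) + q)
      (N := sn (k + 1) w + u - (s + 42) * φ) (d := 504 * (y * J)) (by
        push_cast
        have e1 := mj (show u + 500 * y - (u - (s + 42) * φ) ≤ 504 * y by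
          linarith only [h4, h1, h2, h3])
        linarith only [e1, G2, q1]) (by positivity) (Hc := H) (HN := HN) (kb := fb 0)
      (kw := f 0) (wb := ⌊b * J⌋₊) (ww := ⌊w * J⌋₊)
      (fun ω => (jh F c k ⌊w * J⌋₊ (frH H HN (fb 0) (f 0) k ⌊b * J⌋₊ ⌊w * J⌋₊)
        (fun l => sn l w + u + 100 * y) ω, (cR F A (ow (f ks)) ω, F.W ω)))
    obtain ⟨Zc, hZc⟩ : ∃ Zc : F.Ω → _, Zc = fun ω => (jh F c k ⌊w * J⌋₊
      (frH H HN (fb 0) (f 0) k ⌊b * J⌋₊ ⌊w * J⌋₊)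
        (fun l => sn l w + u + 100 * y) ω, (cR F A (ow (f ks)) ω, F.W ω)) := ⟨_, rfl⟩
    rw [← hZc] at s1 ⊢
    have s2 := CH_le_add h0 (th0 F c (k + 1) ⌊w * J⌋₊ (frH H HN (fb 0) (f 0) k ⌊b * J⌋₊
      ⌊w * J⌋₊) (sn (k + 1) w + u - (s + 42) * φ)) jh' Zc
    have s3 := CH_jh hcl (F := F) (c := c) (r := k) (w := ⌊w * J⌋₊)
      (H := frH H HN (fb 0) (f 0) k ⌊b * J⌋₊ ⌊w * J⌋₊) (n := fun l => sn l w + u + 100 * y)
      (n' := fun i => sn i w + u + (60 + 20 * ((k : ℝ) - i)) * φ) (d := 0) (fun l hl => by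
        have e1 := mj (sub_nonneg.2 (a5 l hl))
        linarith only [e1]) le_rfl Zc (fun ω ν _ _ e => by
        rw [hZc] at e
        exact (Prod.ext_iff.mp e).1)
    rw [← hjh'] at s3
    have s4 : CH (Pool.Agent.H49.Ent.cond F.p A True) (th0 F c (k + 1) ⌊w * J⌋₊
        (frH H HN (fb 0) (f 0) k ⌊b * J⌋₊ ⌊w * J⌋₊) (sn (k + 1) w + u - (s + 42) * φ))
        (fun ω => (jh' ω, Zc ω)) ≤ CH (Pool.Agent.H49.Ent.cond F.p A True)
        (th0 F c (k + 1) ⌊w * J⌋₊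
        (frH H HN (fb 0) (f 0) k ⌊b * J⌋₊ ⌊w * J⌋₊) (sn (k + 1) w + u - (s + 42) * φ))
        (fun ω => (jh' ω, (cR F A (ow (f ks)) ω, F.W ω))) :=
      CH_mono_cond h0 fun ω ν _ _ e => by
        rw [hZc] at e
        simp only [Prod.mk.injEq] at e ⊢
        exact ⟨e.1, e.2.2⟩
    have s5 : 504 * (y * J) * Real.log 2 ≤ 504 * (y * J) * 1 :=
      mul_le_mul_of_nonneg_left hl21 (by positivity)
    rw [zero_mul, zero_add] at s3
    linarith only [s1, s2, s3, s4, s5, e1n, hlk, hl1, hyD1, hδuJ, hyJ0]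
  have n2' : CH (Pool.Agent.H49.Ent.cond F.p A True)
      (MhN F (c (k + 1)) ⌊w * J⌋₊ HN (γ (k + 1) + q + X))
      (fun ω => (cR F A xr ω, F.W ω)) ≤ δ * u * J := by
    have s1 := mhN_th hcl (F := F) (c := c) (w := ⌊w * J⌋₊) (k := k) (n := γ (k + 1) + q + X)
      (N := sn (k + 1) w + (1 + ξ) * u + 500 * y) (d := 0) (by
        push_cast
        linarith only [G2, q1, x1]) le_rfl (Hc := H) (HN := HN) (kb := fb 0)
      (kw := f 0) (wb := ⌊b * J⌋₊) (ww := ⌊w * J⌋₊) (fun ω => (cR F A xr ω, F.W ω))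
    rw [zero_mul, zero_add] at s1
    linarith only [s1, e2n, hl1, hyD1, hδuJ, hyJ0]
  -- the rows
  have N1 : (sn (k + 1) w + u) * J ≤ ((γ (k + 1) + q : ℕ) : ℝ) := by
    push_cast
    have e1 := mj (show u ≤ (u + 500 * y) - φ - φ by linarith only [h4, h1, h2, h3])
    linarith only [e1, G1, q2, big10]
  have N2 : ((γ (k + 1) + q + X : ℕ) : ℝ) ≤ (sn (k + 1) w + 3 * u) * J := by
    push_cast
    have e1 := mj (show (u + 500 * y) + ξ * u ≤ 3 * u by linarith only [hyu, r5, hu])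
    linarith only [e1, G2, q1, x1]
  have N12 : γ (k + 1) + q ≤ γ (k + 1) + q + X := Nat.le_add_right _ _
  have N1' : (sn (k + 1) w + u) * J ≤ ((γ (k + 1) + q + X : ℕ) : ℝ) :=
    N1.trans (by exact_mod_cast N12)
  have hNX : ((γ (k + 1) + q + X : ℕ) : ℝ) - ((γ (k + 1) + q : ℕ) : ℝ) = X := by
    push_cast
    ring
  have hπm : 0 < min π₀ 1 := lt_min hπ₀ one_pos
  have row' : ∀ B : F.Ω → Prop, Sub B A → min π₀ 1 * Pe F.p A ≤ Pe F.p B → ∀ {μ : Type}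
      (M1 : F.Ω → μ), CH (Pool.Agent.H49.Ent.cond F.p B True)
        (MhN F (c (k + 1)) ⌊w * J⌋₊ HN (γ (k + 1) + q + X))
        (fun ω => (MhN F (c (k + 1)) ⌊w * J⌋₊ HN (γ (k + 1) + q) ω, (M1 ω,
          ((fun l : Fin k => F.X J ω (c l)), (cR F A w₁ ω, F.W ω))))) ≤
        ρ * X + δ / 8 * u * J := by
    intro B hB hm μ M1
    have hPB : 0 < Pe F.p B := lt_of_lt_of_le (mul_pos hπm hA) hm
    have hclB := isLaw_cond F.isLaw hPB
    have s1 := hrow B hB hm _ _ N1 N12 N2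
    rw [hNX] at s1
    refine le_trans (CH_mono_cond hclB.nonneg fun ω ν hω hν e => ?_) s1
    simp only [Prod.mk.injEq] at e ⊢
    exact ⟨e.1, e.2.2.1, hcww B hB _ (fun ω hω => of_cond_pos hω) ω ν hω hν e.2.2.2.1,
      e.2.2.2.2⟩
  have nl' : CH (Pool.Agent.H49.Ent.cond F.p A True)
      (MhN F (c (k + 1)) ⌊w * J⌋₊ HN (γ (k + 1) + q + X))
      (fun ω => (MhN F (c (k + 1)) ⌊w * J⌋₊ HN (γ (k + 1) + q) ω, ((),
          ((fun l : Fin k => F.X J ω (c l)), (cR F A w₁ ω, F.W ω))))) ≤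
      CH (Pool.Agent.H49.Ent.cond F.p A True)
      (MhN F (c (k + 1)) ⌊w * J⌋₊ HN (γ (k + 1) + q + X))
      (fun ω => ((fun l : Fin k => F.X J ω (c l)), (cR F A (ow (f ks)) ω, F.W ω))) +
      2 * (δ / 8 * u * J) := by
    have s1 := row' A (fun _ h => h) (mul_le_of_le_one_left hA.le (min_le_right _ _))
      (fun _ => ())
    have s2 := hlow _ N1' N2
    have s3 : ρ * (X : ℝ) ≤ ρ * (((γ (k + 1) + q + X : ℕ) : ℝ) - (sn (k + 1) w + u) * J) :=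
      mul_le_mul_of_nonneg_left (by linarith only [hNX, N1]) hρ0
    linarith only [s1, s2, s3]
  -- the codes
  have hN0 : 0 ≤ (sn (k + 1) w + (1 + (s - 1) / s) * u) * (J : ℝ) := by
    have e0 := Nn.lN.1
    have e1 := abs_le.1 (Nn.st b L.bG le_rfl (b1.trans b2))
    have e2 : 0 ≤ s * (w - b) := mul_nonneg hs0.le (by linarith only [b1])
    rw [← hξe]
    refine mul_nonneg ?_ hJ0
    linarith only [e0, e1.2, e2, r4, r3, r1, r2, hu, hyu, h4, h1, h2, h3]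
  have hN0' : 0 ≤ (sn (k + 1) w + u) * (J : ℝ) := by
    have e0 := Nn.lN.1
    have e1 := abs_le.1 (Nn.st b L.bG le_rfl (b1.trans b2))
    have e2 : 0 ≤ s * (w - b) := mul_nonneg hs0.le (by linarith only [b1])
    refine mul_nonneg ?_ hJ0
    linarith only [e0, e1.2, e2, r4, r3, r1, r2, hu, hyu, h4, h1, h2, h3]
  obtain ⟨H', hH'⟩ : ∃ H' : LnT F → ℕ → MvPolynomial (Option (Fin m)) ℝ,
    H' = frH H HN (fb 0) (f 0) k ⌊b * J⌋₊ ⌊w * J⌋₊ := ⟨_, rfl⟩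
  have hHN : (fun s => H' s (k + 1)) = HN := by
    rw [hH']
    exact frH_top
  have hMh : ∀ n : ℕ, Mh F c (k + 1) ⌊w * J⌋₊ H' n = MhN F (c (k + 1)) ⌊w * J⌋₊ HN n :=
    fun n => by
      rw [hH']
      exact mh_frH n
  rw [← hH'] at LDh e1n e2n hdj hjt n1'
  have hcod : 501 * (y * J) * Real.log 2 ≤ 501 * (y * J) * 1 :=
    mul_le_mul_of_nonneg_left hl21 (by positivity)
  have hconv : (((D' + 1 : ℕ) : ℝ) + 1) * (501 * (y * J) * Real.log 2 + Real.log 5) +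
      2 * k * Real.log 5 ≤ δ / 8 * u * J := by
    have e1 : (((D' + 1 : ℕ) : ℝ) + 1) * (501 * (y * J) * Real.log 2 + Real.log 5) ≤
        ((D' : ℝ) + 2) * (501 * (y * J) * 1 + Real.log 5) := by
      push_cast
      refine mul_le_mul (by linarith only []) (by linarith only [hcod]) (by positivity)
        (by positivity)
    have e2 : ((D' : ℝ) + 2) * Real.log 5 ≤ ((D' : ℝ) + 3) * Real.log 5 :=
      mul_le_mul_of_nonneg_right (by linarith only []) hl5.le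
    have e3 : 0 ≤ (D' : ℝ) * (y * J) := mul_nonneg z1 hyJ0
    linarith only [e1, e2, hlD, hlk, hyD, e3, hyJ0]
  have dj' : CH (Pool.Agent.H49.Ent.cond F.p A True)
      (Pool.AVG57.cod F ⌊w * J⌋₊ (fun s => H' s (k + 1)) (c (k + 1)) (γ (k + 1) + q + X) 1
        (D' + 1))
      (fun ω => ((jh F c k ⌊w * J⌋₊ H' (fun l => sn l w + T * u) ω,
        jv F c k ⌊w * J⌋₊ H' (fun l => sn l w - w + T * u) ω), ((), (cR F A w₁ ω, F.W ω)))) ≤
      δ * u * J := by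
    have e1 := hdj ⌊(sn (k + 1) w + (1 + (s - 1) / s) * u) * (J : ℝ)⌋₊ (Nat.floor_le hN0)
    have e4 := Nat.lt_floor_add_one ((sn (k + 1) w + (1 + (s - 1) / s) * u) * (J : ℝ))
    have e2 := codB hcl (F := F) (c := c) (w := ⌊w * J⌋₊) (H := H') (k := k) (D := D' + 1)
      (j₀ := 1) (l := k + 1) (N := ⌊(sn (k + 1) w + (1 + (s - 1) / s) * u) * (J : ℝ)⌋₊)
      (N' := γ (k + 1) + q + X) (d := 501 * (y * J))
      (n := fun (l' j' : ℕ) => sn l' w + T * u - (j' : ℝ) * w)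
      (nh := fun l => sn l w + T * u) (nv := fun l => sn l w - w + T * u)
      (sd := fun _ => ()) (by
        rw [← hξe] at e4 ⊢
        push_cast
        linarith only [e4, G2, q1, x1, φyJ, big10]) (by positivity) (fun l' hl' => by
        push_cast
        linarith only []) (fun l' hl' => by
        push_cast
        linarith only []) (hcww A (fun _ h => h) _ hsup)
    rw [hHN] at e2 ⊢
    linarith only [e1, e2, hconv, hδuJ]
  have jt' : CH (Pool.Agent.H49.Ent.cond F.p A True)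
      (Pool.AVG57.cod F ⌊w * J⌋₊ (fun s => H' s (k + 1)) (c (k + 1)) (γ (k + 1) + q) 0
        (D' + 1))
      (fun ω => ((jh F c k ⌊w * J⌋₊ H' (fun l => sn l w + u + 100 * y) ω,
        jv F c k ⌊w * J⌋₊ H' (fun l => sn l w - w + T * u) ω),
          ((), (cR F A (ow (f n)) ω, F.W ω)))) ≤ δ * u * J := by
    have e1 := hjt ⌊(sn (k + 1) w + u) * (J : ℝ)⌋₊ (Nat.floor_le hN0')
    have e4 := Nat.lt_floor_add_one ((sn (k + 1) w + u) * (J : ℝ))
    have e2 := codB hcl (F := F) (c := c) (w := ⌊w * J⌋₊) (H := H') (k := k) (D := D' + 1)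
      (j₀ := 0) (l := k + 1) (N := ⌊(sn (k + 1) w + u) * (J : ℝ)⌋₊)
      (N' := γ (k + 1) + q) (d := 501 * (y * J))
      (n := fun (l' j' : ℕ) => sn l' w + u + 400 * ((k : ℝ) + 2) * φ - (j' : ℝ) * w)
      (nh := fun l => sn l w + u + 100 * y) (nv := fun l => sn l w - w + T * u)
      (sd := fun _ => ()) (by
        push_cast
        linarith only [e4, G2, q1, φyJ, big10]) (by positivity) (fun l' hl' => by
        push_cast
        linarith only [h4, h1, h2, h3]) (fun l' hl' => by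
        push_cast
        have e5 : 400 * ((k : ℝ) + 2) * φ ≤ 200 * y := by linarith only [h4, h1, h2, h3]
        linarith only [e5, r2, hyu, hu]) (zw := cR F A (ow (f n))) (zw' := cR F A (ow (f n)))
      (fun _ _ _ _ e => e)
    rw [hHN] at e2 ⊢
    linarith only [e1, e2, hconv, hδuJ]
  have g15 := det_cR (hchp ks hks ((b4.trans b5).trans b13)) hsup
  have g16 := det_cR (hchp n le_rfl (b5.trans b13)) hsup
  have hδ0 : 0 ≤ δ * u * J := by positivity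
  have hun : ∀ {β : Type} (Z : F.Ω → β), CH (Pool.Agent.H49.Ent.cond F.p A True)
      (fun _ => ()) Z ≤ δ * u * J := fun Z => by
    rw [ch_un h0]
    exact hδ0
  obtain ⟨gg, hgg⟩ : ∃ gg : F.Ω → Fin k → ℝ, gg = fun ω (i : Fin k) =>
    gnh F c (k + 1) γ (folN Gc GN (fb 0) (f n) k (k + 1)) (Gc (f n)) ω i := ⟨_, rfl⟩
  have EV : GEv F c k (k + 1) D' ⌊(u + 500 * y) * J⌋₊ ⌊ξ * u * J⌋₊ Cg sn w u y φ ξ T w₁
      (ow (f ks)) (ow (f n)) xr x' h E π₀ δ A (frP Gc GN (fb 0) (f 0) k) H' γ gg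
      (chP F k ks Gc GN (fb 0) (f 0) f) (chP F k n Gc GN (fb 0) (f 0) f) (fun _ => ())
      (fun _ => ()) (fun _ => ()) := by
    rw [← hq, ← hX]
    refine ⟨fun s' l => ?_, fun ω hω => ⟨?_, fun l hl => ?_⟩, fun l hl => ⟨hg1 l (by omega),
      hg2 l (by omega)⟩, LDh.cw (k + 1) (by omega) le_rfl, ?_, g15, g16, fun _ _ _ _ _ => rfl,
      ?_, ?_, hun _, hun _, ?_, hun _, hun _, hun _, dj', jt', ?_⟩
    · rw [hH']
      exact frh_deg WB (hfb 0 (Nat.zero_le _)) (hf 0 (Nat.zero_le _)) hDD hdg s' l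
    · rw [hH']
      exact hcls0 ω hω _
    · rw [hH']
      exact hcls0 ω hω _
    · rw [hgg]
      exact hGrd
    · rw [ch_pu h0, hMh]
      exact n1'
    · rw [hMh]
      exact n2'
    · rw [ch_pu h0, ch_pu h0, hMh, hMh]
      have e1 : CH (Pool.Agent.H49.Ent.cond F.p A True)
          (MhN F (c (k + 1)) ⌊w * J⌋₊ HN (γ (k + 1) + q + X))
          (fun ω => ((MhN F (c (k + 1)) ⌊w * J⌋₊ HN (γ (k + 1) + q) ω, ()),
            ((fun l : Fin k => F.X J ω (c l)), (cR F A w₁ ω, F.W ω)))) ≤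
          CH (Pool.Agent.H49.Ent.cond F.p A True)
          (MhN F (c (k + 1)) ⌊w * J⌋₊ HN (γ (k + 1) + q + X))
          (fun ω => (MhN F (c (k + 1)) ⌊w * J⌋₊ HN (γ (k + 1) + q) ω, ((),
            ((fun l : Fin k => F.X J ω (c l)), (cR F A w₁ ω, F.W ω))))) :=
        CH_mono_cond h0 fun ω ν _ _ e => by
          have e1 := congrArg (fun p => p.1.1) e
          have e2 := congrArg (fun p => p.2) e
          exact Prod.ext e1 (Prod.ext rfl e2)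
      linarith only [e1, nl', hδuJ]
    · intro B hB hm
      rw [hMh, hMh]
      have e1 := row' B hB ((mul_le_mul_of_nonneg_right (min_le_left _ _) hA.le).trans hm)
        (fun _ => ())
      have e2 : ρ * X ≤ (1 - h) * Real.log 2 * (ξ * u * J) :=
        mul_le_mul hρ x1 (Nat.cast_nonneg _)
          (mul_nonneg (by linarith only [hh1]) hl2.le)
      linarith only [e1, e2, hδuJ]
  obtain ⟨W, mu, m1, m2, m3, m4⟩ := H2 (k + 1) (frP Gc GN (fb 0) (f 0) k) (H (fb 0)) H' H' H' γ gg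
    _ _ _ _ _ (chP F k ks Gc GN (fb 0) (f 0) f) (chP F k n Gc GN (fb 0) (f 0) f) (fun _ => ())
    (fun _ => ()) (fun _ => ()) LDh.toLD LDh.hb EV
  obtain ⟨mu', hmu'⟩ : ∃ mu' : LnT F → ℕ → Polynomial ℝ, mu' = fun s' i =>
    if h : i < k then mu s' ⟨i, h⟩ else 0 := ⟨_, rfl⟩
  have hmu1 : ∀ s' i (hi : i < k), mu' s' i = mu s' ⟨i, hi⟩ := fun s' i hi => by
    rw [hmu']
    exact dif_pos hi
  have hmu2 : ∀ s' i, ¬ i < k → mu' s' i = 0 := fun s' i hi => by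
    rw [hmu']
    exact dif_neg hi
  refine ⟨fun ω hω i hi => (hNb ω hω i hi).trans hU, fun hsp ω hω => (hNk hsp ω hω).trans hU,
    fun ω ν hω hν hpt i hi => ?_, W, mu', ?_, m2, fun s' i => ?_, ?_⟩
  · have hcell := HC WB Nn L.inj (hfb 0 (Nat.zero_le _)) (hf 0 (Nat.zero_le _)) hob how L.bG hlv
      hCη hEb (fun v hv h1 h2 => by
        have e1 := L.st k le_rfl (by omega) v hv w hw h1 h2 b2
        linarith only [e1]) zjb big10 (by
        have e1 := pu k4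
        have e2 : 4 * (Cc : ℝ) * (θ * u) ≤ u := by linarith only [e1]
        have e3 : φ ≤ θ * u := by linarith only [hyθ, h4, h1, h2, h3]
        have e4 : 4 * (Cc : ℝ) * φ ≤ 4 * (Cc : ℝ) * (θ * u) :=
          mul_le_mul_of_nonneg_left e3 (by positivity)
        have e5 : 0 ≤ (Cc : ℝ) * φ := by positivity
        linarith only [e2, e4, e5]) ω ν hω hν hpt
    have ht : F.t ω = F.t ν := by
      have hT : F.T ω = F.T ν := (Prod.ext_iff.1 (Prod.ext_iff.1 hpt).2).1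
      unfold Fam.t
      rw [hT]
    have e1 := hGrd.bx ω ν hω hν ht rfl (by
      unfold chP Pool.D2R.chs
      rw [hpt]) (fun l => by
      have e2 := hcell l l.2
      have e5 : ∀ ω, hgt F c (frP Gc GN (fb 0) (f 0) k) ω l = hgt F c (Gc (fb 0)) ω l :=
        fun ω => hgt_of (fun y => frP_lo Gc GN l.2 y) ω
      rw [e5, e5, hγ, hq]
      exact e2) 0 ⟨i, hi⟩
    rw [← hγ]
    refine e1.trans ?_
    rw [div_le_iff₀ (by positivity), ← hY, ← Real.rpow_natCast, ← Real.rpow_natCast,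
      ← Real.rpow_add two_pos]
    refine Real.rpow_le_rpow_of_exponent_le one_le_two ?_
    push_cast
    rw [← hξe]
    linarith only [hCξ, x2]
  · refine le_trans (Nat.floor_le_floor ?_) m1
    exact mj hw1
  · by_cases hi : i < k
    · rw [hmu1 s' i hi]
      exact m3 s' ⟨i, hi⟩
    · rw [hmu2 s' i hi, Polynomial.natDegree_zero]
      exact Nat.zero_le _
  · refine le_trans (Pool.LIV.Pb_mono25 h0 fun ω _ hω => ?_) m4
    obtain ⟨i, hi, h8⟩ := hω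
    refine ⟨⟨i, hi⟩, ?_⟩
    rw [hmu1 _ i hi, ← hγ] at h8
    rw [hgg]
    refine lt_of_le_of_lt (Real.rpow_le_rpow_of_exponent_le one_le_two ?_) h8
    rw [← hX]
    have e1 : x₀ * (ξ * u * J) ≤ x₀ * (X + 1) := mul_le_mul_of_nonneg_left x2 hx0.le
    linarith only [e1, bigx]

/-- **(V0CB)** -/
theorem v0b : V0cBStmt := v0b_of v0g

end Pool.V0B19
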